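import Pool.Agent.DLP.UPQ

/-!
# Tools for the cotype estimate
-/

open MeasureTheory Filter
open scoped ENNReal Topology unitInterval

namespace DLP

universe u v w

/-- measurable functions as an additive submonoid -/
def mfun (Ω : Type w) [MeasurableSpace Ω] : AddSubmonoid (Ω → ℝ≥0∞) where
  carrier := {u | Measurable u}
  add_mem' := fun hu hv => hu.add hv
  zero_mem' := measurable_const

lemma exists_M (r η : ℝ) (hr : 1 < r) (hη : 0 < η) :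
    ∃ M : ℕ, 1 ≤ M ∧ (M : ℝ) ^ (1 / r) ≤ η * M := by
  have h1 : 0 < 1 - 1 / r := by
    have : 1 / r < 1 := by rw [div_lt_one (by linarith)]; exact hr
    linarith
  have h2 : Tendsto (fun M : ℕ => (M : ℝ) ^ (-(1 - 1 / r))) atTop (𝓝 0) :=
    (tendsto_rpow_neg_atTop h1).comp tendsto_natCast_atTop_atTop
  obtain ⟨M, hM, hM1⟩ := ((h2.eventually (gt_mem_nhds hη)).and (eventually_ge_atTop 1)).exists
  refine ⟨M, hM1, ?_⟩
  have h0 : (0 : ℝ) < M := by exact_mod_cast hM1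
  calc (M : ℝ) ^ (1 / r) = (M : ℝ) ^ (-(1 - 1 / r)) * M := by
        nth_rewrite 3 [← Real.rpow_one (M : ℝ)]
        rw [← Real.rpow_add h0]
        congr 1
        ring
    _ ≤ η * M := by gcongr

section
variable (𝕜 : Type v) [RCLike 𝕜] {X : Type u} [NormedAddCommGroup X] [NormedSpace 𝕜 X]

lemma norm_tf {L : ℕ} (hL : 1 ≤ L) (τ : ℕ → I → Fin L) (hτm : ∀ m, Measurable (τ m))
    (hτ : ProdF τ) {n : ℕ} (hn : n ≤ L) (x : Fin n → X) (i : Fin n) (m : ℕ) :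
    ‖tf 𝕜 τ hτm hn x i m‖ ^ 2 = ‖x i‖ ^ 2 := by
  have hLpos : (0 : ℝ) < L := by exact_mod_cast hL
  unfold tf
  rw [norm_indicatorConstLp (by simp) (by simp)]
  have h1 : (volume : Measure I) (τ m ⁻¹' {Fin.castLE hn i}) = 1 / L := by
    have h := hτ {m} (fun _ l => if l = Fin.castLE hn i then 1 else 0)
    rw [Finset.prod_singleton] at h
    simp only [Finset.prod_singleton, Finset.sum_ite_eq', Finset.mem_univ, if_true] at h
    rw [← h]
    have h2 : (fun ω => if τ m ω = Fin.castLE hn i then (1 : ℝ≥0∞) else 0) =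
        (τ m ⁻¹' {Fin.castLE hn i}).indicator 1 := by
      funext ω
      by_cases hω : τ m ω = Fin.castLE hn i
      · rw [if_pos hω, Set.indicator_of_mem
          (show ω ∈ τ m ⁻¹' {Fin.castLE hn i} from hω)]; rfl
      · rw [if_neg hω, Set.indicator_of_notMem
          (show ω ∉ τ m ⁻¹' {Fin.castLE hn i} from hω)]
    rw [h2, lintegral_indicator_one (hτm m (measurableSet_singleton _))]
  have h2 : (volume : Measure I).real (τ m ⁻¹' {Fin.castLE hn i}) = 1 / L := by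
    rw [measureReal_def, h1, ENNReal.toReal_div, ENNReal.toReal_one, ENNReal.toReal_natCast]
  rw [h2, mul_pow, norm_cv, ← Real.rpow_natCast ((1 / (L : ℝ)) ^ _), ← Real.rpow_mul (by positivity)]
  simp
  field_simp

end

section
variable (𝕜 : Type v) [RCLike 𝕜] {ι : Type} {Ω : ι → Type w}
    [∀ i, MeasurableSpace (Ω i)] {p : ι → ℝ≥0∞} {μ : ∀ i, Measure (Ω i)}
    [∀ i, Fact (1 ≤ p i)]

/-- the sum of the `m`-th square functions -/
lemma sum_sqf {n : ℕ} (w : Fin n → ℕ → lp (fun i => Lp 𝕜 (p i) (μ i)) 2) (J : Finset ℕ) (i : ι) :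
    (∑ m ∈ J, sqf (fun j : Fin n => w j m i)) = sqf (fun a : Fin n × J => w a.1 a.2 i) := by
  classical
  funext t
  rw [Finset.sum_apply]
  unfold sqf
  rw [Fintype.sum_prod_type_right, ← Finset.sum_coe_sort J]

lemma sel (hKEY : Stmt_KEY.{w}) (hLAT : Stmt_LAT.{w}) {p₀ P : ℝ} (hp₀ : 2 < p₀)
    (hpr : ∀ i, p₀ ≤ (p i).toReal ∧ (p i).toReal ≤ P) (hP : 2 ≤ P)
    {n : ℕ} (w : Fin n → ℕ → lp (fun i => Lp 𝕜 (p i) (μ i)) 2) (b c : ℝ≥0∞) (L : ℕ)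
    (hb : b ≠ ∞) (hc : c ≠ ∞) (hL : 1 ≤ L)
    (hw : ∀ m, qf (fun j => w j m) ≤ b)
    (hJL : ∀ J : Finset ℕ, J.card = L → qf (fun a : Fin n × J => w a.1 a.2) ≤ c * L)
    (M₀ : ℕ) (δ : ℝ≥0∞) (hδ : δ ≠ 0) :
    ∃ J : Finset ℕ, J.card = M₀ ∧ qf (fun a : Fin n × J => w a.1 a.2) ≤
      (2 ^ (P / 2 - 1) + 2) * c * M₀ + 2 * b * (M₀ : ℝ≥0∞) ^ (1 / (p₀ / 2)) + δ := by
  have hAt : (2 : ℝ≥0∞) ^ (P / 2 - 1) ≠ ∞ :=
    ENNReal.rpow_ne_top_of_nonneg (by linarith) (by simp)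
  have hlat := fun i => hLAT (Ω i) (μ i) ((p i).toReal / 2) (by linarith [(hpr i).1])
  have hmeas : ∀ m i, Measurable (sqf (fun j : Fin n => w j m i)) := by
    intro m i
    unfold sqf
    exact Finset.measurable_sum _ fun j _ => measurable_coe 𝕜 i _
  have hsum : ∀ (J : Finset ℕ) (i : ι),
      ((∑ m ∈ J, (⟨sqf (fun j : Fin n => w j m i), hmeas m i⟩ : mfun (Ω i)) : mfun (Ω i)) :
        Ω i → ℝ≥0∞) = sqf (fun a : Fin n × J => w a.1 a.2 i) := by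
    intro J i
    rw [AddSubmonoid.coe_finset_sum]
    exact sum_sqf 𝕜 w J i
  have hqf : ∀ J : Finset ℕ, ∑' i, rho ((p i).toReal / 2) (μ i)
      ((∑ m ∈ J, (⟨sqf (fun j : Fin n => w j m i), hmeas m i⟩ : mfun (Ω i)) : mfun (Ω i)) :
        Ω i → ℝ≥0∞) = qf (fun a : Fin n × J => w a.1 a.2) := by
    intro J
    unfold qf
    refine tsum_congr fun i => ?_
    rw [hsum J i]
  obtain ⟨J, hJc, hJ⟩ := hKEY ι (fun i => mfun (Ω i))
    (fun i u => rho ((p i).toReal / 2) (μ i) (u : Ω i → ℝ≥0∞))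
    (fun i a u => nf ((p i).toReal / 2) (μ i) (a : Ω i → ℝ≥0∞) (u : Ω i → ℝ≥0∞))
    (2 ^ (P / 2 - 1)) 2 (p₀ / 2) hAt (by simp) (by norm_num) (by linarith)
    (fun i => (hlat i).1) (fun i u v => (hlat i).2.1 u v)
    (fun i a => (hlat i).2.2.2.1 a)
    (fun i a u v => (hlat i).2.2.2.2.1 a u v a.2 u.2 v.2)
    (fun i a u => (hlat i).2.2.2.2.2.1 a u a.2 u.2)
    (fun i a u => (hlat i).2.2.2.2.2.2 (p₀ / 2) (P / 2) (by linarith)
      (by linarith [(hpr i).1])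
      (by linarith [(hpr i).2]) a u a.2 u.2)
    (fun m i => ⟨sqf (fun j : Fin n => w j m i), hmeas m i⟩) b c L
    hb hc hL hw (fun J hJ => (hqf J).trans_le (hJL J hJ)) M₀ δ hδ
  exact ⟨J, hJc, (hqf J).symm.trans_le hJ⟩

end

lemma arith {c S C A T G R M η : ℝ} (hc : 0 < c) (hS : 0 ≤ S) (hC : 1 ≤ C) (hM : 1 ≤ M)
    (hη : η ≤ c ^ 2 / (16 * C * (T ^ 2 + 1)) * M) (hη0 : 0 ≤ η)
    (h : c ^ 2 * (M * S / 2) ≤ C * ((A + 2) * (T ^ 2 * G * R) * M +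
      2 * (T ^ 2 * S) * η + c ^ 2 * S / (8 * C))) :
    S ≤ 4 * C * (A + 2) * T ^ 2 * G / c ^ 2 * R := by
  have hC0 : 0 < C := by linarith
  have h6 : C * (2 * (T ^ 2 * S) * η) ≤ c ^ 2 * S * M / 8 := by
    calc C * (2 * (T ^ 2 * S) * η)
        ≤ C * (2 * ((T ^ 2 + 1) * S) * (c ^ 2 / (16 * C * (T ^ 2 + 1)) * M)) := by
          gcongr
          linarith
      _ = c ^ 2 * S * M / 8 := by
          field_simp
          ring
  have h7 : C * (c ^ 2 * S / (8 * C)) ≤ c ^ 2 * S * M / 8 := by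
    have h8 : C * (c ^ 2 * S / (8 * C)) = c ^ 2 * S / 8 := by
      field_simp
    rw [h8]
    have : c ^ 2 * S * 1 ≤ c ^ 2 * S * M := by gcongr
    linarith
  have h8 : c ^ 2 * S * M / 4 ≤ C * ((A + 2) * (T ^ 2 * G * R)) * M := by
    rw [mul_add, mul_add] at h
    have h9 : c ^ 2 * (M * S / 2) = c ^ 2 * S * M / 2 := by ring
    have h10 : C * ((A + 2) * (T ^ 2 * G * R) * M) = C * ((A + 2) * (T ^ 2 * G * R)) * M := by
      ring
    rw [h9, h10] at h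
    linarith
  have h9 : c ^ 2 * S / 4 ≤ C * ((A + 2) * (T ^ 2 * G * R)) := by
    have hM0' : (0 : ℝ) < M := by linarith
    refine le_of_mul_le_mul_right ?_ hM0'
    calc c ^ 2 * S / 4 * M = c ^ 2 * S * M / 4 := by ring
      _ ≤ _ := h8
  rw [div_mul_eq_mul_div, le_div_iff₀ (by positivity)]
  calc S * c ^ 2 = 4 * (c ^ 2 * S / 4) := by ring
    _ ≤ 4 * (C * ((A + 2) * (T ^ 2 * G * R))) := by gcongr
    _ = _ := by ring

lemma toReal_bd {C A : ℝ≥0∞} (hC : C ≠ ∞) (hA : A ≠ ∞) {R g b d : ℝ} {M : ℕ} {s : ℝ} (hs : 0 ≤ s)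
    (hR : 0 ≤ R) (hg : 0 ≤ g) (hb : 0 ≤ b) (hd : 0 ≤ d) {Q : ℝ≥0∞}
    (h : ENNReal.ofReal R ≤ C * Q)
    (hQ : Q ≤ (A + 2) * ENNReal.ofReal g * M + 2 * ENNReal.ofReal b * (M : ℝ≥0∞) ^ s +
      ENNReal.ofReal d) :
    R ≤ C.toReal * ((A.toReal + 2) * g * M + 2 * b * (M : ℝ) ^ s + d) := by
  have h3 : ENNReal.ofReal R ≤ C * ((A + 2) * ENNReal.ofReal g * M +
      2 * ENNReal.ofReal b * (M : ℝ≥0∞) ^ s + ENNReal.ofReal d) := h.trans (by gcongr)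
  have hfin : (A + 2) * ENNReal.ofReal g * M ≠ ∞ :=
    ENNReal.mul_ne_top (ENNReal.mul_ne_top (by simp [hA]) ENNReal.ofReal_ne_top) (by simp)
  have hfin2 : 2 * ENNReal.ofReal b * (M : ℝ≥0∞) ^ s ≠ ∞ :=
    ENNReal.mul_ne_top (ENNReal.mul_ne_top (by simp) ENNReal.ofReal_ne_top)
      (ENNReal.rpow_ne_top_of_nonneg hs (by simp))
  have h4 := ENNReal.toReal_mono (ENNReal.mul_ne_top hC
    (ENNReal.add_ne_top.2 ⟨ENNReal.add_ne_top.2 ⟨hfin, hfin2⟩, ENNReal.ofReal_ne_top⟩)) h3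
  rw [ENNReal.toReal_ofReal hR, ENNReal.toReal_mul,
    ENNReal.toReal_add (ENNReal.add_ne_top.2 ⟨hfin, hfin2⟩) ENNReal.ofReal_ne_top,
    ENNReal.toReal_add hfin hfin2, ENNReal.toReal_mul, ENNReal.toReal_mul,
    ENNReal.toReal_mul, ENNReal.toReal_mul, ENNReal.toReal_add hA (by simp),
    ENNReal.toReal_ofReal hg, ENNReal.toReal_ofReal hb,
    ENNReal.toReal_ofReal hd, ← ENNReal.toReal_rpow] at h4
  simpa only [ENNReal.toReal_natCast, ENNReal.toReal_ofNat] using h4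

end DLP
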