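import Pool.Agent.DLP.COA

/-!
# Rademacher type 2 and cotype 2, abstract form
-/

open MeasureTheory Filter
open scoped ENNReal Topology unitInterval

namespace DLP

universe u v w

section
variable (𝕜 : Type v) [RCLike 𝕜] {X : Type u} [NormedAddCommGroup X] [NormedSpace 𝕜 X]
    {Z : Type w} [NormedAddCommGroup Z] [NormedSpace 𝕜 Z]
    {Q : ∀ (A : Type) [Fintype A], (A → Z) → ℝ≥0∞} {C : ℝ≥0∞}

lemma typ (hup : ∀ (A : Type) [Fintype A] [DecidableEq A] (x : A → Z),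
      ENNReal.ofReal (rad x) ≤ C * Q A x)
    (htri : ∀ (A : Type) [Fintype A] [DecidableEq A] (x : A → Z),
      Q A x ≤ ENNReal.ofReal (∑ a, ‖x a‖ ^ 2)) (hC : C ≠ ∞)
    (T : X →L[𝕜] Z) (c : ℝ) (hc : 0 < c)
    (hR : ∀ (A : Type) [Fintype A] [DecidableEq A] (x : A → X),
        c ^ 2 * rad x ≤ rad (fun a => T (x a)))
    (n : ℕ) (x : Fin n → X) :
    rad x ≤ (C.toReal * ‖T‖ ^ 2 / c ^ 2) * ∑ j, ‖x j‖ ^ 2 := by
  have h1 := hR (Fin n) x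
  have h2 := hup (Fin n) (fun i => T (x i))
  have h3 := htri (Fin n) (fun i => T (x i))
  have h4 : ENNReal.ofReal (rad fun i => T (x i)) ≤
      C * ENNReal.ofReal (∑ i, ‖T (x i)‖ ^ 2) := h2.trans (by gcongr)
  have h5 := ENNReal.toReal_mono (ENNReal.mul_ne_top hC ENNReal.ofReal_ne_top) h4
  rw [ENNReal.toReal_mul, ENNReal.toReal_ofReal (rad_nonneg _),
    ENNReal.toReal_ofReal (by positivity)] at h5
  have h6 : ∑ i, ‖T (x i)‖ ^ 2 ≤ ‖T‖ ^ 2 * ∑ i, ‖x i‖ ^ 2 := by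
    rw [Finset.mul_sum]
    refine Finset.sum_le_sum fun i _ => ?_
    rw [← mul_pow]
    exact pow_le_pow_left₀ (norm_nonneg _) (T.le_opNorm _) 2
  rw [div_mul_eq_mul_div, le_div_iff₀ (by positivity)]
  calc rad x * c ^ 2 = c ^ 2 * rad x := mul_comm _ _
    _ ≤ _ := h1
    _ ≤ _ := h5
    _ ≤ C.toReal * (‖T‖ ^ 2 * ∑ i, ‖x i‖ ^ 2) := by
      exact mul_le_mul_of_nonneg_left h6 ENNReal.toReal_nonneg
    _ = _ := by ring

/-- constants embed isomorphically -/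
lemma exists_T1 (T : DiestelL2.L2V X →L[𝕜] Z) (c : ℝ)
    (hT : ∀ f, c * ‖f‖ ≤ ‖T f‖) :
    ∃ T1 : X →L[𝕜] Z, ∀ x, c * ‖x‖ ≤ ‖T1 x‖ := by
  refine ⟨T ∘L (Lp.constL 2 (volume : Measure I) 𝕜), fun x => ?_⟩
  have h1 := hT (Lp.const 2 (volume : Measure I) x)
  rw [Lp.norm_const' _ _ _ (by simp) (by simp)] at h1
  have h2 : c * ‖x‖ ≤ ‖T (Lp.const 2 (volume : Measure I) x)‖ := by
    simpa using h1
  exact h2

end

theorem cot_abs (hTAU : Stmt_TAU) (hRAD : Stmt_RAD.{u, v, w}) (𝕜 : Type v) [RCLike 𝕜] {X : Type u}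
    [NormedAddCommGroup X] [NormedSpace 𝕜 X] {Z : Type w} [NormedAddCommGroup Z] [NormedSpace 𝕜 Z]
    {Q : ∀ (A : Type) [Fintype A], (A → Z) → ℝ≥0∞} {C A : ℝ≥0∞} {s : ℝ}
    (hlo : ∀ (A : Type) [Fintype A] [DecidableEq A] (x : A → Z),
      Q A x ≤ ENNReal.ofReal (rad x))
    (hup : ∀ (A : Type) [Fintype A] [DecidableEq A] (x : A → Z),
      ENNReal.ofReal (rad x) ≤ C * Q A x)
    (htri : ∀ (A : Type) [Fintype A] [DecidableEq A] (x : A → Z),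
      Q A x ≤ ENNReal.ofReal (∑ a, ‖x a‖ ^ 2)) (hC1 : 1 ≤ C) (hC : C ≠ ∞)
    (hs : 1 < s)
    (K : ℝ≥0∞) (hA : A ≠ ∞)
    (hupp : ∀ (T1 : X →L[𝕜] Z) (c : ℝ), 0 < c → (∀ x, c * ‖x‖ ≤ ‖T1 x‖) →
      ∀ (L : ℕ), 1 ≤ L → ∀ (τ : ℕ → I → Fin L) (hτm : ∀ m, Measurable (τ m)), ProdF τ →
        ∀ (n : ℕ) (hn : n ≤ L) (x : Fin n → X) (J : Finset ℕ), J.card = L →
          c ^ 2 * rad (fun a : Fin n × J => tf 𝕜 τ hτm hn x a.1 a.2) ≤
            C.toReal * K.toReal * ‖T1‖ ^ 2 * L * rad x)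
    (hsel : ∀ (n : ℕ) (w : Fin n → ℕ → Z) (b c : ℝ≥0∞) (L : ℕ), b ≠ ∞ → c ≠ ∞ → 1 ≤ L →
      (∀ m, Q (Fin n) (fun j => w j m) ≤ b) →
      (∀ J : Finset ℕ, J.card = L → Q (Fin n × J) (fun a => w a.1 a.2) ≤ c * L) →
      ∀ (M₀ : ℕ) (δ : ℝ≥0∞), δ ≠ 0 → ∃ J : Finset ℕ, J.card = M₀ ∧
        Q (Fin n × J) (fun a => w a.1 a.2) ≤
          (A + 2) * c * M₀ + 2 * b * (M₀ : ℝ≥0∞) ^ (1 / s) + δ)
    (T : DiestelL2.L2V X →L[𝕜] Z) (c : ℝ) (hc : 0 < c)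
    (hT : ∀ f, c * ‖f‖ ≤ ‖T f‖) :
    ∃ K : ℝ, 0 ≤ K ∧ (∀ (n : ℕ) (x : Fin n → X), rad x ≤ K * ∑ j, ‖x j‖ ^ 2) ∧
      (∀ (n : ℕ) (x : Fin n → X), ∑ j, ‖x j‖ ^ 2 ≤ K * rad x) := by
  have hC0 : 1 ≤ C.toReal := by
    have := ENNReal.toReal_mono hC hC1
    simpa using this
  obtain ⟨T1, hT1⟩ := exists_T1 𝕜 T c hT
  have hR1 := hRAD.1 𝕜 X Z
  have hR2 := hRAD.1 𝕜 (DiestelL2.L2V X) Z T c hc hT
  have htype := typ 𝕜 hup htri hC T1 c hc (fun A _ _ x => (hR1 T1 c hc hT1 A x).1)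
  obtain ⟨G, hG⟩ : ∃ G : ℝ, G = C.toReal * K.toReal * ‖T1‖ ^ 2 / c ^ 2 := ⟨_, rfl⟩
  have hG0 : 0 ≤ G := by rw [hG]; positivity
  obtain ⟨M₀, hM1, hM⟩ := exists_M s (c ^ 2 / (16 * C.toReal * (‖T‖ ^ 2 + 1)))
    hs (by positivity)
  have hM0 : (1 : ℝ) ≤ M₀ := by exact_mod_cast hM1
  have hcotype : ∀ (n : ℕ) (x : Fin n → X), ∑ j, ‖x j‖ ^ 2 ≤
      4 * C.toReal * (A.toReal + 2) * ‖T‖ ^ 2 * G / c ^ 2 * rad x := by
    intro n x
    obtain ⟨S, hS⟩ : ∃ S : ℝ, S = ∑ j, ‖x j‖ ^ 2 := ⟨_, rfl⟩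
    have hD0 : 0 ≤ rad x := rad_nonneg x
    have hS0 : 0 ≤ S := by rw [hS]; positivity
    rw [← hS]
    rcases hS0.eq_or_lt with hS1 | hS1
    · rw [← hS1]; positivity
    obtain ⟨L, hLdef⟩ : ∃ L : ℕ, L = 2 * n * M₀ + n + 1 := ⟨_, rfl⟩
    have hL : 1 ≤ L := by omega
    have hn : n ≤ L := by rw [hLdef]; nlinarith
    obtain ⟨τ, hτm, hτ⟩ := hTAU L hL
    have hτ' : ProdF τ := hτ
    have hb : ∀ m, Q (Fin n) (fun j => T (tf 𝕜 τ hτm hn x j m)) ≤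
        ENNReal.ofReal (‖T‖ ^ 2 * S) := by
      intro m
      have h1 := htri (Fin n) (fun j => T (tf 𝕜 τ hτm hn x j m))
      refine h1.trans ?_
      apply ENNReal.ofReal_le_ofReal
      rw [hS, Finset.mul_sum]
      refine Finset.sum_le_sum fun j _ => ?_
      rw [← norm_tf 𝕜 hL τ hτm hτ' hn x j m, ← mul_pow]
      exact pow_le_pow_left₀ (norm_nonneg _) (T.le_opNorm _) 2
    have hJL : ∀ J : Finset ℕ, J.card = L →
        Q (Fin n × J) (fun a => T (tf 𝕜 τ hτm hn x a.1 a.2)) ≤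
          ENNReal.ofReal (‖T‖ ^ 2 * G * rad x) * L := by
      intro J hJ
      have h1 := hlo (Fin n × J) (fun a => T (tf 𝕜 τ hτm hn x a.1 a.2))
      have h2 := (hR2 (Fin n × J) (fun a => tf 𝕜 τ hτm hn x a.1 a.2)).2
      have h3 := hupp T1 c hc hT1 L hL τ hτm hτ' n hn x J hJ
      have h4 : rad (fun a : Fin n × J => tf 𝕜 τ hτm hn x a.1 a.2) ≤ G * L * rad x := by
        have : c ^ 2 * rad (fun a : Fin n × J => tf 𝕜 τ hτm hn x a.1 a.2) ≤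
            c ^ 2 * (G * L * rad x) := by
          refine h3.trans (le_of_eq ?_)
          rw [hG]
          field_simp
        exact le_of_mul_le_mul_left this (by positivity)
      refine h1.trans ?_
      rw [← ENNReal.ofReal_natCast L, ← ENNReal.ofReal_mul (by positivity)]
      apply ENNReal.ofReal_le_ofReal
      calc _ ≤ _ := h2
        _ ≤ ‖T‖ ^ 2 * (G * L * rad x) := by gcongr
        _ = _ := by ring
    obtain ⟨J, hJc, hJ⟩ := hsel n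
      (fun j m => T (tf 𝕜 τ hτm hn x j m)) (ENNReal.ofReal (‖T‖ ^ 2 * S))
      (ENNReal.ofReal (‖T‖ ^ 2 * G * rad x)) L
      ENNReal.ofReal_ne_top ENNReal.ofReal_ne_top hL hb hJL M₀
      (ENNReal.ofReal (c ^ 2 * S / (8 * C.toReal))) (by
        have : 0 < c ^ 2 * S / (8 * C.toReal) := by positivity
        simpa using this)
    -- lower estimate
    have hlow := low 𝕜 τ hτm hn x hRAD hτ' J hL (by rw [hJc, hLdef]; nlinarith)
    have h1 := (hR2 (Fin n × J) (fun a => tf 𝕜 τ hτm hn x a.1 a.2)).1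
    have h2 := hup (Fin n × J) (fun a => T (tf 𝕜 τ hτm hn x a.1 a.2))
    have h4 := toReal_bd hC hA (by positivity) (rad_nonneg _) (by positivity) (by positivity)
      (by positivity) h2 hJ
    refine arith hc hS0 hC0 hM0 hM (by positivity) (le_trans ?_ (h1.trans h4))
    rw [hJc, ← hS] at hlow
    gcongr
  refine ⟨max (C.toReal * ‖T1‖ ^ 2 / c ^ 2)
    (4 * C.toReal * (A.toReal + 2) * ‖T‖ ^ 2 * G / c ^ 2),
    le_max_of_le_left (by positivity), ?_, ?_⟩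
  · intro n x
    refine (htype n x).trans ?_
    gcongr
    exact le_max_left _ _
  · intro n x
    refine (hcotype n x).trans ?_
    have := rad_nonneg x
    gcongr
    exact le_max_right _ _

end DLP
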