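import Pool.Agent.DLP.COB

/-!
# Rademacher type 2 and cotype 2
-/

open MeasureTheory Filter
open scoped ENNReal Topology unitInterval

namespace DLP

universe u v w

theorem cot (hKEY : Stmt_KEY.{w}) (hTAU : Stmt_TAU) (hLAT : Stmt_LAT.{w})
    (hRAD : Stmt_RAD.{u, v, max v w}) (hRAD' : Stmt_RAD.{u, v, w}) (𝕜 : Type v) [RCLike 𝕜] {X : Type u}
    [NormedAddCommGroup X] [NormedSpace 𝕜 X] {ι : Type} [Countable ι] {Ω : ι → Type w}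
    [∀ i, MeasurableSpace (Ω i)] {p : ι → ℝ≥0∞} {μ : ∀ i, Measure (Ω i)}
    [∀ i, Fact (1 ≤ p i)] {C : ℝ≥0∞} {p₀ P : ℝ} (hp₀ : 2 < p₀) (hP : p₀ ≤ P)
    (hp2 : ∀ i, ENNReal.ofReal p₀ ≤ p i) (hpP : ∀ i, p i ≤ ENNReal.ofReal P)
    (hSq : SqData 𝕜 Ω p μ C) (hC1 : 1 ≤ C) (hC : C ≠ ∞)
    (T : DiestelL2.L2V X →L[𝕜] lp (fun i => Lp 𝕜 (p i) (μ i)) 2) (c : ℝ) (hc : 0 < c)
    (hT : ∀ f, c * ‖f‖ ≤ ‖T f‖) :
    ∃ K : ℝ, 0 ≤ K ∧ (∀ (n : ℕ) (x : Fin n → X), rad x ≤ K * ∑ j, ‖x j‖ ^ 2) ∧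
      (∀ (n : ℕ) (x : Fin n → X), ∑ j, ‖x j‖ ^ 2 ≤ K * rad x) := by
  have h2p : ∀ i, 2 ≤ p i := by
    intro i
    refine le_trans ?_ (hp2 i)
    rw [show (2 : ℝ≥0∞) = ENNReal.ofReal 2 by norm_num]
    exact ENNReal.ofReal_le_ofReal hp₀.le
  have hpr : ∀ i, p₀ ≤ (p i).toReal ∧ (p i).toReal ≤ P := by
    intro i
    have hpt : p i ≠ ∞ := ne_top_of_le_ne_top ENNReal.ofReal_ne_top (hpP i)
    refine ⟨?_, ENNReal.toReal_le_of_le_ofReal (by linarith) (hpP i)⟩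
    have := ENNReal.toReal_mono hpt (hp2 i)
    rwa [ENNReal.toReal_ofReal (by linarith)] at this
  obtain ⟨K, hK1, hK, hcnt⟩ := cnt_moment (P / 2) (by linarith)
  have hAt : (2 : ℝ≥0∞) ^ (P / 2 - 1) ≠ ∞ :=
    ENNReal.rpow_ne_top_of_nonneg (by linarith) (by simp)
  have hR1 := hRAD.1 𝕜 X (lp (fun i => Lp 𝕜 (p i) (μ i)) 2)
  exact cot_abs (Z := lp (fun i => Lp 𝕜 (p i) (μ i)) 2) (Q := fun A _ x => qf x)
    (C := C) (A := 2 ^ (P / 2 - 1)) (s := p₀ / 2) hTAU hRAD 𝕜 hSq.lower hSq.upper hSq.tri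
    hC1 hC (by linarith) K hAt
    (fun T1 c hc hT1 L hL τ hτm hτ n hn x J hJ =>
      upp hRAD' 𝕜 hR1 h2p hpP hSq hC hK1 hK T1 c hc hT1 hL τ hτm
        (fun J hJ i q h1 h2 => hcnt L hL τ hτ J hJ i q h1 h2) hn x J hJ)
    (fun n w b c L hb hc hL hw hJL M₀ δ hδ =>
      sel 𝕜 hKEY hLAT hp₀ hpr (by linarith) w b c L hb hc hL hw hJL M₀ δ hδ)
    T c hc hT

end DLP
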