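import Pool.Agent.DLP.Defs
import Pool.Agent.DiestelL2.Hil

/-!
# Module DHI: if the dual is Hilbertian, so is the space
-/

open MeasureTheory ProbabilityTheory
open scoped ENNReal unitInterval InnerProductSpace

namespace DLP

universe u v

theorem dhi : Stmt_DHI.{u, v} := by
  intro 𝕜 _ X _ _ _ hX
  obtain ⟨H, _, _, _, ⟨T⟩⟩ := hX
  set S : X → StrongDual 𝕜 H := fun x =>
    (NormedSpace.inclusionInDoubleDual 𝕜 X x).comp (T.symm : H →L[𝕜] StrongDual 𝕜 X) with hS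
  set D := InnerProductSpace.toDual 𝕜 H with hD
  set j : X → H := fun x => D.symm (S x) with hj
  have hSadd : ∀ x y, S (x + y) = S x + S y := by
    intro x y
    simp only [hS, map_add, ContinuousLinearMap.add_comp]
  have hSsmul : ∀ (c : 𝕜) x, S (c • x) = c • S x := by
    intro c x
    simp only [hS, map_smul, ContinuousLinearMap.smul_comp]
  have hjadd : ∀ x y, j (x + y) = j x + j y := by
    intro x y
    simp only [hj, hSadd, map_add]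
  have hjsmul : ∀ (c : ℝ) x, j ((c : 𝕜) • x) = (c : 𝕜) • j x := by
    intro c x
    simp only [hj, hSsmul]
    rw [LinearIsometryEquiv.map_smulₛₗ]
    simp
  have hjn : ∀ x, ‖j x‖ = ‖S x‖ := fun x => LinearIsometryEquiv.norm_map _ _
  have hup : ∀ x, ‖S x‖ ≤ ‖(T.symm : H →L[𝕜] StrongDual 𝕜 X)‖ * ‖x‖ := by
    intro x
    have h1 : ‖NormedSpace.inclusionInDoubleDual 𝕜 X x‖ = ‖x‖ :=
      (NormedSpace.inclusionInDoubleDualLi 𝕜).norm_map x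
    calc ‖S x‖ ≤ ‖NormedSpace.inclusionInDoubleDual 𝕜 X x‖ *
          ‖(T.symm : H →L[𝕜] StrongDual 𝕜 X)‖ := ContinuousLinearMap.opNorm_comp_le _ _
      _ = _ := by rw [h1, mul_comm]
  have hlow : ∀ x, ‖x‖ ≤ ‖(T : StrongDual 𝕜 X →L[𝕜] H)‖ * ‖S x‖ := by
    intro x
    have h1 : ‖NormedSpace.inclusionInDoubleDual 𝕜 X x‖ = ‖x‖ :=
      (NormedSpace.inclusionInDoubleDualLi 𝕜).norm_map x
    have h2 : NormedSpace.inclusionInDoubleDual 𝕜 X x =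
        (S x).comp (T : StrongDual 𝕜 X →L[𝕜] H) := by
      ext φ
      simp [hS]
    calc ‖x‖ = ‖(S x).comp (T : StrongDual 𝕜 X →L[𝕜] H)‖ := by rw [← h2, h1]
      _ ≤ ‖S x‖ * ‖(T : StrongDual 𝕜 X →L[𝕜] H)‖ := ContinuousLinearMap.opNorm_comp_le _ _
      _ = _ := mul_comm _ _
  set a : ℝ := ‖(T : StrongDual 𝕜 X →L[𝕜] H)‖ ^ 2 with ha
  have hself : ∀ x, a * RCLike.re ⟪j x, j x⟫_𝕜 = a * ‖S x‖ ^ 2 := by
    intro x
    rw [inner_self_eq_norm_sq, hjn]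
  refine DiestelL2.hil 𝕜 X (fun x y => a * RCLike.re ⟪j x, j y⟫_𝕜)
    (a * ‖(T.symm : H →L[𝕜] StrongDual 𝕜 X)‖ ^ 2) ?_ ?_ ?_ ?_ ?_
  · intro x y z
    rw [hjadd, inner_add_left, map_add, mul_add]
  · intro c x y
    rw [hjsmul, inner_smul_left, RCLike.conj_ofReal, RCLike.re_ofReal_mul]
    ring
  · intro x y
    rw [← inner_conj_symm, RCLike.conj_re]
  · intro x
    have h1 := hlow x
    have h2 : ‖x‖ ^ 2 ≤ (‖(T : StrongDual 𝕜 X →L[𝕜] H)‖ * ‖S x‖) ^ 2 :=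
      pow_le_pow_left₀ (norm_nonneg _) h1 2
    show ‖x‖ ^ 2 ≤ a * RCLike.re ⟪j x, j x⟫_𝕜
    rw [hself x, ha, ← mul_pow]
    exact h2
  · intro x
    have h1 := hup x
    have h2 : ‖S x‖ ^ 2 ≤ (‖(T.symm : H →L[𝕜] StrongDual 𝕜 X)‖ * ‖x‖) ^ 2 :=
      pow_le_pow_left₀ (norm_nonneg _) h1 2
    show a * RCLike.re ⟪j x, j x⟫_𝕜 ≤ _
    have h3 : a * ‖S x‖ ^ 2 ≤ a * (‖(T.symm : H →L[𝕜] StrongDual 𝕜 X)‖ * ‖x‖) ^ 2 :=
      mul_le_mul_of_nonneg_left h2 (sq_nonneg _)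
    rw [hself x]
    refine h3.trans (le_of_eq ?_)
    ring

end DLP
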