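import Pool.Agent.DLP.Defs
import Pool.Agent.DiestelL2.GL
import Pool.Agent.DiestelL2.Double

/-!
# Module DUA
-/

open MeasureTheory
open scoped ENNReal unitInterval

namespace DLP

universe u v w

namespace Dua

/-- near-norming vector -/
theorem exists_vec {𝕜 : Type*} [RCLike 𝕜] {X : Type*} [NormedAddCommGroup X] [NormedSpace 𝕜 X]
    (φ : StrongDual 𝕜 X) :
    ∃ x : X, ‖x‖ ≤ ‖φ‖ ∧ ∃ r : ℝ, ‖φ‖ ^ 2 / 2 ≤ r ∧ φ x = (r : 𝕜) := by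
  by_cases h0 : φ = 0
  · exact ⟨0, by simp, 0, by simp [h0], by simp⟩
  have hpos : 0 < ‖φ‖ := norm_pos_iff.2 h0
  obtain ⟨y, hy1, hy2⟩ := ContinuousLinearMap.exists_lt_apply_of_lt_opNorm φ
    (show ‖φ‖ / 2 < ‖φ‖ by linarith)
  have hne : 0 < ‖φ y‖ := lt_of_le_of_lt (by positivity) hy2
  have hne' : ((‖φ y‖ : ℝ) : 𝕜) ≠ 0 := by
    exact_mod_cast hne.ne'
  refine ⟨((‖φ‖ : ℝ) : 𝕜) • ((starRingEnd 𝕜 (φ y)) / ((‖φ y‖ : ℝ) : 𝕜)) • y, ?_,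
    ‖φ‖ * ‖φ y‖, by nlinarith, ?_⟩
  · rw [norm_smul, norm_smul, norm_div, RCLike.norm_conj, RCLike.norm_ofReal, RCLike.norm_ofReal,
      abs_of_pos hpos, abs_of_pos hne, div_self hne.ne', one_mul]
    nlinarith
  · rw [map_smul, map_smul, smul_eq_mul, smul_eq_mul, div_mul_eq_mul_div, mul_comm _ (φ y),
      RCLike.mul_conj]
    push_cast
    field_simp

/-- the vector `h φ` -/
noncomputable def hv {𝕜 : Type*} [RCLike 𝕜] {X : Type*} [NormedAddCommGroup X] [NormedSpace 𝕜 X]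
    (φ : StrongDual 𝕜 X) : X := (exists_vec φ).choose

/-- the value -/
noncomputable def hr {𝕜 : Type*} [RCLike 𝕜] {X : Type*} [NormedAddCommGroup X] [NormedSpace 𝕜 X]
    (φ : StrongDual 𝕜 X) : ℝ := (exists_vec φ).choose_spec.2.choose

theorem norm_hv {𝕜 : Type*} [RCLike 𝕜] {X : Type*} [NormedAddCommGroup X] [NormedSpace 𝕜 X]
    (φ : StrongDual 𝕜 X) : ‖hv φ‖ ≤ ‖φ‖ := (exists_vec φ).choose_spec.1

theorem le_hr {𝕜 : Type*} [RCLike 𝕜] {X : Type*} [NormedAddCommGroup X] [NormedSpace 𝕜 X]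
    (φ : StrongDual 𝕜 X) : ‖φ‖ ^ 2 / 2 ≤ hr φ := (exists_vec φ).choose_spec.2.choose_spec.1

theorem apply_hv {𝕜 : Type*} [RCLike 𝕜] {X : Type*} [NormedAddCommGroup X] [NormedSpace 𝕜 X]
    (φ : StrongDual 𝕜 X) : φ (hv φ) = (hr φ : 𝕜) := (exists_vec φ).choose_spec.2.choose_spec.2

section Lam

variable {𝕜 : Type*} [RCLike 𝕜] {X : Type*} [NormedAddCommGroup X] [NormedSpace 𝕜 X]

/-- the embedding `L²(X*) → L²(X)*` -/
noncomputable def Lam : DiestelL2.L2V (StrongDual 𝕜 X) →L[𝕜] StrongDual 𝕜 (DiestelL2.L2V X) :=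
  ContinuousLinearMap.lpPairing (volume : Measure I) 2 2 (ContinuousLinearMap.id 𝕜 (StrongDual 𝕜 X))

theorem Lam_apply (f : DiestelL2.L2V (StrongDual 𝕜 X)) (g : DiestelL2.L2V X) :
    Lam f g = ∫ ω, (f ω) (g ω) :=
  ContinuousLinearMap.lpPairing_eq_integral _ f g

theorem Lam_simple (s : Lp.simpleFunc (StrongDual 𝕜 X) 2 (volume : Measure I)) :
    (1 / 2) * ‖(s : DiestelL2.L2V (StrongDual 𝕜 X))‖ ≤
      ‖Lam (s : DiestelL2.L2V (StrongDual 𝕜 X))‖ := by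
  set ss := Lp.simpleFunc.toSimpleFunc s with hsg
  have hs : (ss : I → StrongDual 𝕜 X) =ᵐ[volume] (s : DiestelL2.L2V (StrongDual 𝕜 X)) :=
    Lp.simpleFunc.toSimpleFunc_eq_toFun s
  have hm : MemLp (ss.map hv) 2 (volume : Measure I) :=
    SimpleFunc.memLp_of_isFiniteMeasure _ _ _
  set g : DiestelL2.L2V X := hm.toLp _ with hg
  have hgae : (g : I → X) =ᵐ[volume] ss.map hv := MemLp.coeFn_toLp _
  have hfn : ‖(s : DiestelL2.L2V (StrongDual 𝕜 X))‖ ^ 2 = ∫ ω, ‖ss ω‖ ^ 2 := by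
    rw [DiestelL2.norm_sq_Lp]
    refine integral_congr_ae ?_
    filter_upwards [hs] with ω h1
    rw [h1]
  have hgn : ‖g‖ ^ 2 = ∫ ω, ‖hv (ss ω)‖ ^ 2 := by
    rw [DiestelL2.norm_sq_Lp]
    refine integral_congr_ae ?_
    filter_upwards [hgae] with ω h1
    rw [h1, SimpleFunc.map_apply]
  have i1 : Integrable (fun ω => ‖ss ω‖ ^ 2) (volume : Measure I) := by
    have := SimpleFunc.integrable_of_isFiniteMeasure (μ := (volume : Measure I))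
      (ss.map (fun φ => ‖φ‖ ^ 2))
    exact this
  have i2 : Integrable (fun ω => ‖hv (ss ω)‖ ^ 2) (volume : Measure I) := by
    have := SimpleFunc.integrable_of_isFiniteMeasure (μ := (volume : Measure I))
      (ss.map (fun φ => ‖hv φ‖ ^ 2))
    exact this
  have i3 : Integrable (fun ω => hr (ss ω)) (volume : Measure I) := by
    have := SimpleFunc.integrable_of_isFiniteMeasure (μ := (volume : Measure I))
      (ss.map (fun φ => hr φ))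
    exact this
  have hgf : ‖g‖ ≤ ‖(s : DiestelL2.L2V (StrongDual 𝕜 X))‖ := by
    refine (sq_le_sq₀ (norm_nonneg _) (norm_nonneg _)).1 ?_
    rw [hfn, hgn]
    refine integral_mono i2 i1 fun ω => ?_
    have := norm_hv (ss ω)
    exact pow_le_pow_left₀ (norm_nonneg _) this 2
  have hval : Lam (s : DiestelL2.L2V (StrongDual 𝕜 X)) g = ((∫ ω, hr (ss ω) : ℝ) : 𝕜) := by
    rw [Lam_apply, ← integral_ofReal]
    refine integral_congr_ae ?_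
    filter_upwards [hs, hgae] with ω h1 h2
    rw [← h1, h2, SimpleFunc.map_apply, apply_hv]
  have hlow : ‖(s : DiestelL2.L2V (StrongDual 𝕜 X))‖ ^ 2 / 2 ≤ ∫ ω, hr (ss ω) := by
    rw [hfn, ← integral_div]
    exact integral_mono (i1.div_const 2) i3 fun ω => le_hr (ss ω)
  have h1 := (Lam (s : DiestelL2.L2V (StrongDual 𝕜 X))).le_opNorm g
  rw [hval, RCLike.norm_ofReal] at h1
  have h2 := le_abs_self (∫ ω, hr (ss ω))
  by_cases hz : ‖(s : DiestelL2.L2V (StrongDual 𝕜 X))‖ = 0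
  · rw [hz]
    simp
  · have hp : 0 < ‖(s : DiestelL2.L2V (StrongDual 𝕜 X))‖ :=
      lt_of_le_of_ne (norm_nonneg _) (Ne.symm hz)
    have h3 : ‖Lam (s : DiestelL2.L2V (StrongDual 𝕜 X))‖ * ‖g‖ ≤
        ‖Lam (s : DiestelL2.L2V (StrongDual 𝕜 X))‖ * ‖(s : DiestelL2.L2V (StrongDual 𝕜 X))‖ :=
      mul_le_mul_of_nonneg_left hgf (norm_nonneg _)
    nlinarith

theorem Lam_lower (f : DiestelL2.L2V (StrongDual 𝕜 X)) : (1 / 2) * ‖f‖ ≤ ‖Lam f‖ := by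
  refine (Lp.simpleFunc.denseRange (E := StrongDual 𝕜 X) (μ := (volume : Measure I))
    (p := 2) (by simp)).induction_on f ?_ ?_
  · exact isClosed_le (continuous_const.mul continuous_norm) (Lam.continuous.norm)
  · exact Lam_simple

end Lam

section Pre

variable {𝕜 : Type*} [RCLike 𝕜] {E F : Type*} [NormedAddCommGroup E] [NormedSpace 𝕜 E]
  [NormedAddCommGroup F] [NormedSpace 𝕜 F]

/-- precomposition -/
noncomputable def Pre (S : E ≃L[𝕜] F) : StrongDual 𝕜 F →L[𝕜] StrongDual 𝕜 E :=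
  (ContinuousLinearMap.compL 𝕜 E F 𝕜).flip (S : E →L[𝕜] F)

theorem Pre_apply (S : E ≃L[𝕜] F) (ψ : StrongDual 𝕜 F) : Pre S ψ = ψ.comp (S : E →L[𝕜] F) := rfl

theorem Pre_lower (S : E ≃L[𝕜] F) (ψ : StrongDual 𝕜 F) :
    (1 / (‖(S.symm : F →L[𝕜] E)‖ + 1)) * ‖ψ‖ ≤ ‖Pre S ψ‖ := by
  have h0 : 0 < ‖(S.symm : F →L[𝕜] E)‖ + 1 := by positivity
  have h1 : ψ = (Pre S ψ).comp (S.symm : F →L[𝕜] E) := by
    ext x
    simp [Pre_apply]
  have h2 : ‖ψ‖ ≤ ‖Pre S ψ‖ * ‖(S.symm : F →L[𝕜] E)‖ := by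
    conv_lhs => rw [h1]
    exact ContinuousLinearMap.opNorm_comp_le _ _
  rw [one_div, inv_mul_le_iff₀ h0]
  nlinarith [norm_nonneg (Pre S ψ)]

end Pre

section Theta

variable {𝕜 : Type*} [RCLike 𝕜] {X : Type*} [NormedAddCommGroup X] [NormedSpace 𝕜 X]
  {Z : Type*} [NormedAddCommGroup Z] [NormedSpace 𝕜 Z]

/-- the `n`-th component of a functional on `ℓ²(X)` -/
noncomputable def cmp (ψ : StrongDual 𝕜 (DiestelL2.ell2V X)) (n : ℕ) : StrongDual 𝕜 X :=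
  ψ.comp (lp.singleContinuousLinearMap 𝕜 (fun _ : ℕ => X) 2 n)

theorem cmp_apply (ψ : StrongDual 𝕜 (DiestelL2.ell2V X)) (n : ℕ) (x : X) :
    cmp ψ n x = ψ (lp.single 2 n x) := rfl

theorem sum_cmp_le (ψ : StrongDual 𝕜 (DiestelL2.ell2V X)) (s : Finset ℕ) :
    ∑ n ∈ s, ‖cmp ψ n‖ ^ 2 ≤ 4 * ‖ψ‖ ^ 2 := by
  set A := ∑ n ∈ s, ‖cmp ψ n‖ ^ 2 with hA
  have hA0 : 0 ≤ A := Finset.sum_nonneg fun n _ => by positivity
  set x : DiestelL2.ell2V X := ∑ n ∈ s, lp.single 2 n (hv (cmp ψ n)) with hx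
  have hxn : ‖x‖ ^ 2 ≤ A := by
    have h1 := lp.norm_sum_single (p := 2) (E := fun _ : ℕ => X) (by norm_num)
      (fun n => hv (cmp ψ n)) s
    have h8 : (2 : ℝ≥0∞).toReal = ((2 : ℕ) : ℝ) := by simp
    simp only [h8, Real.rpow_natCast] at h1
    rw [hx, h1]
    exact Finset.sum_le_sum fun n _ => pow_le_pow_left₀ (norm_nonneg _) (norm_hv _) 2
  have hval : ψ x = ((∑ n ∈ s, hr (cmp ψ n) : ℝ) : 𝕜) := by
    rw [hx, map_sum]
    push_cast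
    refine Finset.sum_congr rfl fun n _ => ?_
    rw [← cmp_apply, apply_hv]
  have hlow : A / 2 ≤ ∑ n ∈ s, hr (cmp ψ n) := by
    rw [hA, Finset.sum_div]
    exact Finset.sum_le_sum fun n _ => le_hr _
  have h1 := ψ.le_opNorm x
  rw [hval, RCLike.norm_ofReal] at h1
  have h2 := le_abs_self (∑ n ∈ s, hr (cmp ψ n))
  have h3 : A / 2 ≤ ‖ψ‖ * ‖x‖ := by linarith
  have h4 : (A / 2) ^ 2 ≤ (‖ψ‖ * ‖x‖) ^ 2 := pow_le_pow_left₀ (by positivity) h3 2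
  have h5 : (‖ψ‖ * ‖x‖) ^ 2 ≤ ‖ψ‖ ^ 2 * A := by
    rw [mul_pow]
    exact mul_le_mul_of_nonneg_left hxn (by positivity)
  by_contra hcon
  push Not at hcon
  have h6 : 0 < A := lt_of_le_of_lt (by positivity) hcon
  nlinarith

theorem memTh (T : StrongDual 𝕜 X →L[𝕜] Z) (ψ : StrongDual 𝕜 (DiestelL2.ell2V X)) :
    Memℓp (fun n : ℕ => T (cmp ψ n)) 2 ∧
      ∑' n, ‖T (cmp ψ n)‖ ^ 2 ≤ (2 * ‖T‖ * ‖ψ‖) ^ 2 := by
  have hb : ∀ s : Finset ℕ, ∑ n ∈ s, ‖T (cmp ψ n)‖ ^ 2 ≤ (2 * ‖T‖ * ‖ψ‖) ^ 2 := by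
    intro s
    calc ∑ n ∈ s, ‖T (cmp ψ n)‖ ^ 2 ≤ ∑ n ∈ s, ‖T‖ ^ 2 * ‖cmp ψ n‖ ^ 2 := by
          refine Finset.sum_le_sum fun n _ => ?_
          rw [← mul_pow]
          exact pow_le_pow_left₀ (norm_nonneg _) (T.le_opNorm _) 2
      _ = ‖T‖ ^ 2 * ∑ n ∈ s, ‖cmp ψ n‖ ^ 2 := by rw [Finset.mul_sum]
      _ ≤ ‖T‖ ^ 2 * (4 * ‖ψ‖ ^ 2) := mul_le_mul_of_nonneg_left (sum_cmp_le ψ s) (by positivity)
      _ = (2 * ‖T‖ * ‖ψ‖) ^ 2 := by ring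
  have hs : Summable fun n => ‖T (cmp ψ n)‖ ^ 2 :=
    summable_of_sum_le (fun n => by positivity) hb
  exact ⟨DiestelL2.Dbl.memℓp_two_iff.2 hs, hs.tsum_le_of_sum_le hb⟩

/-- the map `Θ` (linear) -/
noncomputable def Th0 (T : StrongDual 𝕜 X →L[𝕜] Z) :
    StrongDual 𝕜 (DiestelL2.ell2V X) →ₗ[𝕜] DiestelL2.ell2V Z where
  toFun ψ := ⟨fun n => T (cmp ψ n), (memTh T ψ).1⟩
  map_add' ψ χ := by
    apply lp.ext
    funext n
    show T (cmp (ψ + χ) n) = T (cmp ψ n) + T (cmp χ n)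
    rw [← map_add]
    rfl
  map_smul' a ψ := by
    apply lp.ext
    funext n
    show T (cmp (a • ψ) n) = a • T (cmp ψ n)
    rw [← map_smul]
    rfl

theorem Th0_norm (T : StrongDual 𝕜 X →L[𝕜] Z) (ψ : StrongDual 𝕜 (DiestelL2.ell2V X)) :
    ‖Th0 T ψ‖ ^ 2 = ∑' n, ‖T (cmp ψ n)‖ ^ 2 := DiestelL2.Dbl.norm_sq _

/-- the map `Θ` -/
noncomputable def Th (T : StrongDual 𝕜 X →L[𝕜] Z) :
    StrongDual 𝕜 (DiestelL2.ell2V X) →L[𝕜] DiestelL2.ell2V Z :=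
  (Th0 T).mkContinuous (2 * ‖T‖) (fun ψ => by
    refine (sq_le_sq₀ (norm_nonneg _) (by positivity)).1 ?_
    rw [Th0_norm]
    exact (memTh T ψ).2)

theorem Th_lower (T : StrongDual 𝕜 X →L[𝕜] Z) (c : ℝ) (hc : 0 < c)
    (hT : ∀ φ, c * ‖φ‖ ≤ ‖T φ‖) (ψ : StrongDual 𝕜 (DiestelL2.ell2V X)) :
    c * ‖ψ‖ ≤ ‖Th T ψ‖ := by
  have hsum : ∀ s : Finset ℕ, ∑ n ∈ s, ‖cmp ψ n‖ ^ 2 ≤ (‖Th T ψ‖ / c) ^ 2 := by
    intro s
    have h1 : ∑ n ∈ s, (c * ‖cmp ψ n‖) ^ 2 ≤ ‖Th T ψ‖ ^ 2 := by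
      calc ∑ n ∈ s, (c * ‖cmp ψ n‖) ^ 2 ≤ ∑ n ∈ s, ‖T (cmp ψ n)‖ ^ 2 :=
            Finset.sum_le_sum fun n _ => pow_le_pow_left₀ (by positivity) (hT _) 2
        _ ≤ ∑' n, ‖T (cmp ψ n)‖ ^ 2 :=
            (DiestelL2.Dbl.memℓp_two_iff.1 (memTh T ψ).1).sum_le_tsum _ (fun n _ => by positivity)
        _ = ‖Th T ψ‖ ^ 2 := (Th0_norm T ψ).symm
    have h2 : ∑ n ∈ s, (c * ‖cmp ψ n‖) ^ 2 = c ^ 2 * ∑ n ∈ s, ‖cmp ψ n‖ ^ 2 := by
      rw [Finset.mul_sum]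
      exact Finset.sum_congr rfl fun n _ => by ring
    rw [h2] at h1
    rw [div_pow, le_div_iff₀ (by positivity)]
    linarith
  have hmain : ‖ψ‖ ≤ ‖Th T ψ‖ / c := by
    refine ψ.opNorm_le_bound (by positivity) fun x => ?_
    have hx := (lp.hasSum_single (p := 2) (by simp) x)
    have hψ : HasSum (fun n => ψ (lp.single 2 n (x n))) (ψ x) := hx.mapL ψ
    have hlim : Filter.Tendsto (fun s : Finset ℕ => ‖∑ n ∈ s, ψ (lp.single 2 n (x n))‖)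
      Filter.atTop (nhds ‖ψ x‖) := (continuous_norm.tendsto _).comp hψ
    refine le_of_tendsto' hlim fun s => ?_
    have hxs : ∑ n ∈ s, ‖x n‖ ^ 2 ≤ ‖x‖ ^ 2 := by
      rw [DiestelL2.Dbl.norm_sq]
      exact (DiestelL2.Dbl.memℓp_two_iff.1 x.2).sum_le_tsum _ (fun n _ => by positivity)
    calc ‖∑ n ∈ s, ψ (lp.single 2 n (x n))‖ ≤ ∑ n ∈ s, ‖cmp ψ n‖ * ‖x n‖ :=
          norm_sum_le_of_le _ fun n _ => (cmp ψ n).le_opNorm (x n)
      _ ≤ ‖Th T ψ‖ / c * ‖x‖ := by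
          refine (sq_le_sq₀ (Finset.sum_nonneg fun n _ => by positivity) (by positivity)).1 ?_
          refine (Finset.sum_mul_sq_le_sq_mul_sq s _ _).trans ?_
          rw [mul_pow]
          exact mul_le_mul (hsum s) hxs (Finset.sum_nonneg fun n _ => by positivity) (by positivity)
  rw [le_div_iff₀ hc] at hmain
  linarith

end Theta

end Dua

theorem dua : Stmt_DUA.{u, v, w} := by
  intro 𝕜 _ X _ _ _ Z _ _ S T c hc hT
  have h0 : 0 < ‖(S.symm : DiestelL2.L2V X →L[𝕜] DiestelL2.ell2V X)‖ + 1 := by positivity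
  refine ⟨(Dua.Th T) ∘L (Dua.Pre S) ∘L Dua.Lam,
    c * ((1 / (‖(S.symm : DiestelL2.L2V X →L[𝕜] DiestelL2.ell2V X)‖ + 1)) * (1 / 2)),
    by positivity, fun f => ?_⟩
  have h1 := Dua.Lam_lower (𝕜 := 𝕜) (X := X) f
  have h2 := Dua.Pre_lower S (Dua.Lam f)
  have h3 := Dua.Th_lower T c hc hT (Dua.Pre S (Dua.Lam f))
  refine le_trans ?_ h3
  rw [mul_assoc, mul_assoc]
  refine mul_le_mul_of_nonneg_left (le_trans ?_ h2) hc.le
  exact mul_le_mul_of_nonneg_left h1 (by positivity)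

end DLP
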