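import Pool.Agent.DiestelL2.Defs

/-!
# `ℓ²(X)` versus `L²([0,1],X)` for subspaces of `ℓ²`-sums of `L_p`-spaces: definitions

`MP_19fa38_an`, second result.  Real or complex scalars `𝕜`.
-/

open MeasureTheory ProbabilityTheory
open scoped ENNReal unitInterval

namespace DLP

universe u v w

/-- `± x` -/
def sgn {E : Type*} [Neg E] (b : Bool) (x : E) : E := if b then x else -x

/-- signed sum -/
def rsum {A E : Type*} [Fintype A] [AddCommGroup E] (x : A → E) (ε : A → Bool) : E :=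
  ∑ a, sgn (ε a) (x a)

/-- Rademacher average `E_ε ‖∑ ε_a x_a‖²` -/
noncomputable def rad {A E : Type*} [Fintype A] [DecidableEq A] [NormedAddCommGroup E]
    (x : A → E) : ℝ :=
  (∑ ε : A → Bool, ‖rsum x ε‖ ^ 2) / 2 ^ (Fintype.card A)

/-- `L_q` norm of a nonnegative function -/
noncomputable def rho {Ω : Type*} [MeasurableSpace Ω] (q : ℝ) (μ : Measure Ω)
    (u : Ω → ℝ≥0∞) : ℝ≥0∞ :=
  (∫⁻ t, u t ^ q ∂μ) ^ (1 / q)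

/-- the norming functional of `a`, evaluated at `u` -/
noncomputable def nf {Ω : Type*} [MeasurableSpace Ω] (q : ℝ) (μ : Measure Ω)
    (a u : Ω → ℝ≥0∞) : ℝ≥0∞ :=
  open Classical in
  if rho q μ a = 0 ∨ rho q μ a = ∞ then 0
  else rho q μ a ^ (1 - q) * ∫⁻ t, a t ^ (q - 1) * u t ∂μ

/-- sum of squares -/
noncomputable def sqf {A : Type*} [Fintype A] {𝕜 : Type*} [RCLike 𝕜] {Ω : Type*}
    [MeasurableSpace Ω] {p : ℝ≥0∞} {μ : Measure Ω} (w : A → Lp 𝕜 p μ) : Ω → ℝ≥0∞ :=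
  fun t => ∑ a, ‖w a t‖ₑ ^ 2

/-- square function norm in an `ℓ²`-sum of `L_p`-spaces -/
noncomputable def qf {A : Type*} [Fintype A] {𝕜 : Type*} [RCLike 𝕜] {ι : Type*}
    {Ω : ι → Type*} [∀ i, MeasurableSpace (Ω i)] {p : ι → ℝ≥0∞} {μ : ∀ i, Measure (Ω i)}
    [∀ i, Fact (1 ≤ p i)] (w : A → lp (fun i => Lp 𝕜 (p i) (μ i)) 2) : ℝ≥0∞ :=
  ∑' i, rho ((p i).toReal / 2) (μ i) (sqf fun a => w a i)

/-! ## Module statements -/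

/-- (KHI) Khintchine's inequality, upper half, uniformly for `2 ≤ p ≤ P`. -/
def Stmt_KHI : Prop :=
  ∀ P : ℝ, 2 ≤ P → ∃ K : ℝ, 1 ≤ K ∧
    ∀ (𝕜 : Type v) [RCLike 𝕜] (p : ℝ), 2 ≤ p → p ≤ P →
      ∀ (A : Type) [Fintype A] [DecidableEq A] (x : A → 𝕜),
        (∑ ε : A → Bool, ‖rsum x ε‖ ^ p) / 2 ^ (Fintype.card A) ≤
          K * (∑ a, ‖x a‖ ^ 2) ^ (p / 2)

/-- (ORT) orthogonality of signs -/
def Stmt_ORT : Prop :=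
  ∀ (𝕜 : Type v) [RCLike 𝕜] (A : Type) [Fintype A] [DecidableEq A] (x : A → 𝕜),
    (∑ ε : A → Bool, ‖rsum x ε‖ ^ 2) / 2 ^ (Fintype.card A) = ∑ a, ‖x a‖ ^ 2

/-- (SQL) Rademacher averages and the square function in one `L_p`-space, `2 ≤ p ≤ P`. -/
def Stmt_SQL : Prop :=
  ∀ P : ℝ, 2 ≤ P → ∃ C : ℝ≥0∞, 1 ≤ C ∧ C ≠ ∞ ∧
    ∀ (𝕜 : Type v) [RCLike 𝕜] (Ω : Type w) [MeasurableSpace Ω] (μ : Measure Ω) (p : ℝ≥0∞)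
      [Fact (1 ≤ p)], 2 ≤ p → p ≤ ENNReal.ofReal P →
      ∀ (A : Type) [Fintype A] [DecidableEq A] (x : A → Lp 𝕜 p μ),
        rho (p.toReal / 2) μ (sqf x) ≤ ENNReal.ofReal (rad x) ∧
        ENNReal.ofReal (rad x) ≤ C * rho (p.toReal / 2) μ (sqf x)

/-- (SQZ) the same in an `ℓ²`-sum; also `Q ≤ ∑ ‖·‖²`. -/
def Stmt_SQZ : Prop :=
  ∀ P : ℝ, 2 ≤ P → ∃ C : ℝ≥0∞, 1 ≤ C ∧ C ≠ ∞ ∧
    ∀ (𝕜 : Type v) [RCLike 𝕜] (ι : Type) (Ω : ι → Type w) [∀ i, MeasurableSpace (Ω i)]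
      (p : ι → ℝ≥0∞) (μ : ∀ i, Measure (Ω i)) [∀ i, Fact (1 ≤ p i)],
      (∀ i, 2 ≤ p i) → (∀ i, p i ≤ ENNReal.ofReal P) →
      ∀ (A : Type) [Fintype A] [DecidableEq A] (x : A → lp (fun i => Lp 𝕜 (p i) (μ i)) 2),
        qf x ≤ ENNReal.ofReal (rad x) ∧ ENNReal.ofReal (rad x) ≤ C * qf x ∧
        qf x ≤ ENNReal.ofReal (∑ a, ‖x a‖ ^ 2)

/-- (LAT) lattice facts in `L_q(μ)`, `1 ≤ r ≤ q ≤ R`. -/
def Stmt_LAT : Prop :=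
  ∀ (Ω : Type w) [MeasurableSpace Ω] (μ : Measure Ω) (q : ℝ), 1 ≤ q →
    (rho q μ (fun _ => 0) = 0) ∧
    (∀ u v : Ω → ℝ≥0∞, rho q μ u ≤ rho q μ (u + v)) ∧
    (∀ u v : Ω → ℝ≥0∞, Measurable u → Measurable v →
      rho q μ (u + v) ≤ rho q μ u + rho q μ v) ∧
    (∀ a : Ω → ℝ≥0∞, nf q μ a (fun _ => 0) = 0) ∧
    (∀ a u v : Ω → ℝ≥0∞, Measurable a → Measurable u → Measurable v →
      nf q μ a (u + v) = nf q μ a u + nf q μ a v) ∧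
    (∀ a u : Ω → ℝ≥0∞, Measurable a → Measurable u → nf q μ a u ≤ rho q μ u) ∧
    (∀ r R : ℝ, 1 ≤ r → r ≤ q → q ≤ R → ∀ a u : Ω → ℝ≥0∞, Measurable a → Measurable u →
      rho q μ (a + u) ≤
        ((rho q μ a + 2 ^ (R - 1) * nf q μ a u) ^ r + (2 * rho q μ u) ^ r) ^ (1 / r))

/-- (KEY) the selection lemma, abstract form. -/
def Stmt_KEY : Prop :=
  ∀ (ι : Type) (F : ι → Type w) [∀ i, AddCommMonoid (F i)] (ρ : ∀ i, F i → ℝ≥0∞)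
    (N : ∀ i, F i → F i → ℝ≥0∞) (A B : ℝ≥0∞) (r : ℝ), A ≠ ∞ → B ≠ ∞ → 1 ≤ B → 1 ≤ r →
    (∀ i, ρ i 0 = 0) → (∀ i u v, ρ i u ≤ ρ i (u + v)) →
    (∀ i a, N i a 0 = 0) → (∀ i a u v, N i a (u + v) = N i a u + N i a v) →
    (∀ i a u, N i a u ≤ ρ i u) →
    (∀ i a u, ρ i (a + u) ≤ ((ρ i a + A * N i a u) ^ r + (B * ρ i u) ^ r) ^ (1 / r)) →
    ∀ (u : ℕ → ∀ i, F i) (b c : ℝ≥0∞) (M₁ : ℕ), b ≠ ∞ → c ≠ ∞ → 1 ≤ M₁ →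
      (∀ m, ∑' i, ρ i (u m i) ≤ b) →
      (∀ J : Finset ℕ, J.card = M₁ → ∑' i, ρ i (∑ m ∈ J, u m i) ≤ c * M₁) →
      ∀ (M₀ : ℕ) (δ : ℝ≥0∞), δ ≠ 0 →
        ∃ J : Finset ℕ, J.card = M₀ ∧
          ∑' i, ρ i (∑ m ∈ J, u m i) ≤
            (A + B) * c * M₀ + B * b * (M₀ : ℝ≥0∞) ^ (1 / r) + δ

/-- (TAU) independent uniform `Fin L`-valued variables on the unit interval. -/
def Stmt_TAU : Prop :=
  ∀ L : ℕ, 1 ≤ L → ∃ τ : ℕ → I → Fin L, (∀ m, Measurable (τ m)) ∧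
    ∀ (J : Finset ℕ) (g : ℕ → Fin L → ℝ≥0∞),
      ∫⁻ ω, ∏ m ∈ J, g m (τ m ω) = ∏ m ∈ J, ((∑ l, g m l) / L)

/-- (RGK) Rademacher type 2 and cotype 2 imply Hilbertian (Kwapień). -/
def Stmt_RGK : Prop :=
  ∀ (𝕜 : Type v) [RCLike 𝕜] (X : Type u) [NormedAddCommGroup X] [NormedSpace 𝕜 X]
    [CompleteSpace X] (K : ℝ), 0 ≤ K →
    (∀ (n : ℕ) (x : Fin n → X), rad x ≤ K * ∑ j, ‖x j‖ ^ 2) →
    (∀ (n : ℕ) (x : Fin n → X), ∑ j, ‖x j‖ ^ 2 ≤ K * rad x) →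
    DiestelL2.IsHilbertian 𝕜 X

/-- (RAD) Rademacher averages under operators, and in `L²([0,1],X)`. -/
def Stmt_RAD : Prop :=
  (∀ (𝕜 : Type v) [RCLike 𝕜] (E : Type u) (F : Type w) [NormedAddCommGroup E]
      [NormedSpace 𝕜 E] [NormedAddCommGroup F] [NormedSpace 𝕜 F] (T : E →L[𝕜] F) (c : ℝ),
      0 < c → (∀ x, c * ‖x‖ ≤ ‖T x‖) →
      ∀ (A : Type) [Fintype A] [DecidableEq A] (x : A → E),
        c ^ 2 * rad x ≤ rad (fun a => T (x a)) ∧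
        rad (fun a => T (x a)) ≤ ‖T‖ ^ 2 * rad x) ∧
  (∀ (X : Type u) [NormedAddCommGroup X] (A : Type) [Fintype A] [DecidableEq A]
      (f : A → DiestelL2.L2V X),
      ENNReal.ofReal (rad f) = ∫⁻ ω, ENNReal.ofReal (rad (fun a => f a ω))) ∧
  (∀ (X : Type u) [NormedAddCommGroup X] (A : Type) [Fintype A] [DecidableEq A]
      (x : A → X) (a : A), (∀ b, b ≠ a → x b = 0) → rad x = ‖x a‖ ^ 2)

/-- (DUA) if `ℓ²(X) ≅ L²([0,1],X)` and `X*` embeds in `Z`, then `L²([0,1],X*)` embeds in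
`ℓ²(Z)`. -/
def Stmt_DUA : Prop :=
  ∀ (𝕜 : Type v) [RCLike 𝕜] (X : Type u) [NormedAddCommGroup X] [NormedSpace 𝕜 X]
    [CompleteSpace X] (Z : Type w) [NormedAddCommGroup Z] [NormedSpace 𝕜 Z]
    (S : DiestelL2.ell2V X ≃L[𝕜] DiestelL2.L2V X)
    (T : StrongDual 𝕜 X →L[𝕜] Z) (c : ℝ), 0 < c → (∀ φ, c * ‖φ‖ ≤ ‖T φ‖) →
    ∃ (T' : DiestelL2.L2V (StrongDual 𝕜 X) →L[𝕜] DiestelL2.ell2V Z) (c' : ℝ), 0 < c' ∧
      ∀ f, c' * ‖f‖ ≤ ‖T' f‖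

/-- (DHI) if the dual is Hilbertian, so is the space. -/
def Stmt_DHI : Prop :=
  ∀ (𝕜 : Type v) [RCLike 𝕜] (X : Type u) [NormedAddCommGroup X] [NormedSpace 𝕜 X]
    [CompleteSpace X], DiestelL2.IsHilbertian 𝕜 (StrongDual 𝕜 X) → DiestelL2.IsHilbertian 𝕜 X

end DLP
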