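import Pool.Agent.DiestelL2.Double
import Pool.Agent.DLP.COT

/-!
# Embeddings of `ℓ²`-spaces
-/

open MeasureTheory Filter
open scoped ENNReal Topology unitInterval

namespace DLP

universe u v w

section
variable {𝕜 : Type v} [RCLike 𝕜] {X : Type u} {Y : Type w} [NormedAddCommGroup X]
  [NormedSpace 𝕜 X] [NormedAddCommGroup Y] [NormedSpace 𝕜 Y]

lemma memEm (L : X →L[𝕜] Y) (f : DiestelL2.ell2V X) :
    Memℓp (fun i => L (f i)) 2 ∧ ∑' i, ‖L (f i)‖ ^ 2 ≤ (‖L‖ * ‖f‖) ^ 2 := by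
  have hf := DiestelL2.Dbl.memℓp_two_iff.1 f.2
  have h1 : ∀ i, ‖L (f i)‖ ^ 2 ≤ ‖L‖ ^ 2 * ‖f i‖ ^ 2 := fun i => by
    rw [← mul_pow]
    exact pow_le_pow_left₀ (norm_nonneg _) (L.le_opNorm _) 2
  have hs : Summable fun i => ‖L (f i)‖ ^ 2 :=
    Summable.of_nonneg_of_le (fun i => by positivity) h1 (hf.mul_left _)
  refine ⟨DiestelL2.Dbl.memℓp_two_iff.2 hs, ?_⟩
  rw [mul_pow, DiestelL2.Dbl.norm_sq f, ← tsum_mul_left]
  exact hs.tsum_le_tsum h1 (hf.mul_left _)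

/-- the induced map (linear) -/
noncomputable def em0 (L : X →L[𝕜] Y) : DiestelL2.ell2V X →ₗ[𝕜] DiestelL2.ell2V Y where
  toFun f := ⟨fun i => L (f i), (memEm L f).1⟩
  map_add' f g := by
    apply lp.ext
    funext i
    exact L.map_add (f i) (g i)
  map_smul' a f := by
    apply lp.ext
    funext i
    exact L.map_smul a (f i)

lemma em0_norm (L : X →L[𝕜] Y) (f : DiestelL2.ell2V X) :
    ‖em0 L f‖ ^ 2 = ∑' i, ‖L (f i)‖ ^ 2 := DiestelL2.Dbl.norm_sq _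

/-- the induced map on `ℓ²` -/
noncomputable def em (L : X →L[𝕜] Y) : DiestelL2.ell2V X →L[𝕜] DiestelL2.ell2V Y :=
  (em0 L).mkContinuous ‖L‖ (fun f => by
    refine (sq_le_sq₀ (norm_nonneg _) (by positivity)).1 ?_
    rw [em0_norm]
    exact (memEm L f).2)

lemma em_lower (L : X →L[𝕜] Y) (c : ℝ) (hc : 0 ≤ c) (h : ∀ x, c * ‖x‖ ≤ ‖L x‖)
    (f : DiestelL2.ell2V X) : c * ‖f‖ ≤ ‖em L f‖ := by
  refine (sq_le_sq₀ (by positivity) (norm_nonneg _)).1 ?_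
  rw [show ‖em L f‖ ^ 2 = ∑' i, ‖L (f i)‖ ^ 2 from em0_norm L f, mul_pow,
    DiestelL2.Dbl.norm_sq f, ← tsum_mul_left]
  refine ((DiestelL2.Dbl.memℓp_two_iff.1 f.2).mul_left _).tsum_le_tsum (fun i => ?_)
    (DiestelL2.Dbl.memℓp_two_iff.1 (memEm L f).1)
  rw [← mul_pow]
  exact pow_le_pow_left₀ (by positivity) (h _) 2

end

/-- from a bounded below map into `ℓ²(Z)`, `Z` an `ℓ²`-sum, to one into a larger `ℓ²`-sum -/
lemma exists_dbl (𝕜 : Type v) [RCLike 𝕜] {E : Type u} [NormedAddCommGroup E] [NormedSpace 𝕜 E]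
    {ι : Type} {Z : ι → Type w} [∀ i, NormedAddCommGroup (Z i)] [∀ i, NormedSpace 𝕜 (Z i)]
    (T : E →L[𝕜] DiestelL2.ell2V (lp Z 2)) (c : ℝ) (hT : ∀ f, c * ‖f‖ ≤ ‖T f‖) :
    ∃ T' : E →L[𝕜] lp (fun k : ℕ × ι => Z k.2) 2, ∀ f, c * ‖f‖ ≤ ‖T' f‖ := by
  refine ⟨((DiestelL2.Dbl.A0 (𝕜 := 𝕜) (Z := Z)).mkContinuous 1
    (fun f => by rw [DiestelL2.Dbl.norm_A0, one_mul])) ∘L T, fun f => ?_⟩
  refine (hT f).trans (le_of_eq ?_)
  exact (DiestelL2.Dbl.norm_A0 (𝕜 := 𝕜) (T f)).symm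

end DLP
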