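import Pool.Agent.DLP.Defs

/-!
# The selection lemma (module `KEY`)
-/

open MeasureTheory Filter
open scoped ENNReal Topology

namespace DLP

universe w

namespace Key

lemma mink (x y z : ℝ≥0∞) {r : ℝ} (hr : 1 ≤ r) :
    ((x + y) ^ r + z ^ r) ^ (1 / r) ≤ x + (y ^ r + z ^ r) ^ (1 / r) := by
  have h0 : 0 < r := by linarith
  have h := ENNReal.Lp_add_le (Finset.univ : Finset (Fin 2)) ![x, 0] ![y, z] hr
  simp only [Fin.sum_univ_two, Matrix.cons_val_zero, Matrix.cons_val_one, zero_add] at h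
  refine h.trans (le_of_eq ?_)
  congr 1
  rw [ENNReal.zero_rpow_of_pos h0, add_zero, ← ENNReal.rpow_mul, mul_one_div_cancel h0.ne',
    ENNReal.rpow_one]

lemma rpow_sum_le {α : Type*} (s : Finset α) (f : α → ℝ≥0∞) {r : ℝ} (hr : 1 ≤ r) :
    (∑ a ∈ s, f a ^ r) ^ (1 / r) ≤ ∑ a ∈ s, f a := by
  classical
  have h0 : 0 < r := by linarith
  have key : ∑ a ∈ s, f a ^ r ≤ (∑ a ∈ s, f a) ^ r := by
    induction s using Finset.induction_on with
    | empty => simp
    | insert a s ha ih =>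
      rw [Finset.sum_insert ha, Finset.sum_insert ha]
      refine le_trans ?_ (ENNReal.add_rpow_le_rpow_add _ _ hr)
      gcongr
  calc (∑ a ∈ s, f a ^ r) ^ (1 / r) ≤ ((∑ a ∈ s, f a) ^ r) ^ (1 / r) := by
        apply ENNReal.rpow_le_rpow key; positivity
    _ = ∑ a ∈ s, f a := by
        rw [← ENNReal.rpow_mul, mul_one_div_cancel h0.ne', ENNReal.rpow_one]

lemma exists_eta (K δ : ℝ≥0∞) (hK : K ≠ ∞) (hδ : δ ≠ 0) :
    ∃ η : ℝ≥0∞, η ≠ 0 ∧ η ≠ ∞ ∧ K * η ≤ δ := by
  obtain ⟨n, hn, h⟩ := ENNReal.exists_nnreal_pos_mul_lt hK hδ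
  refine ⟨n, ?_, ENNReal.coe_ne_top, ?_⟩
  · exact_mod_cast hn.ne'
  · rw [mul_comm]; exact h.le

lemma exists_subset_of_lt {ι : Type*} (f : ι → ℝ≥0∞) (c : ℝ≥0∞) (h : c < ∑' i, f i) :
    ∃ t : Finset ι, c < ∑ i ∈ t, f i := by
  rw [ENNReal.tsum_eq_iSup_sum] at h
  exact lt_iSup_iff.1 h

end Key

open Key

theorem key : Stmt_KEY.{w} := by
  classical
  intro ι F _ ρ N A B r hA hB hB1 hr h0 hmono hN0 hNadd hNρ hstep u b c M₁ hb hc hM₁ hub hJ M₀ δ hδ
  have hr0 : 0 < r := by linarith
  -- limits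
  have hlim : ∀ i, ∃ β : ℝ≥0∞, Tendsto (fun m => ρ i (u m i)) (hyperfilter ℕ) (𝓝 β) := by
    intro i
    obtain ⟨β, -, hβ⟩ := isCompact_univ.ultrafilter_le_nhds
      ((hyperfilter ℕ).map (fun m => ρ i (u m i))) (by simp)
    exact ⟨β, hβ⟩
  choose β hβ using hlim
  have hfin : ∀ t : Finset ι, Tendsto (fun m => ∑ i ∈ t, ρ i (u m i)) (hyperfilter ℕ)
      (𝓝 (∑ i ∈ t, β i)) := fun t => tendsto_finset_sum t fun i _ => hβ i
  have hβsum : ∀ t : Finset ι, ∑ i ∈ t, β i ≤ b := by
    intro t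
    refine le_of_tendsto (hfin t) (Eventually.of_forall fun m => ?_)
    exact (ENNReal.sum_le_tsum t).trans (hub m)
  have hβtop : ∑' i, β i ≠ ∞ := by
    refine ne_top_of_le_ne_top hb ?_
    rw [ENNReal.tsum_eq_iSup_sum]
    exact iSup_le hβsum
  -- first small parameter
  obtain ⟨η, hη0, hηt, hη⟩ := exists_eta (3 * (B * M₀)) (δ / 2)
    (ENNReal.mul_ne_top (by simp) (ENNReal.mul_ne_top hB (by simp)))
    (by simpa using hδ)
  -- the finite set `s`
  obtain ⟨s, hs⟩ : ∃ s : Finset ι, ∀ t : Finset ι, Disjoint t s → ∑ i ∈ t, β i ≤ η := by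
    by_cases hz : ∑' i, β i = 0
    · refine ⟨∅, fun t _ => ?_⟩
      have : ∑ i ∈ t, β i ≤ ∑' i, β i := ENNReal.sum_le_tsum t
      rw [hz] at this
      exact this.trans zero_le
    obtain ⟨s, hs⟩ := exists_subset_of_lt β (∑' i, β i - η)
      (ENNReal.sub_lt_self hβtop hz hη0)
    refine ⟨s, fun t ht => ?_⟩
    have h1 : ∑ i ∈ t, β i + ∑ i ∈ s, β i ≤ ∑' i, β i := by
      rw [← Finset.sum_union ht]
      exact ENNReal.sum_le_tsum _
    have h2 : ∑' i, β i ≤ ∑ i ∈ s, β i + η := tsub_le_iff_right.1 hs.le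
    have h3 : ∑ i ∈ s, β i ≠ ∞ := ne_top_of_le_ne_top hb (hβsum s)
    have h4 : ∑ i ∈ s, β i + ∑ i ∈ t, β i ≤ ∑ i ∈ s, β i + η := by
      rw [add_comm]; exact h1.trans h2
    exact (ENNReal.add_le_add_iff_left h3).1 h4
  set tl : ℕ → ℝ≥0∞ := fun m => ∑' i, if i ∈ s then 0 else ρ i (u m i) with htl
  -- escaping mass
  have hesc : {m | tl m ≤ c + 3 * η} ∈ hyperfilter ℕ := by
    by_contra hcon
    have hD : {m | c + 3 * η < tl m} ∈ hyperfilter ℕ := by
      have := Ultrafilter.compl_mem_iff_notMem.2 hcon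
      refine mem_of_superset this fun m hm => ?_
      simpa using hm
    have ind : ∀ j : ℕ, ∃ (J : Finset ℕ) (t : Finset ι), J.card = j ∧ Disjoint t s ∧
        (c + η) * j ≤ ∑ i ∈ t, ρ i (∑ m ∈ J, u m i) := by
      intro j
      induction j with
      | zero => exact ⟨∅, ∅, rfl, by simp, by simp⟩
      | succ j ih =>
        obtain ⟨J, t, hJc, hts, hJt⟩ := ih
        have e1 : {m | ∑ i ∈ t, ρ i (u m i) < 2 * η} ∈ hyperfilter ℕ := by
          have : ∑ i ∈ t, β i < 2 * η := by
            refine (hs t hts).trans_lt ?_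
            rw [two_mul]
            exact ENNReal.lt_add_right hηt hη0
          exact (hfin t).eventually (gt_mem_nhds this)
        have e2 : ((J : Set ℕ)ᶜ) ∈ hyperfilter ℕ :=
          J.finite_toSet.compl_mem_hyperfilter
        obtain ⟨m, ⟨hm1, hm2⟩, hm3⟩ := Ultrafilter.nonempty_of_mem
          (Filter.inter_mem (Filter.inter_mem hD e1) e2)
        simp only [Set.mem_setOf_eq] at hm1 hm2
        have hm3' : m ∉ J := by simpa using hm3
        -- mass of `u m` off `s ∪ t`
        have h5 : c + η < ∑' i, if i ∈ s ∪ t then 0 else ρ i (u m i) := by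
          by_contra hle
          push Not at hle
          have h6 : tl m ≤ ∑ i ∈ t, ρ i (u m i) +
              ∑' i, (if i ∈ s ∪ t then 0 else ρ i (u m i)) := by
            have h7 : ∑ i ∈ t, ρ i (u m i) = ∑' i, (if i ∈ t then ρ i (u m i) else 0) := by
              rw [tsum_eq_sum (s := t)]
              · exact Finset.sum_congr rfl fun i hi => by simp [hi]
              · intro i hi; simp [hi]
            rw [h7, ← ENNReal.tsum_add]
            refine ENNReal.tsum_le_tsum fun i => ?_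
            by_cases hi : i ∈ s
            · simp [hi]
            · by_cases hi' : i ∈ t
              · simp [hi, hi']
              · simp [hi, hi']
          have h8 : tl m ≤ 2 * η + (c + η) := h6.trans (add_le_add hm2.le hle)
          have h9 : 2 * η + (c + η) = c + 3 * η := by ring
          rw [h9] at h8
          exact absurd hm1 (not_lt.2 h8)
        obtain ⟨t', ht'⟩ := exists_subset_of_lt _ _ h5
        refine ⟨insert m J, t ∪ (t' \ (s ∪ t)), by rw [Finset.card_insert_of_notMem hm3', hJc],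
          ?_, ?_⟩
        · rw [Finset.disjoint_union_left]
          refine ⟨hts, ?_⟩
          refine Finset.disjoint_left.2 fun i hi hi' => ?_
          rw [Finset.mem_sdiff, Finset.mem_union] at hi
          exact hi.2 (Or.inl hi')
        · have hdis : Disjoint t (t' \ (s ∪ t)) := by
            refine Finset.disjoint_left.2 fun i hi hi' => ?_
            rw [Finset.mem_sdiff, Finset.mem_union] at hi'
            exact hi'.2 (Or.inr hi)
          rw [Finset.sum_union hdis]
          have h10 : ∑ i ∈ t, ρ i (∑ m ∈ J, u m i) ≤ ∑ i ∈ t, ρ i (∑ m ∈ insert m J, u m i) := by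
            refine Finset.sum_le_sum fun i _ => ?_
            rw [Finset.sum_insert hm3', add_comm]
            exact hmono i _ _
          have h11 : c + η ≤ ∑ i ∈ t' \ (s ∪ t), ρ i (∑ m ∈ insert m J, u m i) := by
            calc c + η ≤ ∑ i ∈ t', (if i ∈ s ∪ t then 0 else ρ i (u m i)) := ht'.le
              _ = ∑ i ∈ t' \ (s ∪ t), ρ i (u m i) := by
                rw [Finset.sdiff_eq_filter, Finset.sum_filter]
                refine Finset.sum_congr rfl fun i _ => ?_
                by_cases hi : i ∈ s ∪ t <;> simp only [hi, if_true, if_false, not_true,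
                  not_false_eq_true]
              _ ≤ _ := by
                refine Finset.sum_le_sum fun i _ => ?_
                rw [Finset.sum_insert hm3']
                exact hmono i _ _
          calc (c + η) * ((j + 1 : ℕ) : ℝ≥0∞) = (c + η) * j + (c + η) := by
                push_cast; ring
            _ ≤ _ := add_le_add (hJt.trans h10) h11
    obtain ⟨J, t, hJc, -, hJt⟩ := ind M₁
    have h1 := hJt.trans ((ENNReal.sum_le_tsum t).trans (hJ J hJc))
    have h2 : c * M₁ < (c + η) * M₁ := by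
      have : (M₁ : ℝ≥0∞) ≠ 0 := by
        have : M₁ ≠ 0 := by omega
        exact_mod_cast this
      exact (ENNReal.mul_lt_mul_iff_left this (by simp)).2 (ENNReal.lt_add_right hc hη0)
    exact absurd h1 (not_le.2 h2)
  -- second small parameter
  obtain ⟨θ, hθ0, hθt, hθ⟩ := exists_eta (B * (M₀ : ℝ≥0∞) ^ (1 / r) * s.card) (δ / 2)
    (ENNReal.mul_ne_top (ENNReal.mul_ne_top hB
      (ENNReal.rpow_ne_top_of_nonneg (by positivity) (by simp))) (by simp))
    (by simpa using hδ)
  have hβt : ∀ i, β i ≠ ∞ := by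
    intro i
    have := hβsum {i}
    rw [Finset.sum_singleton] at this
    exact ne_top_of_le_ne_top hb this
  have hG : {m | ∀ i ∈ s, ρ i (u m i) ≤ β i + θ} ∈ hyperfilter ℕ := by
    have : ∀ i ∈ s, ∀ᶠ m in (hyperfilter ℕ : Filter ℕ), ρ i (u m i) ≤ β i + θ := by
      intro i _
      have hlt : β i < β i + θ := ENNReal.lt_add_right (hβt i) hθ0
      exact ((hβ i).eventually (gt_mem_nhds hlt)).mono fun m hm => le_of_lt hm
    exact (Finset.eventually_all s).2 this
  -- the selection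
  have sel : ∀ j : ℕ, ∃ (J : Finset ℕ) (ν : ι → ℝ≥0∞), J.card = j ∧
      (∀ m ∈ J, (∀ i ∈ s, ρ i (u m i) ≤ β i + θ) ∧ tl m ≤ c + 3 * η) ∧
      ∑' i, ν i ≤ c * j ∧
      ∀ i, ρ i (∑ m ∈ J, u m i) ≤ A * ν i + (∑ m ∈ J, (B * ρ i (u m i)) ^ r) ^ (1 / r) := by
    intro j
    induction j with
    | zero =>
      exact ⟨∅, fun _ => 0, rfl, by simp, by simp, fun i => by simp [h0]⟩
    | succ j ih =>
      obtain ⟨J, ν, hJc, hJG, hν, hJρ⟩ := ih
      set a : ∀ i, F i := fun i => ∑ m ∈ J, u m i with ha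
      have hbad : {m | c < ∑' i, N i (a i) (u m i)}.Finite := by
        by_contra hinf
        obtain ⟨J', hJ's, hJ'c⟩ := Set.Infinite.exists_subset_card_eq (Set.not_finite.1 hinf) M₁
        have hne : J'.Nonempty := by
          rw [← Finset.card_pos, hJ'c]; omega
        have h1 : ∑ m ∈ J', c < ∑ m ∈ J', ∑' i, N i (a i) (u m i) :=
          ENNReal.sum_lt_sum_of_nonempty hne fun m hm => hJ's hm
        have h2 : ∑ m ∈ J', ∑' i, N i (a i) (u m i) = ∑' i, ∑ m ∈ J', N i (a i) (u m i) := by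
          rw [Summable.tsum_finsetSum (fun _ _ => ENNReal.summable)]
        have h3 : ∀ i, ∑ m ∈ J', N i (a i) (u m i) = N i (a i) (∑ m ∈ J', u m i) := by
          intro i
          clear h1 h2 hne hJ'c hJ's
          induction J' using Finset.induction_on with
          | empty => simp [hN0]
          | insert m J' hm ih => rw [Finset.sum_insert hm, Finset.sum_insert hm, hNadd, ih]
        rw [h2] at h1
        simp_rw [h3] at h1
        have h4 : ∑' i, N i (a i) (∑ m ∈ J', u m i) ≤ c * M₁ :=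
          (ENNReal.tsum_le_tsum fun i => hNρ i _ _).trans (hJ J' hJ'c)
        rw [Finset.sum_const, hJ'c, nsmul_eq_mul, mul_comm] at h1
        exact absurd h4 (not_le.2 h1)
      obtain ⟨m, ⟨⟨hm1, hm2⟩, hm3⟩, hm4⟩ := Ultrafilter.nonempty_of_mem
        (Filter.inter_mem (Filter.inter_mem (Filter.inter_mem hG hesc)
          hbad.compl_mem_hyperfilter) J.finite_toSet.compl_mem_hyperfilter)
      simp only [Set.mem_setOf_eq, Set.mem_compl_iff, not_lt] at hm1 hm2 hm3
      have hm4' : m ∉ J := by simpa using hm4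
      refine ⟨insert m J, fun i => ν i + N i (a i) (u m i), by
        rw [Finset.card_insert_of_notMem hm4', hJc], ?_, ?_, ?_⟩
      · intro m' hm'
        rcases Finset.mem_insert.1 hm' with rfl | hm'
        · exact ⟨hm1, hm2⟩
        · exact hJG m' hm'
      · rw [ENNReal.tsum_add]
        push_cast
        rw [mul_add, mul_one]
        exact add_le_add hν hm3
      · intro i
        rw [Finset.sum_insert hm4', Finset.sum_insert hm4', add_comm (u m i)]
        refine (hstep i _ _).trans ?_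
        have h1 : ρ i (∑ m ∈ J, u m i) + A * N i (∑ m ∈ J, u m i) (u m i) ≤
            A * (ν i + N i (a i) (u m i)) + (∑ m ∈ J, (B * ρ i (u m i)) ^ r) ^ (1 / r) := by
          calc _ ≤ (A * ν i + (∑ m ∈ J, (B * ρ i (u m i)) ^ r) ^ (1 / r)) +
                A * N i (a i) (u m i) := by gcongr; exact hJρ i
            _ = _ := by ring
        have h2 : ((∑ m ∈ J, (B * ρ i (u m i)) ^ r) ^ (1 / r)) ^ r =
            ∑ m ∈ J, (B * ρ i (u m i)) ^ r := by
          rw [← ENNReal.rpow_mul, one_div_mul_cancel hr0.ne', ENNReal.rpow_one]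
        calc _ ≤ ((A * (ν i + N i (a i) (u m i)) +
              (∑ m ∈ J, (B * ρ i (u m i)) ^ r) ^ (1 / r)) ^ r +
              (B * ρ i (u m i)) ^ r) ^ (1 / r) := by
              apply ENNReal.rpow_le_rpow _ (by positivity)
              gcongr
          _ ≤ _ := mink _ _ _ hr
          _ = _ := by
              rw [h2, add_comm (∑ m ∈ J, (B * ρ i (u m i)) ^ r)]
  obtain ⟨J, ν, hJc, hJG, hν, hJρ⟩ := sel M₀
  refine ⟨J, hJc, ?_⟩
  have g1 : ∑' i, ρ i (∑ m ∈ J, u m i) ≤
      A * ∑' i, ν i + ∑' i, (∑ m ∈ J, (B * ρ i (u m i)) ^ r) ^ (1 / r) := by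
    rw [← ENNReal.tsum_mul_left, ← ENNReal.tsum_add]
    exact ENNReal.tsum_le_tsum hJρ
  have g2 : ∀ i, (∑ m ∈ J, (B * ρ i (u m i)) ^ r) ^ (1 / r) ≤
      (if i ∈ s then (M₀ : ℝ≥0∞) ^ (1 / r) * (B * (β i + θ)) else 0) +
      ∑ m ∈ J, B * (if i ∈ s then 0 else ρ i (u m i)) := by
    intro i
    by_cases hi : i ∈ s
    · simp only [hi, if_true, mul_zero, Finset.sum_const_zero, add_zero]
      calc (∑ m ∈ J, (B * ρ i (u m i)) ^ r) ^ (1 / r)
          ≤ (∑ m ∈ J, (B * (β i + θ)) ^ r) ^ (1 / r) := by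
            apply ENNReal.rpow_le_rpow _ (by positivity)
            refine Finset.sum_le_sum fun m hm => ?_
            apply ENNReal.rpow_le_rpow _ hr0.le
            gcongr
            exact (hJG m hm).1 i hi
        _ = (M₀ : ℝ≥0∞) ^ (1 / r) * (B * (β i + θ)) := by
            rw [Finset.sum_const, hJc, nsmul_eq_mul, ENNReal.mul_rpow_of_nonneg _ _ (by positivity),
              ← ENNReal.rpow_mul, mul_one_div_cancel hr0.ne', ENNReal.rpow_one]
    · simp only [hi, if_false, zero_add]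
      exact rpow_sum_le J _ hr
  have g3 : ∑' i, (∑ m ∈ J, (B * ρ i (u m i)) ^ r) ^ (1 / r) ≤
      (M₀ : ℝ≥0∞) ^ (1 / r) * (B * (b + s.card * θ)) + B * (M₀ * (c + 3 * η)) := by
    refine (ENNReal.tsum_le_tsum g2).trans ?_
    rw [ENNReal.tsum_add]
    apply add_le_add
    · rw [tsum_eq_sum (s := s) (fun i hi => by simp [hi])]
      rw [Finset.sum_congr rfl (fun i hi => if_pos hi), ← Finset.mul_sum, ← Finset.mul_sum,
        Finset.sum_add_distrib, Finset.sum_const, nsmul_eq_mul]
      gcongr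
      exact hβsum s
    · rw [Summable.tsum_finsetSum (fun _ _ => ENNReal.summable)]
      simp_rw [ENNReal.tsum_mul_left]
      rw [← Finset.mul_sum]
      gcongr
      refine (Finset.sum_le_card_nsmul J _ (c + 3 * η) fun m hm => (hJG m hm).2).trans ?_
      rw [hJc, nsmul_eq_mul]
  calc ∑' i, ρ i (∑ m ∈ J, u m i)
      ≤ A * (c * M₀) + ((M₀ : ℝ≥0∞) ^ (1 / r) * (B * (b + s.card * θ)) +
          B * (M₀ * (c + 3 * η))) := by
        refine g1.trans (add_le_add ?_ g3)
        gcongr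
    _ = (A + B) * c * M₀ + B * b * (M₀ : ℝ≥0∞) ^ (1 / r) +
          (3 * (B * M₀) * η + B * (M₀ : ℝ≥0∞) ^ (1 / r) * s.card * θ) := by ring
    _ ≤ (A + B) * c * M₀ + B * b * (M₀ : ℝ≥0∞) ^ (1 / r) + (δ / 2 + δ / 2) := by
        gcongr
    _ = _ := by rw [ENNReal.add_halves]

end DLP
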