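import Pool.Agent.DLP.Defs

/-!
# DLP, module KHI: Khintchine's inequality, upper half
-/

open scoped BigOperators

namespace DLP

universe v

namespace KHI_

theorem sgn_exp (b : Bool) (x : ℝ) : Real.exp (sgn b x) = if b then Real.exp x else
    Real.exp (-x) := by
  cases b <;> simp [sgn]

theorem sum_exp {A : Type} [Fintype A] [DecidableEq A] (y : A → ℝ) :
    ∑ ε : A → Bool, Real.exp (rsum y ε) = ∏ a, (2 * Real.cosh (y a)) := by
  have h1 : ∀ a, 2 * Real.cosh (y a) = ∑ b : Bool, Real.exp (sgn b (y a)) := by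
    intro a
    rw [Fintype.sum_bool, Real.cosh_eq]
    simp only [sgn, if_true, Bool.false_eq_true, if_false]
    ring
  rw [Finset.prod_congr rfl fun a _ => h1 a, Finset.prod_univ_sum, Fintype.piFinset_univ]
  refine Finset.sum_congr rfl fun ε _ => ?_
  rw [← Real.exp_sum]
  rfl

theorem sum_exp_neg {A : Type} [Fintype A] [DecidableEq A] (y : A → ℝ) :
    ∑ ε : A → Bool, Real.exp (-rsum y ε) = ∏ a, (2 * Real.cosh (y a)) := by
  have h1 : ∀ ε : A → Bool, -rsum y ε = rsum (fun a => -y a) ε := by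
    intro ε
    unfold rsum
    rw [← Finset.sum_neg_distrib]
    refine Finset.sum_congr rfl fun a _ => ?_
    cases ε a <;> simp [sgn]
  simp_rw [h1]
  rw [sum_exp]
  refine Finset.prod_congr rfl fun a _ => ?_
  rw [Real.cosh_neg]

theorem prod_le {A : Type} [Fintype A] [DecidableEq A] (y : A → ℝ) (hy : ∑ a, y a ^ 2 ≤ 1) :
    ∏ a, (2 * Real.cosh (y a)) ≤ 2 ^ (Fintype.card A) * Real.exp (1 / 2) := by
  rw [Finset.prod_mul_distrib, Finset.prod_const, Finset.card_univ]
  refine mul_le_mul_of_nonneg_left ?_ (by positivity)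
  calc ∏ a, Real.cosh (y a) ≤ ∏ a, Real.exp (y a ^ 2 / 2) :=
        Finset.prod_le_prod (fun a _ => (Real.cosh_pos _).le) fun a _ =>
          Real.cosh_le_exp_half_sq _
    _ = Real.exp (∑ a, y a ^ 2 / 2) := (Real.exp_sum _ _).symm
    _ ≤ Real.exp (1 / 2) := by
        apply Real.exp_le_exp.mpr
        rw [← Finset.sum_div]
        linarith

theorem rpow_le_exp (n : ℕ) (p : ℝ) (hp : 0 ≤ p) (hpn : p ≤ n) (t : ℝ) :
    |t| ^ p ≤ (1 + (n.factorial : ℝ)) * (Real.exp t + Real.exp (-t)) := by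
  have h0 : 0 ≤ |t| := abs_nonneg t
  have h1 : |t| ^ p ≤ 1 + |t| ^ n := by
    rcases le_total |t| 1 with h | h
    · have := Real.rpow_le_one h0 h hp
      have h2 : (0 : ℝ) ≤ |t| ^ n := pow_nonneg h0 n
      linarith
    · have := Real.rpow_le_rpow_of_exponent_le h hpn
      rw [Real.rpow_natCast] at this
      linarith
  have h2 : |t| ^ n ≤ n.factorial * Real.exp |t| := by
    have := Real.pow_div_factorial_le_exp |t| h0 n
    rw [div_le_iff₀ (by positivity)] at this
    linarith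
  have h3 : (1 : ℝ) ≤ Real.exp |t| := Real.one_le_exp h0
  have h4 : Real.exp |t| ≤ Real.exp t + Real.exp (-t) := by
    rcases abs_cases t with ⟨h, _⟩ | ⟨h, _⟩
    · rw [h]; linarith [Real.exp_pos (-t)]
    · rw [h]; linarith [Real.exp_pos t]
  calc |t| ^ p ≤ 1 + |t| ^ n := h1
    _ ≤ Real.exp |t| + n.factorial * Real.exp |t| := by linarith
    _ = (1 + (n.factorial : ℝ)) * Real.exp |t| := by ring
    _ ≤ _ := mul_le_mul_of_nonneg_left h4 (by positivity)

theorem real_unit {A : Type} [Fintype A] [DecidableEq A] (n : ℕ) (p : ℝ) (hp : 0 ≤ p)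
    (hpn : p ≤ n) (y : A → ℝ) (hy : ∑ a, y a ^ 2 ≤ 1) :
    ∑ ε : A → Bool, |rsum y ε| ^ p ≤
      2 ^ (Fintype.card A) * (2 * (1 + (n.factorial : ℝ)) * Real.exp (1 / 2)) := by
  calc ∑ ε : A → Bool, |rsum y ε| ^ p
      ≤ ∑ ε : A → Bool, (1 + (n.factorial : ℝ)) *
        (Real.exp (rsum y ε) + Real.exp (-rsum y ε)) :=
        Finset.sum_le_sum fun ε _ => rpow_le_exp n p hp hpn _
    _ = (1 + (n.factorial : ℝ)) * (∏ a, (2 * Real.cosh (y a)) + ∏ a, (2 * Real.cosh (y a))) := by
        rw [← Finset.mul_sum, Finset.sum_add_distrib, sum_exp, sum_exp_neg]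
    _ ≤ (1 + (n.factorial : ℝ)) * (2 ^ (Fintype.card A) * Real.exp (1 / 2) +
        2 ^ (Fintype.card A) * Real.exp (1 / 2)) := by
        refine mul_le_mul_of_nonneg_left ?_ (by positivity)
        exact add_le_add (prod_le y hy) (prod_le y hy)
    _ = _ := by ring

theorem real_gen {A : Type} [Fintype A] [DecidableEq A] (n : ℕ) (p : ℝ) (hp : 0 ≤ p)
    (hpn : p ≤ n) (u : A → ℝ) (s : ℝ) (hs : 0 < s) (hu : ∑ a, u a ^ 2 ≤ s) :
    ∑ ε : A → Bool, |rsum u ε| ^ p ≤
      2 ^ (Fintype.card A) * (2 * (1 + (n.factorial : ℝ)) * Real.exp (1 / 2)) * s ^ (p / 2) := by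
  have hq : 0 < Real.sqrt s := Real.sqrt_pos.mpr hs
  have h1 : ∑ a, (u a / Real.sqrt s) ^ 2 ≤ 1 := by
    have : ∀ a, (u a / Real.sqrt s) ^ 2 = u a ^ 2 / s := by
      intro a
      rw [div_pow, Real.sq_sqrt hs.le]
    rw [Finset.sum_congr rfl fun a _ => this a, ← Finset.sum_div, div_le_one hs]
    exact hu
  have h2 : ∀ ε : A → Bool, |rsum u ε| ^ p =
      s ^ (p / 2) * |rsum (fun a => u a / Real.sqrt s) ε| ^ p := by
    intro ε
    have h3 : rsum u ε = Real.sqrt s * rsum (fun a => u a / Real.sqrt s) ε := by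
      unfold rsum
      rw [Finset.mul_sum]
      refine Finset.sum_congr rfl fun a _ => ?_
      cases ε a
      · simp only [sgn, Bool.false_eq_true, if_false]; field_simp
      · simp only [sgn, if_true]; field_simp
    rw [h3, abs_mul, abs_of_pos hq, Real.mul_rpow hq.le (abs_nonneg _),
      Real.rpow_div_two_eq_sqrt _ hs.le]
  rw [Finset.sum_congr rfl fun ε _ => h2 ε, ← Finset.mul_sum]
  have h4 := real_unit n p hp hpn (fun a => u a / Real.sqrt s) h1
  have h5 : 0 ≤ s ^ (p / 2) := Real.rpow_nonneg hs.le _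
  have h6 := mul_le_mul_of_nonneg_left h4 h5
  linarith

theorem norm_rpow_le {𝕜 : Type v} [RCLike 𝕜] (z : 𝕜) (n : ℕ) (p : ℝ) (hp : 0 ≤ p)
    (hpn : p ≤ n) : ‖z‖ ^ p ≤ 2 ^ n * (|RCLike.re z| ^ p + |RCLike.im z| ^ p) := by
  set a := |RCLike.re z|
  set b := |RCLike.im z|
  have ha : 0 ≤ a := abs_nonneg _
  have hb : 0 ≤ b := abs_nonneg _
  have h1 : ‖z‖ ≤ a + b := by
    have e1 : ‖z‖ ^ 2 = a ^ 2 + b ^ 2 := by
      rw [RCLike.norm_sq_eq_def, sq_abs, sq_abs]
      ring
    have e2 : ‖z‖ ^ 2 ≤ (a + b) ^ 2 := by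
      rw [e1]
      have := mul_nonneg ha hb
      linarith [add_sq a b]
    exact (sq_le_sq₀ (norm_nonneg _) (by positivity)).mp e2
  have h2 : ‖z‖ ≤ 2 * max a b := by
    have := le_max_left a b
    have := le_max_right a b
    linarith
  have hm : 0 ≤ max a b := le_max_of_le_left ha
  have h3 : ‖z‖ ^ p ≤ (2 * max a b) ^ p := Real.rpow_le_rpow (norm_nonneg _) h2 hp
  have h4 : (2 * max a b) ^ p = 2 ^ p * (max a b) ^ p := Real.mul_rpow (by norm_num) hm
  have h5 : (2 : ℝ) ^ p ≤ 2 ^ n := by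
    have := Real.rpow_le_rpow_of_exponent_le (x := 2) (by norm_num) hpn
    rwa [Real.rpow_natCast] at this
  have h6 : (max a b) ^ p ≤ a ^ p + b ^ p := by
    rcases max_cases a b with ⟨h, _⟩ | ⟨h, _⟩
    · rw [h]; linarith [Real.rpow_nonneg hb p]
    · rw [h]; linarith [Real.rpow_nonneg ha p]
  calc ‖z‖ ^ p ≤ 2 ^ p * (max a b) ^ p := by rw [← h4]; exact h3
    _ ≤ 2 ^ n * (a ^ p + b ^ p) :=
        mul_le_mul h5 h6 (Real.rpow_nonneg hm p) (by positivity)

end KHI_

open KHI_ in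
theorem khi : Stmt_KHI.{v} := by
  intro P hP
  obtain ⟨n, hn⟩ := exists_nat_ge P
  set M : ℝ := 2 * (1 + (n.factorial : ℝ)) * Real.exp (1 / 2) with hM
  have hM1 : 1 ≤ M := by
    have h1 : (1 : ℝ) ≤ Real.exp (1 / 2) := Real.one_le_exp (by norm_num)
    have h2 : (1 : ℝ) ≤ 2 * (1 + (n.factorial : ℝ)) := by
      have : (0 : ℝ) ≤ n.factorial := by positivity
      linarith
    have := mul_le_mul h2 h1 (by norm_num) (by linarith)
    linarith
  refine ⟨2 ^ n * (2 * M), ?_, ?_⟩
  · have h1 : (1 : ℝ) ≤ 2 ^ n := one_le_pow₀ (by norm_num)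
    have h2 : (1 : ℝ) ≤ 2 * M := by linarith
    have := mul_le_mul h1 h2 (by norm_num) (by linarith)
    linarith
  · intro 𝕜 _ p hp2 hpP A _ _ x
    have hp : 0 ≤ p := by linarith
    have hpn : p ≤ n := hpP.trans hn
    have hcard : (0 : ℝ) < 2 ^ (Fintype.card A) := by positivity
    rw [div_le_iff₀ hcard]
    set s : ℝ := ∑ a, ‖x a‖ ^ 2 with hs
    have hs0 : 0 ≤ s := Finset.sum_nonneg fun a _ => by positivity
    rcases hs0.eq_or_lt with h0 | hpos
    · have h1 : ∀ a, x a = 0 := by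
        intro a
        have h2 := (Finset.sum_eq_zero_iff_of_nonneg (fun a _ => by positivity)).mp
          (h0.symm : ∑ a, ‖x a‖ ^ 2 = 0) a (Finset.mem_univ a)
        have h3 : ‖x a‖ = 0 := by
          exact pow_eq_zero_iff (two_ne_zero) |>.mp h2
        exact norm_eq_zero.mp h3
      have h2 : ∀ ε : A → Bool, rsum x ε = 0 := by
        intro ε
        unfold rsum
        refine Finset.sum_eq_zero fun a _ => ?_
        rw [h1 a]
        cases ε a <;> simp [sgn]
      have h3 : ∑ ε : A → Bool, ‖rsum x ε‖ ^ p = 0 := by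
        refine Finset.sum_eq_zero fun ε _ => ?_
        rw [h2 ε, norm_zero, Real.zero_rpow (by linarith)]
      rw [h3]
      have h4 : 0 ≤ s ^ (p / 2) := Real.rpow_nonneg hs0 _
      positivity
    · have hre : ∀ ε : A → Bool, RCLike.re (rsum x ε) = rsum (fun a => RCLike.re (x a)) ε := by
        intro ε
        unfold rsum
        rw [map_sum]
        refine Finset.sum_congr rfl fun a _ => ?_
        cases ε a <;> simp [sgn]
      have him : ∀ ε : A → Bool, RCLike.im (rsum x ε) = rsum (fun a => RCLike.im (x a)) ε := by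
        intro ε
        unfold rsum
        rw [map_sum]
        refine Finset.sum_congr rfl fun a _ => ?_
        cases ε a <;> simp [sgn]
      have hsre : ∑ a, (RCLike.re (x a)) ^ 2 ≤ s := by
        refine Finset.sum_le_sum fun a _ => ?_
        rw [← sq_abs]
        exact pow_le_pow_left₀ (abs_nonneg _) (RCLike.abs_re_le_norm _) 2
      have hsim : ∑ a, (RCLike.im (x a)) ^ 2 ≤ s := by
        refine Finset.sum_le_sum fun a _ => ?_
        rw [← sq_abs]
        exact pow_le_pow_left₀ (abs_nonneg _) (RCLike.abs_im_le_norm _) 2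
      have h1 := real_gen n p hp hpn (fun a => RCLike.re (x a)) s hpos hsre
      have h2 := real_gen n p hp hpn (fun a => RCLike.im (x a)) s hpos hsim
      rw [← hM] at h1 h2
      calc ∑ ε : A → Bool, ‖rsum x ε‖ ^ p
          ≤ ∑ ε : A → Bool, 2 ^ n * (|RCLike.re (rsum x ε)| ^ p + |RCLike.im (rsum x ε)| ^ p) :=
            Finset.sum_le_sum fun ε _ => norm_rpow_le _ n p hp hpn
        _ = 2 ^ n * (∑ ε : A → Bool, |rsum (fun a => RCLike.re (x a)) ε| ^ p +
            ∑ ε : A → Bool, |rsum (fun a => RCLike.im (x a)) ε| ^ p) := by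
            rw [← Finset.mul_sum, Finset.sum_add_distrib]
            simp_rw [hre, him]
        _ ≤ 2 ^ n * (2 ^ (Fintype.card A) * M * s ^ (p / 2) +
            2 ^ (Fintype.card A) * M * s ^ (p / 2)) := by
            refine mul_le_mul_of_nonneg_left ?_ (by positivity)
            exact add_le_add h1 h2
        _ = _ := by ring

end DLP
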