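import Pool.Agent.DLP.Defs

/-!
# LAT: lattice facts in `L_q(μ)`
-/

open MeasureTheory
open scoped ENNReal

namespace DLP

namespace LAT_

theorem real_bern (q A B : ℝ) (hq : 1 ≤ q) (hA : 0 ≤ A) (hB : 0 ≤ B) :
    A ^ q + q * A ^ (q - 1) * B ≤ (A + B) ^ q := by
  rcases hA.eq_or_lt with h0 | hA'
  · subst h0
    rw [Real.zero_rpow (by linarith), zero_add, zero_add]
    rcases hq.eq_or_lt with h1 | h1
    · subst h1
      simp
    · rw [Real.zero_rpow (by linarith), mul_zero, zero_mul]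
      exact Real.rpow_nonneg hB _
  · have h1 : (A + B) ^ q = A ^ q * (1 + B / A) ^ q := by
      rw [← Real.mul_rpow hA (by positivity)]
      congr 1
      field_simp
    have h2 : 1 + q * (B / A) ≤ (1 + B / A) ^ q :=
      one_add_mul_self_le_rpow_one_add (by have : 0 ≤ B / A := by positivity
                                           linarith) hq
    have h3 : A ^ q = A ^ (q - 1) * A := by
      rw [← Real.rpow_add_one hA'.ne']
      congr 1
      ring
    calc A ^ q + q * A ^ (q - 1) * B = A ^ q * (1 + q * (B / A)) := by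
          rw [h3]
          field_simp
      _ ≤ A ^ q * (1 + B / A) ^ q := mul_le_mul_of_nonneg_left h2 (Real.rpow_nonneg hA _)
      _ = (A + B) ^ q := h1.symm

theorem real_up (q x y : ℝ) (hq : 1 ≤ q) (hx : 0 ≤ x) (hy : 0 ≤ y) :
    (x + y) ^ q ≤ x ^ q + q * 2 ^ (q - 1) * (x ^ (q - 1) * y) + (2 * y) ^ q := by
  have hq0 : 0 ≤ q := by linarith
  have t1 : 0 ≤ x ^ q := Real.rpow_nonneg hx _
  have t2 : 0 ≤ q * 2 ^ (q - 1) * (x ^ (q - 1) * y) :=
    mul_nonneg (mul_nonneg hq0 (Real.rpow_nonneg (by norm_num) _))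
      (mul_nonneg (Real.rpow_nonneg hx _) hy)
  have t3 : 0 ≤ (2 * y) ^ q := Real.rpow_nonneg (by linarith) _
  rcases lt_or_ge x y with hxy | hxy
  · have : (x + y) ^ q ≤ (2 * y) ^ q :=
      Real.rpow_le_rpow (by linarith) (by linarith) hq0
    linarith
  · rcases hx.eq_or_lt with h0 | hx'
    · have hy0 : y = 0 := by linarith
      subst h0
      subst hy0
      rw [add_zero, Real.zero_rpow (by linarith)]
      linarith
    · have hs : 0 < x + y := by linarith
      have h1 : x ^ q = (x + y) ^ q * (1 + -(y / (x + y))) ^ q := by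
        rw [← Real.mul_rpow hs.le]
        · congr 1
          field_simp
          ring
        · have : y / (x + y) ≤ 1 := by
            rw [div_le_one hs]; linarith
          linarith
      have h2 : 1 + q * (-(y / (x + y))) ≤ (1 + -(y / (x + y))) ^ q := by
        apply one_add_mul_self_le_rpow_one_add _ hq
        have : y / (x + y) ≤ 1 := by
          rw [div_le_one hs]; linarith
        linarith
      have h3 : (x + y) ^ q = (x + y) ^ (q - 1) * (x + y) := by
        rw [← Real.rpow_add_one hs.ne']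
        congr 1
        ring
      have h4 : (x + y) ^ q - q * ((x + y) ^ (q - 1) * y) ≤ x ^ q := by
        rw [h1]
        calc (x + y) ^ q - q * ((x + y) ^ (q - 1) * y)
            = (x + y) ^ q * (1 + q * (-(y / (x + y)))) := by
              rw [h3]
              field_simp
              ring
          _ ≤ (x + y) ^ q * (1 + -(y / (x + y))) ^ q :=
              mul_le_mul_of_nonneg_left h2 (Real.rpow_nonneg hs.le _)
      have h5 : (x + y) ^ (q - 1) ≤ 2 ^ (q - 1) * x ^ (q - 1) := by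
        rw [← Real.mul_rpow (by norm_num) hx]
        exact Real.rpow_le_rpow hs.le (by linarith) (by linarith)
      have h6 : q * ((x + y) ^ (q - 1) * y) ≤ q * 2 ^ (q - 1) * (x ^ (q - 1) * y) := by
        calc q * ((x + y) ^ (q - 1) * y) ≤ q * ((2 ^ (q - 1) * x ^ (q - 1)) * y) := by
              gcongr
          _ = q * 2 ^ (q - 1) * (x ^ (q - 1) * y) := by ring
      linarith

theorem two_rpow (s : ℝ) (hs : 0 ≤ s) : (2 : ℝ≥0∞) ^ s = ENNReal.ofReal (2 ^ s) := by
  rw [← ENNReal.ofReal_rpow_of_nonneg (by norm_num) hs]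
  norm_num

theorem en_bern (q : ℝ) (hq : 1 ≤ q) (A B : ℝ≥0∞) (hA : A ≠ ⊤) (hB : B ≠ ⊤) :
    A ^ q + ENNReal.ofReal q * A ^ (q - 1) * B ≤ (A + B) ^ q := by
  have hq0 : 0 ≤ q := by linarith
  have h := real_bern q A.toReal B.toReal hq ENNReal.toReal_nonneg ENNReal.toReal_nonneg
  rw [← ENNReal.ofReal_toReal hA, ← ENNReal.ofReal_toReal hB]
  rw [ENNReal.ofReal_rpow_of_nonneg ENNReal.toReal_nonneg hq0,
    ENNReal.ofReal_rpow_of_nonneg ENNReal.toReal_nonneg (by linarith),
    ← ENNReal.ofReal_mul hq0, ← ENNReal.ofReal_mul (mul_nonneg hq0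
      (Real.rpow_nonneg ENNReal.toReal_nonneg _)),
    ← ENNReal.ofReal_add (Real.rpow_nonneg ENNReal.toReal_nonneg _)
      (mul_nonneg (mul_nonneg hq0 (Real.rpow_nonneg ENNReal.toReal_nonneg _))
        ENNReal.toReal_nonneg),
    ← ENNReal.ofReal_add ENNReal.toReal_nonneg ENNReal.toReal_nonneg,
    ENNReal.ofReal_rpow_of_nonneg (add_nonneg ENNReal.toReal_nonneg ENNReal.toReal_nonneg) hq0]
  exact ENNReal.ofReal_le_ofReal h

theorem en_up (q : ℝ) (hq : 1 ≤ q) (x y : ℝ≥0∞) :
    (x + y) ^ q ≤ x ^ q + ENNReal.ofReal q * 2 ^ (q - 1) * (x ^ (q - 1) * y) + (2 * y) ^ q := by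
  have hq0 : 0 < q := by linarith
  by_cases hx : x = ⊤
  · subst hx
    rw [ENNReal.top_rpow_of_pos hq0, top_add, top_add]
    exact le_top
  by_cases hy : y = ⊤
  · subst hy
    have e : (2 * (⊤ : ℝ≥0∞)) ^ q = ⊤ := by
      rw [ENNReal.mul_top (by norm_num), ENNReal.top_rpow_of_pos hq0]
    exact le_trans le_top (le_of_eq (by rw [e, add_top]))
  have h := real_up q x.toReal y.toReal hq ENNReal.toReal_nonneg ENNReal.toReal_nonneg
  have n1 : 0 ≤ x.toReal := ENNReal.toReal_nonneg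
  have n2 : 0 ≤ y.toReal := ENNReal.toReal_nonneg
  have e2 : (2 : ℝ≥0∞) * ENNReal.ofReal y.toReal = ENNReal.ofReal (2 * y.toReal) := by
    rw [ENNReal.ofReal_mul (by norm_num)]
    norm_num
  rw [two_rpow (q - 1) (by linarith), ← ENNReal.ofReal_toReal hx, ← ENNReal.ofReal_toReal hy, e2,
    ENNReal.ofReal_rpow_of_nonneg n1 hq0.le,
    ENNReal.ofReal_rpow_of_nonneg n1 (by linarith),
    ENNReal.ofReal_rpow_of_nonneg (by linarith) hq0.le,
    ← ENNReal.ofReal_mul hq0.le, ← ENNReal.ofReal_mul (Real.rpow_nonneg n1 _),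
    ← ENNReal.ofReal_mul (mul_nonneg hq0.le (Real.rpow_nonneg (by norm_num) _)),
    ← ENNReal.ofReal_add (Real.rpow_nonneg n1 _)
      (mul_nonneg (mul_nonneg hq0.le (Real.rpow_nonneg (by norm_num) _))
        (mul_nonneg (Real.rpow_nonneg n1 _) n2)),
    ← ENNReal.ofReal_add (add_nonneg (Real.rpow_nonneg n1 _)
      (mul_nonneg (mul_nonneg hq0.le (Real.rpow_nonneg (by norm_num) _))
        (mul_nonneg (Real.rpow_nonneg n1 _) n2))) (Real.rpow_nonneg (by linarith) _),
    ← ENNReal.ofReal_add n1 n2, ENNReal.ofReal_rpow_of_nonneg (add_nonneg n1 n2) hq0.le]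
  exact ENNReal.ofReal_le_ofReal h

section

universe w

variable {Ω : Type w} [MeasurableSpace Ω] (μ : Measure Ω)

theorem rho_zero (q : ℝ) (hq : 1 ≤ q) : rho q μ (fun _ => 0) = 0 := by
  have hq0 : 0 < q := by linarith
  simp only [rho]
  rw [ENNReal.zero_rpow_of_pos hq0, lintegral_zero, ENNReal.zero_rpow_of_pos (by positivity)]

theorem rho_mono (q : ℝ) (hq : 1 ≤ q) (u v : Ω → ℝ≥0∞) (h : ∀ t, u t ≤ v t) :
    rho q μ u ≤ rho q μ v := by
  have hq0 : 0 < q := by linarith
  simp only [rho]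
  refine ENNReal.rpow_le_rpow (lintegral_mono fun t => ?_) (by positivity)
  exact ENNReal.rpow_le_rpow (h t) hq0.le

theorem rho_add (q : ℝ) (hq : 1 ≤ q) (u v : Ω → ℝ≥0∞) (hu : Measurable u) (hv : Measurable v) :
    rho q μ (u + v) ≤ rho q μ u + rho q μ v :=
  ENNReal.lintegral_Lp_add_le hu.aemeasurable hv.aemeasurable hq

theorem rho_rpow (q : ℝ) (hq : 1 ≤ q) (u : Ω → ℝ≥0∞) : rho q μ u ^ q = ∫⁻ t, u t ^ q ∂μ := by
  have hq0 : 0 < q := by linarith
  simp only [rho]
  rw [← ENNReal.rpow_mul, one_div, inv_mul_cancel₀ hq0.ne', ENNReal.rpow_one]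

theorem nf_zero (q : ℝ) (a : Ω → ℝ≥0∞) : nf q μ a (fun _ => 0) = 0 := by
  classical
  simp only [nf]
  split_ifs
  · rfl
  · simp

theorem nf_add (q : ℝ) (a u v : Ω → ℝ≥0∞) (ha : Measurable a) (hu : Measurable u) :
    nf q μ a (u + v) = nf q μ a u + nf q μ a v := by
  classical
  simp only [nf]
  split_ifs
  · simp
  · have m : Measurable fun t => a t ^ (q - 1) * u t := (ha.pow_const _).mul hu
    rw [← mul_add, ← lintegral_add_left m]
    congr 1
    refine lintegral_congr fun t => ?_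
    rw [Pi.add_apply, mul_add]

theorem holder (q : ℝ) (hq : 1 ≤ q) (a u : Ω → ℝ≥0∞) (ha : Measurable a) (hu : Measurable u) :
    ∫⁻ t, a t ^ (q - 1) * u t ∂μ ≤ rho q μ a ^ (q - 1) * rho q μ u := by
  have hq0 : 0 < q := by linarith
  rcases hq.eq_or_lt with h1 | h1
  · subst h1
    simp [rho]
  · have hconj : (q / (q - 1)).HolderConjugate q := by
      have := (Real.HolderConjugate.conjExponent h1).symm
      simpa [Real.conjExponent] using this
    have h2 := ENNReal.lintegral_mul_le_Lp_mul_Lq μ hconj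
      (f := fun t => a t ^ (q - 1)) (g := u) (ha.pow_const _).aemeasurable hu.aemeasurable
    have h3 : ∀ t, (a t ^ (q - 1)) ^ (q / (q - 1)) = a t ^ q := by
      intro t
      rw [← ENNReal.rpow_mul]
      congr 1
      have : q - 1 ≠ 0 := by linarith
      field_simp
    have h4 : (∫⁻ t, (a t ^ (q - 1)) ^ (q / (q - 1)) ∂μ) ^ (1 / (q / (q - 1))) =
        rho q μ a ^ (q - 1) := by
      simp only [h3]
      rw [← rho_rpow μ q hq a, ← ENNReal.rpow_mul]
      congr 1
      have : q - 1 ≠ 0 := by linarith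
      field_simp
    rw [h4] at h2
    exact h2

theorem nf_le (q : ℝ) (hq : 1 ≤ q) (a u : Ω → ℝ≥0∞) (ha : Measurable a) (hu : Measurable u) :
    nf q μ a u ≤ rho q μ u := by
  classical
  simp only [nf]
  split_ifs with h
  · exact zero_le
  · push Not at h
    have h1 := holder μ q hq a u ha hu
    calc rho q μ a ^ (1 - q) * ∫⁻ t, a t ^ (q - 1) * u t ∂μ
        ≤ rho q μ a ^ (1 - q) * (rho q μ a ^ (q - 1) * rho q μ u) := by gcongr
      _ = rho q μ u := by
        rw [← mul_assoc, ← ENNReal.rpow_add _ _ h.1 h.2]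
        have : (1 - q) + (q - 1) = 0 := by ring
        rw [this, ENNReal.rpow_zero, one_mul]

theorem int_eq (q : ℝ) (a u : Ω → ℝ≥0∞) (h0 : rho q μ a ≠ 0)
    (h1 : rho q μ a ≠ ⊤) :
    ∫⁻ t, a t ^ (q - 1) * u t ∂μ = rho q μ a ^ (q - 1) * nf q μ a u := by
  classical
  simp only [nf]
  rw [if_neg (by push Not; exact ⟨h0, h1⟩), ← mul_assoc, ← ENNReal.rpow_add _ _ h0 h1]
  have : (q - 1) + (1 - q) = 0 := by ring
  rw [this, ENNReal.rpow_zero, one_mul]

theorem step (q : ℝ) (hq : 1 ≤ q) (r R : ℝ) (hr : 1 ≤ r) (hrq : r ≤ q) (hqR : q ≤ R)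
    (a u : Ω → ℝ≥0∞) (ha : Measurable a) (hu : Measurable u) :
    rho q μ (a + u) ≤
      ((rho q μ a + 2 ^ (R - 1) * nf q μ a u) ^ r + (2 * rho q μ u) ^ r) ^ (1 / r) := by
  have hq0 : 0 < q := by linarith
  have hr0 : 0 < r := by linarith
  have hY : ∀ X Y : ℝ≥0∞, Y ≤ (X ^ r + Y ^ r) ^ (1 / r) := by
    intro X Y
    calc Y = (Y ^ r) ^ (1 / r) := by
          rw [← ENNReal.rpow_mul, mul_one_div_cancel hr0.ne', ENNReal.rpow_one]
      _ ≤ (X ^ r + Y ^ r) ^ (1 / r) :=
          ENNReal.rpow_le_rpow le_add_self (by positivity)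
  have hX : ∀ X Y : ℝ≥0∞, X ≤ (X ^ r + Y ^ r) ^ (1 / r) := by
    intro X Y
    rw [add_comm]
    exact hY Y X
  by_cases h0 : rho q μ a = 0
  · calc rho q μ (a + u) ≤ rho q μ a + rho q μ u := rho_add μ q hq a u ha hu
      _ = rho q μ u := by rw [h0, zero_add]
      _ ≤ 2 * rho q μ u := by
          rw [two_mul]
          exact le_add_self
      _ ≤ _ := hY _ _
  by_cases h1 : rho q μ a = ⊤
  · refine le_trans le_top ?_
    refine le_trans ?_ (hX _ _)
    rw [h1, top_add]
  by_cases h2 : nf q μ a u = ⊤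
  · refine le_trans le_top ?_
    refine le_trans ?_ (hX _ _)
    rw [h2, ENNReal.mul_top, add_top]
    exact (ENNReal.rpow_pos (by norm_num) (by norm_num)).ne'
  -- the main case
  have h3 : ∫⁻ t, (a + u) t ^ q ∂μ ≤
      (rho q μ a + 2 ^ (q - 1) * nf q μ a u) ^ q + (2 * rho q μ u) ^ q := by
    calc ∫⁻ t, (a + u) t ^ q ∂μ
        ≤ ∫⁻ t, (a t ^ q + ENNReal.ofReal q * 2 ^ (q - 1) * (a t ^ (q - 1) * u t)) +
            (2 * u t) ^ q ∂μ := lintegral_mono fun t => en_up q hq (a t) (u t)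
      _ = (∫⁻ t, a t ^ q ∂μ + ENNReal.ofReal q * 2 ^ (q - 1) *
            ∫⁻ t, a t ^ (q - 1) * u t ∂μ) + (2 * rho q μ u) ^ q := by
          have m1 : Measurable fun t => a t ^ q := ha.pow_const _
          have m2 : Measurable fun t => a t ^ (q - 1) * u t := (ha.pow_const _).mul hu
          have m3 : Measurable fun t => a t ^ q +
              ENNReal.ofReal q * 2 ^ (q - 1) * (a t ^ (q - 1) * u t) := m1.add (m2.const_mul _)
          rw [lintegral_add_left m3, lintegral_add_left m1, lintegral_const_mul _ m2]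
          congr 1
          rw [ENNReal.mul_rpow_of_nonneg _ _ hq0.le, rho_rpow μ q hq u,
            ← lintegral_const_mul _ (hu.pow_const _)]
          refine lintegral_congr fun t => ?_
          rw [ENNReal.mul_rpow_of_nonneg _ _ hq0.le]
      _ = (rho q μ a ^ q + ENNReal.ofReal q * rho q μ a ^ (q - 1) *
            (2 ^ (q - 1) * nf q μ a u)) + (2 * rho q μ u) ^ q := by
          rw [int_eq μ q a u h0 h1, ← rho_rpow μ q hq a]
          ring
      _ ≤ (rho q μ a + 2 ^ (q - 1) * nf q μ a u) ^ q + (2 * rho q μ u) ^ q := by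
          gcongr
          apply en_bern q hq _ _ h1
          apply ENNReal.mul_ne_top _ h2
          exact ENNReal.rpow_ne_top_of_nonneg (by linarith) (by norm_num)
  calc rho q μ (a + u) = (∫⁻ t, (a + u) t ^ q ∂μ) ^ (1 / q) := rfl
    _ ≤ ((rho q μ a + 2 ^ (q - 1) * nf q μ a u) ^ q + (2 * rho q μ u) ^ q) ^ (1 / q) :=
        ENNReal.rpow_le_rpow h3 (by positivity)
    _ ≤ ((rho q μ a + 2 ^ (q - 1) * nf q μ a u) ^ r + (2 * rho q μ u) ^ r) ^ (1 / r) :=
        ENNReal.rpow_add_rpow_le _ _ hr0 hrq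
    _ ≤ _ := by
        gcongr
        exact (by norm_num : (1 : ℝ≥0∞) ≤ 2)

end

end LAT_

open LAT_ in
theorem lat : Stmt_LAT := by
  intro Ω _ μ q hq
  refine ⟨rho_zero μ q hq, ?_, ?_, nf_zero μ q, ?_, ?_, ?_⟩
  · intro u v
    exact rho_mono μ q hq _ _ fun t => le_self_add
  · intro u v hu hv
    exact rho_add μ q hq u v hu hv
  · intro a u v ha hu _
    exact nf_add μ q a u v ha hu
  · intro a u ha hu
    exact nf_le μ q hq a u ha hu
  · intro r R hr hrq hqR a u ha hu
    exact step μ q hq r R hr hrq hqR a u ha hu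

end DLP
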