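import Pool.Agent.DLP.Defs

/-!
# Test functions and the lower estimate
-/

open MeasureTheory Filter
open scoped ENNReal Topology unitInterval

namespace DLP

universe u v w

/-- product formula for the `τ`'s -/
def ProdF {L : ℕ} (τ : ℕ → I → Fin L) : Prop :=
  ∀ (J : Finset ℕ) (g : ℕ → Fin L → ℝ≥0∞),
    ∫⁻ ω, ∏ m ∈ J, g m (τ m ω) = ∏ m ∈ J, ((∑ l, g m l) / L)

section
variable (𝕜 : Type v) [RCLike 𝕜] {X : Type u} [NormedAddCommGroup X] [NormedSpace 𝕜 X]
  {L : ℕ} (τ : ℕ → I → Fin L) (hτm : ∀ m, Measurable (τ m)) {n : ℕ} (hn : n ≤ L) (x : Fin n → X)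

/-- the value -/
noncomputable def cv (i : Fin n) : X := (((√(L : ℝ) : ℝ) : 𝕜)) • x i

/-- the test functions `√L 1[τ_m = i] x_i` -/
noncomputable def tf (i : Fin n) (m : ℕ) : DiestelL2.L2V X :=
  indicatorConstLp 2 (hτm m (measurableSet_singleton (Fin.castLE hn i)))
    (measure_ne_top _ _) (cv (L := L) 𝕜 x i)

/-- pointwise values -/
noncomputable def yf (ω : I) (i : Fin n) (m : ℕ) : X :=
  if τ m ω = Fin.castLE hn i then cv (L := L) 𝕜 x i else 0

lemma tf_coe (J : Finset ℕ) : ∀ᵐ ω, ∀ a : Fin n × J,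
    tf 𝕜 τ hτm hn x a.1 a.2 ω = yf 𝕜 τ hn x ω a.1 a.2 := by
  rw [ae_all_iff]
  intro a
  filter_upwards [indicatorConstLp_coeFn (p := 2) (μ := (volume : Measure I))
    (hs := hτm a.2 (measurableSet_singleton (Fin.castLE hn a.1)))
    (hμs := measure_ne_top _ _) (c := cv (L := L) 𝕜 x a.1)] with ω h
  unfold tf
  rw [h]
  unfold yf
  by_cases hω : τ a.2 ω = Fin.castLE hn a.1
  · rw [Set.indicator_of_mem (show ω ∈ τ a.2 ⁻¹' {Fin.castLE hn a.1} from hω), if_pos hω]
  · rw [Set.indicator_of_notMem (show ω ∉ τ a.2 ⁻¹' {Fin.castLE hn a.1} from hω), if_neg hω]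

lemma norm_cv (i : Fin n) : ‖cv (L := L) 𝕜 x i‖ ^ 2 = L * ‖x i‖ ^ 2 := by
  unfold cv
  rw [norm_smul, mul_pow, RCLike.norm_ofReal, sq_abs, Real.sq_sqrt (by positivity)]

lemma rad_tf (hRAD : Stmt_RAD.{u, v, w}) (J : Finset ℕ) :
    ENNReal.ofReal (rad (fun a : Fin n × J => tf 𝕜 τ hτm hn x a.1 a.2)) =
      ∫⁻ ω, ENNReal.ofReal (rad (fun a : Fin n × J => yf 𝕜 τ hn x ω a.1 a.2)) := by
  rw [hRAD.2.1]
  apply lintegral_congr_ae
  filter_upwards [tf_coe 𝕜 τ hτm hn x J] with ω h
  congr 2
  funext a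
  exact h a

lemma card_ge (hn : n ≤ L) : ∑ l : Fin L, (if n ≤ l.val then (1 : ℝ≥0∞) else 0) =
    ((L - n : ℕ) : ℝ≥0∞) := by
  rw [← Finset.sum_filter, Finset.sum_const, nsmul_eq_mul, mul_one]
  congr 1
  have h1 : (Finset.univ.filter fun l : Fin L => ¬ (n ≤ l.val)).card = n := by
    have : (Finset.univ.filter fun l : Fin L => ¬ (n ≤ l.val)) =
        Finset.univ.image (Fin.castLE hn) := by
      ext l
      simp only [Finset.mem_filter, Finset.mem_univ, true_and, not_le, Finset.mem_image]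
      constructor
      · intro h
        exact ⟨⟨l, h⟩, rfl⟩
      · rintro ⟨i, rfl⟩
        exact i.2
    rw [this, Finset.card_image_of_injective _ (Fin.castLE_injective hn), Finset.card_univ,
      Fintype.card_fin]
  have h2 := Finset.card_filter_add_card_filter_not (s := (Finset.univ : Finset (Fin L)))
    (fun l : Fin L => n ≤ l.val)
  rw [h1, Finset.card_univ, Fintype.card_fin] at h2
  omega

/-- the lower estimate -/
theorem low (hRAD : Stmt_RAD.{u, v, w}) (hτ : ProdF τ) (J : Finset ℕ) (hL : 1 ≤ L)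
    (hJ : 2 * n * J.card ≤ L) :
    (J.card : ℝ) * (∑ i, ‖x i‖ ^ 2) / 2 ≤
      rad (fun a : Fin n × J => tf 𝕜 τ hτm hn x a.1 a.2) := by
  classical
  have hLpos : (0 : ℝ) < L := by exact_mod_cast hL
  set g : Fin n × J → ℕ → Fin L → ℝ≥0∞ := fun a m l =>
    if m = a.2 then (if l = Fin.castLE hn a.1 then 1 else 0) else (if n ≤ l.val then 1 else 0)
    with hg
  -- pointwise
  have pt : ∀ ω, ∑ a : Fin n × J, ENNReal.ofReal (L * ‖x a.1‖ ^ 2) * ∏ m ∈ J, g a m (τ m ω) ≤
      ENNReal.ofReal (rad (fun a : Fin n × J => yf 𝕜 τ hn x ω a.1 a.2)) := by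
    intro ω
    by_cases hex : ∃ a : Fin n × J, ∏ m ∈ J, g a m (τ m ω) ≠ 0
    · obtain ⟨a, ha⟩ := hex
      rw [Finset.prod_ne_zero_iff] at ha
      have h1 : τ a.2 ω = Fin.castLE hn a.1 := by
        have := ha a.2 a.2.2
        simp only [hg, if_true] at this
        by_contra hne
        simp [hne] at this
      have h2 : ∀ m ∈ J, m ≠ a.2 → n ≤ (τ m ω).val := by
        intro m hm hne
        have := ha m hm
        simp only [hg, hne, if_false] at this
        by_contra hlt
        simp [hlt] at this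
      have h3 : ∀ b : Fin n × J, b ≠ a → ∏ m ∈ J, g b m (τ m ω) = 0 := by
        intro b hb
        apply Finset.prod_eq_zero a.2.2
        by_cases hb2 : (a.2 : ℕ) = b.2
        · have hb1 : b.1 ≠ a.1 := by
            intro h
            apply hb
            exact Prod.ext h (Subtype.ext hb2.symm)
          simp only [hg, hb2, if_true]
          rw [← hb2, h1, if_neg]
          intro h
          exact hb1 (Fin.castLE_injective hn h).symm
        · simp only [hg, hb2, if_false]
          rw [h1, if_neg]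
          simp
      have h4 : ∀ b : Fin n × J, b ≠ a → yf 𝕜 τ hn x ω b.1 b.2 = 0 := by
        intro b hb
        unfold yf
        rw [if_neg]
        intro h
        by_cases hb2 : (b.2 : ℕ) = a.2
        · have hb1 : b.1 ≠ a.1 := by
            intro h
            apply hb
            exact Prod.ext h (Subtype.ext hb2)
          rw [hb2, h1] at h
          exact hb1 (Fin.castLE_injective hn h).symm
        · have := h2 b.2 b.2.2 hb2
          rw [h] at this
          have := b.1.2
          simp at *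
          omega
      rw [Finset.sum_eq_single a (fun b _ hb => by rw [h3 b hb, mul_zero]) (by simp)]
      rw [hRAD.2.2 X (Fin n × J) _ a h4]
      have h5 : ‖yf 𝕜 τ hn x ω a.1 a.2‖ ^ 2 = L * ‖x a.1‖ ^ 2 := by
        unfold yf
        rw [if_pos h1, norm_cv]
      rw [h5]
      have h6 : ∏ m ∈ J, g a m (τ m ω) ≤ 1 := by
        apply Finset.prod_le_one
        · intro m _; exact zero_le
        · intro m _
          simp only [hg]
          split_ifs <;> simp
      calc _ ≤ ENNReal.ofReal (L * ‖x a.1‖ ^ 2) * 1 := by gcongr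
        _ = _ := mul_one _
    · push Not at hex
      rw [Finset.sum_eq_zero (fun a _ => by rw [hex a, mul_zero])]
      exact zero_le
  -- the products
  have pr : ∀ a : Fin n × J, ENNReal.ofReal (1 / (2 * L)) ≤
      ∏ m ∈ J, ((∑ l, g a m l) / L) := by
    intro a
    rw [← Finset.mul_prod_erase J _ a.2.2]
    have h1 : (∑ l, g a a.2 l) = 1 := by
      simp only [hg, if_true]
      simp
    have h2 : ∀ m ∈ J.erase a.2, (∑ l, g a m l) / L = ENNReal.ofReal (1 - n / L) := by
      intro m hm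
      have hne : m ≠ a.2 := Finset.ne_of_mem_erase hm
      simp only [hg, hne, if_false]
      rw [card_ge hn]
      rw [show (1 - n / (L : ℝ)) = ((L - n : ℕ) : ℝ) / L by
        rw [Nat.cast_sub hn]; field_simp]
      rw [ENNReal.ofReal_div_of_pos hLpos, ENNReal.ofReal_natCast, ENNReal.ofReal_natCast]
    have hnL : (n : ℝ) / L ≤ 1 := by
      rw [div_le_one hLpos]; exact_mod_cast hn
    rw [h1, Finset.prod_congr rfl h2, Finset.prod_const, ← ENNReal.ofReal_pow (by linarith)]
    have h3 : (1 : ℝ≥0∞) / L = ENNReal.ofReal (1 / L) := by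
      rw [ENNReal.ofReal_div_of_pos hLpos, ENNReal.ofReal_one, ENNReal.ofReal_natCast]
    rw [h3, ← ENNReal.ofReal_mul (by positivity)]
    apply ENNReal.ofReal_le_ofReal
    have h4 : (1 : ℝ) / 2 ≤ (1 - n / L) ^ (J.erase (a.2 : ℕ)).card := by
      have h5 := one_add_mul_le_pow (a := -((n : ℝ) / L)) (by linarith) (J.erase (a.2 : ℕ)).card
      have h6 : ((J.erase (a.2 : ℕ)).card : ℝ) ≤ J.card := by
        exact_mod_cast Finset.card_erase_le
      have h7 : ((J.card : ℝ)) * (n / L) ≤ 1 / 2 := by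
        rw [mul_div_assoc', div_le_iff₀ hLpos]
        have : ((2 * n * J.card : ℕ) : ℝ) ≤ L := by exact_mod_cast hJ
        push_cast at this
        linarith
      have h8 : ((J.erase (a.2 : ℕ)).card : ℝ) * (n / L) ≤ J.card * (n / L) := by
        gcongr
      rw [show (1 - (n : ℝ) / L) = 1 + -((n : ℝ) / L) by ring]
      linarith
    calc 1 / (2 * (L : ℝ)) = 1 / L * (1 / 2) := by field_simp
      _ ≤ _ := by gcongr
  have main : ENNReal.ofReal ((J.card : ℝ) * (∑ i, ‖x i‖ ^ 2) / 2) ≤
      ENNReal.ofReal (rad (fun a : Fin n × J => tf 𝕜 τ hτm hn x a.1 a.2)) := by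
    rw [rad_tf 𝕜 τ hτm hn x hRAD J]
    calc ENNReal.ofReal ((J.card : ℝ) * (∑ i, ‖x i‖ ^ 2) / 2)
        = ∑ a : Fin n × J, ENNReal.ofReal (L * ‖x a.1‖ ^ 2) * ENNReal.ofReal (1 / (2 * L)) := by
          have h1 : ∀ a : Fin n × J, ENNReal.ofReal (L * ‖x a.1‖ ^ 2) *
              ENNReal.ofReal (1 / (2 * L)) = ENNReal.ofReal (‖x a.1‖ ^ 2 / 2) := by
            intro a
            rw [← ENNReal.ofReal_mul (by positivity)]
            congr 1
            field_simp
          rw [Finset.sum_congr rfl (fun a _ => h1 a),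
            ← ENNReal.ofReal_sum_of_nonneg (fun a _ => by positivity)]
          congr 1
          rw [Fintype.sum_prod_type]
          simp only [Finset.sum_const, Finset.card_univ, Fintype.card_coe, nsmul_eq_mul]
          rw [← Finset.mul_sum, ← Finset.sum_div]
          ring
      _ ≤ ∑ a : Fin n × J, ENNReal.ofReal (L * ‖x a.1‖ ^ 2) * ∏ m ∈ J, ((∑ l, g a m l) / L) := by
          gcongr with a _
          exact pr a
      _ = ∑ a : Fin n × J, ENNReal.ofReal (L * ‖x a.1‖ ^ 2) *
            ∫⁻ ω, ∏ m ∈ J, g a m (τ m ω) := by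
          refine Finset.sum_congr rfl fun a _ => ?_
          rw [hτ J (g a)]
      _ = ∫⁻ ω, ∑ a : Fin n × J, ENNReal.ofReal (L * ‖x a.1‖ ^ 2) *
            ∏ m ∈ J, g a m (τ m ω) := by
          have hmeas : ∀ a : Fin n × J, Measurable fun ω => ∏ m ∈ J, g a m (τ m ω) := by
            intro a
            apply Finset.measurable_prod
            intro m _
            exact (measurable_of_finite (g a m)).comp (hτm m)
          rw [lintegral_finsetSum _ (fun a _ => (hmeas a).const_mul _)]
          refine Finset.sum_congr rfl fun a _ => ?_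
          rw [lintegral_const_mul _ (hmeas a)]
      _ ≤ _ := lintegral_mono pt
  have hnn : 0 ≤ rad (fun a : Fin n × J => tf 𝕜 τ hτm hn x a.1 a.2) := by
    unfold rad
    positivity
  exact (ENNReal.ofReal_le_ofReal_iff hnn).1 main

end

end DLP
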