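import Pool.Agent.DLP.Defs

/-!
# `MP_19fa38_an`, module ORT: orthogonality of signs
-/

open scoped BigOperators ComplexConjugate

namespace DLP

universe v

namespace ORT_

/-- The sign as a real number. -/
def s (b : Bool) : ℝ := if b then 1 else -1

lemma s_mul_self (b : Bool) : s b * s b = 1 := by
  cases b <;> simp [s]

lemma s_not (b : Bool) : s (!b) = - s b := by
  cases b <;> simp [s]

lemma sum_s {A : Type} [Fintype A] [DecidableEq A] (a b : A) :
    ∑ ε : A → Bool, s (ε a) * s (ε b) = if a = b then (2 : ℝ) ^ (Fintype.card A) else 0 := by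
  split_ifs with h
  · subst h
    simp only [s_mul_self]
    simp
  · apply Finset.sum_involution (fun ε _ => Function.update ε a (!ε a))
    · intro ε _
      have : Function.update ε a (!ε a) b = ε b := Function.update_of_ne (Ne.symm h) _ _
      rw [Function.update_self, this, s_not]
      ring
    · intro ε _ _ hε
      have := congrFun hε a
      rw [Function.update_self] at this
      cases h2 : ε a <;> simp [h2] at this
    · intro ε _
      ext c
      by_cases hc : c = a
      · subst hc; simp
      · simp [Function.update_of_ne hc]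
    · intro ε _
      exact Finset.mem_univ _

lemma sgn_eq {𝕜 : Type v} [RCLike 𝕜] (b : Bool) (x : 𝕜) : sgn b x = (s b : 𝕜) * x := by
  cases b <;> simp [sgn, s]

lemma norm_sq_rsum {𝕜 : Type v} [RCLike 𝕜] {A : Type} [Fintype A] (x : A → 𝕜)
    (ε : A → Bool) : ‖rsum x ε‖ ^ 2 =
      ∑ a, ∑ b, s (ε a) * s (ε b) * RCLike.re (x a * conj (x b)) := by
  have h : (‖rsum x ε‖ ^ 2 : ℝ) = RCLike.re (rsum x ε * conj (rsum x ε)) := by
    rw [RCLike.mul_conj]
    norm_cast
  rw [h, rsum, map_sum, Finset.sum_mul, map_sum]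
  refine Finset.sum_congr rfl fun a _ => ?_
  rw [Finset.mul_sum, map_sum]
  refine Finset.sum_congr rfl fun b _ => ?_
  rw [sgn_eq, sgn_eq, RingHom.map_mul, RCLike.conj_ofReal]
  have : (s (ε a) : 𝕜) * x a * ((s (ε b) : 𝕜) * conj (x b)) =
      ((s (ε a) * s (ε b) : ℝ) : 𝕜) * (x a * conj (x b)) := by
    push_cast
    ring
  rw [this, RCLike.re_ofReal_mul]

end ORT_

open ORT_

theorem ort : Stmt_ORT.{v} := by
  intro 𝕜 _ A _ _ x
  simp only [norm_sq_rsum]
  rw [Finset.sum_comm]
  have h : ∀ a : A, ∑ ε : A → Bool, ∑ b, s (ε a) * s (ε b) * RCLike.re (x a * conj (x b)) =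
      2 ^ Fintype.card A * ‖x a‖ ^ 2 := by
    intro a
    rw [Finset.sum_comm]
    simp only [← Finset.sum_mul, sum_s]
    rw [Finset.sum_eq_single a]
    · rw [if_pos rfl, RCLike.mul_conj]
      norm_cast
    · intro b _ hb
      rw [if_neg (Ne.symm hb), zero_mul]
    · intro h
      exact absurd (Finset.mem_univ a) h
  simp only [h]
  rw [← Finset.mul_sum, mul_div_cancel_left₀]
  positivity

end DLP
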