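import Pool.Agent.DLP.Defs

/-!
# DLP, module RAD
-/

open MeasureTheory ProbabilityTheory
open scoped ENNReal unitInterval

namespace DLP

universe u v w

namespace RAD_

theorem map_sgn {E F G : Type*} [AddCommGroup E] [AddCommGroup F] [FunLike G E F]
    [AddMonoidHomClass G E F] (T : G) (b : Bool) (x : E) : T (sgn b x) = sgn b (T x) := by
  unfold sgn
  split_ifs
  · rfl
  · exact map_neg T x

theorem map_rsum {A E F G : Type*} [Fintype A] [AddCommGroup E] [AddCommGroup F] [FunLike G E F]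
    [AddMonoidHomClass G E F] (T : G) (x : A → E) (ε : A → Bool) :
    rsum (fun a => T (x a)) ε = T (rsum x ε) := by
  unfold rsum
  rw [map_sum]
  apply Finset.sum_congr rfl
  intro a _
  rw [map_sgn]

theorem coe_sum {A X Ω : Type*} [NormedAddCommGroup X] [MeasurableSpace Ω] {μ : Measure Ω}
    {p : ℝ≥0∞} (s : Finset A) (g : A → Lp X p μ) :
    ((∑ a ∈ s, g a : Lp X p μ) : Ω → X) =ᵐ[μ] fun ω => ∑ a ∈ s, g a ω := by
  classical
  induction s using Finset.induction_on with
  | empty =>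
    simp only [Finset.sum_empty]
    exact Lp.coeFn_zero X p μ
  | insert a s ha ih =>
    rw [Finset.sum_insert ha]
    filter_upwards [Lp.coeFn_add (g a) (∑ a ∈ s, g a), ih] with ω h1 h2
    rw [h1, Pi.add_apply, h2, Finset.sum_insert ha]

theorem coe_sgn {X Ω : Type*} [NormedAddCommGroup X] [MeasurableSpace Ω] {μ : Measure Ω}
    {p : ℝ≥0∞} (b : Bool) (g : Lp X p μ) :
    ((sgn b g : Lp X p μ) : Ω → X) =ᵐ[μ] fun ω => sgn b (g ω) := by
  unfold sgn
  split_ifs
  · exact Filter.EventuallyEq.rfl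
  · filter_upwards [Lp.coeFn_neg g] with ω h1
    rw [h1, Pi.neg_apply]

theorem coe_rsum {A X Ω : Type*} [Fintype A] [NormedAddCommGroup X] [MeasurableSpace Ω]
    {μ : Measure Ω} {p : ℝ≥0∞} (f : A → Lp X p μ) (ε : A → Bool) :
    ((rsum f ε : Lp X p μ) : Ω → X) =ᵐ[μ] fun ω => rsum (fun a => f a ω) ε := by
  unfold rsum
  have h2 : ∀ᵐ ω ∂μ, ∀ a ∈ (Finset.univ : Finset A), (sgn (ε a) (f a) : Lp X p μ) ω =
      sgn (ε a) (f a ω) := by
    rw [Filter.eventually_all_finset]
    intro a _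
    exact coe_sgn (ε a) (f a)
  filter_upwards [coe_sum Finset.univ (fun a => sgn (ε a) (f a)), h2] with ω h1 h3
  rw [h1]
  exact Finset.sum_congr rfl h3

theorem norm_sq {X Ω : Type*} [NormedAddCommGroup X] [MeasurableSpace Ω] {μ : Measure Ω}
    (g : Lp X 2 μ) : ENNReal.ofReal (‖g‖ ^ 2) = ∫⁻ ω, ENNReal.ofReal (‖g ω‖ ^ 2) ∂μ := by
  have h1 := eLpNorm_nnreal_pow_eq_lintegral (μ := μ) (f := (g : Ω → X)) (p := 2) (by norm_num)
  have h2 : ENNReal.ofReal (‖g‖ ^ 2) = (eLpNorm (g : Ω → X) 2 μ) ^ 2 := by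
    rw [ENNReal.ofReal_pow (norm_nonneg _), ofReal_norm, Lp.enorm_def]
  rw [h2]
  have h3 : (eLpNorm (g : Ω → X) 2 μ) ^ 2 =
      eLpNorm (g : Ω → X) ((2 : NNReal) : ℝ≥0∞) μ ^ ((2 : NNReal) : ℝ) := by
    rw [← ENNReal.rpow_natCast]
    norm_num
  rw [h3, h1]
  apply lintegral_congr
  intro ω
  rw [ENNReal.ofReal_pow (norm_nonneg _), ofReal_norm, ← ENNReal.rpow_natCast]
  norm_num

end RAD_

open RAD_ in
theorem rad_proof : Stmt_RAD.{u, v, w} := by
  refine ⟨?_, ?_, ?_⟩
  · intro 𝕜 _ E F _ _ _ _ T c hc hT A _ _ x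
    have e : ∀ ε : A → Bool, rsum (fun a => T (x a)) ε = T (rsum x ε) := fun ε => map_rsum T x ε
    have hp : (0 : ℝ) < 2 ^ (Fintype.card A) := by positivity
    unfold rad
    constructor
    · rw [← mul_div_assoc, Finset.mul_sum]
      apply div_le_div_of_nonneg_right _ hp.le
      apply Finset.sum_le_sum
      intro ε _
      rw [e, ← mul_pow]
      exact pow_le_pow_left₀ (by positivity) (hT _) 2
    · rw [← mul_div_assoc, Finset.mul_sum]
      apply div_le_div_of_nonneg_right _ hp.le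
      apply Finset.sum_le_sum
      intro ε _
      rw [e, ← mul_pow]
      exact pow_le_pow_left₀ (norm_nonneg _) (T.le_opNorm _) 2
  · intro X _ A _ _ f
    unfold rad
    have hc : (0 : ℝ) ≤ ((2 : ℝ) ^ (Fintype.card A))⁻¹ := by positivity
    have e1 : ∀ S : ℝ, ENNReal.ofReal (S / 2 ^ (Fintype.card A)) =
        ENNReal.ofReal (((2 : ℝ) ^ (Fintype.card A))⁻¹) * ENNReal.ofReal S := by
      intro S
      rw [← ENNReal.ofReal_mul hc, div_eq_mul_inv, mul_comm]
    simp only [e1]
    rw [lintegral_const_mul' _ _ ENNReal.ofReal_ne_top]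
    congr 1
    rw [ENNReal.ofReal_sum_of_nonneg (fun _ _ => by positivity)]
    have e2 : ∀ ω, ENNReal.ofReal (∑ ε : A → Bool, ‖rsum (fun a => f a ω) ε‖ ^ 2) =
        ∑ ε : A → Bool, ENNReal.ofReal (‖rsum (fun a => f a ω) ε‖ ^ 2) := fun ω =>
      ENNReal.ofReal_sum_of_nonneg (fun _ _ => by positivity)
    simp only [e2]
    have e3 : ∀ ε : A → Bool, (fun ω => ENNReal.ofReal (‖(rsum f ε : DiestelL2.L2V X) ω‖ ^ 2))
        =ᵐ[volume] fun ω => ENNReal.ofReal (‖rsum (fun a => f a ω) ε‖ ^ 2) := by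
      intro ε
      filter_upwards [coe_rsum f ε] with ω h
      rw [h]
    rw [lintegral_finsetSum']
    · apply Finset.sum_congr rfl
      intro ε _
      rw [norm_sq]
      exact lintegral_congr_ae (e3 ε)
    · intro ε _
      refine AEMeasurable.congr ?_ (e3 ε)
      exact ((Lp.aestronglyMeasurable (rsum f ε)).norm.aemeasurable.pow_const 2).ennreal_ofReal
  · intro X _ A _ _ x a hx
    have e : ∀ ε : A → Bool, ‖rsum x ε‖ ^ 2 = ‖x a‖ ^ 2 := by
      intro ε
      have h1 : rsum x ε = sgn (ε a) (x a) := by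
        unfold rsum
        rw [Finset.sum_eq_single a]
        · intro b _ hb
          rw [hx b hb]
          unfold sgn
          split_ifs
          · rfl
          · exact neg_zero
        · intro h
          exact absurd (Finset.mem_univ a) h
      rw [h1]
      unfold sgn
      split_ifs
      · rfl
      · rw [norm_neg]
    unfold rad
    simp only [e]
    rw [Finset.sum_const, Finset.card_univ, Fintype.card_fun, Fintype.card_bool, nsmul_eq_mul]
    push_cast
    field_simp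

end DLP
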