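import Pool.Agent.DLP.Defs
import Pool.Agent.DiestelL2.Kwap
import Pool.Agent.DiestelL2.Hil

set_option autoImplicit false

/-!
# Rademacher averages and Gaussian averages; Kwapień's theorem
-/

open MeasureTheory ProbabilityTheory
open scoped ENNReal unitInterval

namespace DLP

universe u v w

namespace RGK_

open DiestelL2 (gam)

theorem gauss_sq : Integrable (fun x : ℝ => x ^ 2) (gaussianReal 0 1) ∧
    ∫ x, x ^ 2 ∂(gaussianReal 0 1) = 1 := by
  have h1 : MemLp (id : ℝ → ℝ) 2 (gaussianReal 0 1) := memLp_id_gaussianReal 2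
  refine ⟨h1.integrable_sq, ?_⟩
  have h2 := variance_id_gaussianReal (μ := 0) (v := 1)
  rw [variance_of_integral_eq_zero aemeasurable_id (by simp)] at h2
  simpa using h2

theorem coord_sq (n : ℕ) (j : Fin n) : Integrable (fun t : Fin n → ℝ => t j ^ 2) (gam n) ∧
    ∫ t, t j ^ 2 ∂(gam n) = 1 := by
  have hmp : MeasurePreserving (Function.eval j) (gam n) (gaussianReal 0 1) :=
    measurePreserving_eval (fun _ : Fin n => gaussianReal 0 1) j
  have hm : AEStronglyMeasurable (fun x : ℝ => x ^ 2) (gaussianReal 0 1) :=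
    (continuous_pow 2).aestronglyMeasurable
  refine ⟨?_, ?_⟩
  · have h := (hmp.integrable_comp hm).2 gauss_sq.1
    exact h
  · have h : ∫ t, (fun x : ℝ => x ^ 2) (Function.eval j t) ∂(gam n) =
        ∫ x, x ^ 2 ∂((gam n).map (Function.eval j)) := by
      rw [integral_map hmp.measurable.aemeasurable]
      rw [hmp.map_eq]
      exact hm
    rw [hmp.map_eq, gauss_sq.2] at h
    exact h

theorem integrable_norm_sq {E : Type*} [NormedAddCommGroup E] [NormedSpace ℝ E] {n : ℕ}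
    (x : Fin n → E) : Integrable (fun t : Fin n → ℝ => ‖∑ j, t j • x j‖ ^ 2) (gam n) := by
  have hg : Integrable (fun t : Fin n → ℝ => (n : ℝ) * ∑ j, t j ^ 2 * ‖x j‖ ^ 2) (gam n) := by
    refine Integrable.const_mul ?_ _
    refine integrable_finsetSum _ fun j _ => ?_
    exact (coord_sq n j).1.mul_const _
  refine hg.mono' (Continuous.aestronglyMeasurable (by fun_prop)) ?_
  refine Filter.Eventually.of_forall fun t => ?_
  rw [Real.norm_of_nonneg (by positivity)]
  have h1 : ‖∑ j, t j • x j‖ ≤ ∑ j, |t j| * ‖x j‖ := by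
    refine (norm_sum_le _ _).trans (le_of_eq ?_)
    exact Finset.sum_congr rfl fun j _ => by rw [norm_smul, Real.norm_eq_abs]
  calc ‖∑ j, t j • x j‖ ^ 2 ≤ (∑ j, |t j| * ‖x j‖) ^ 2 := by gcongr
    _ ≤ (Finset.univ : Finset (Fin n)).card * ∑ j, (|t j| * ‖x j‖) ^ 2 :=
        sq_sum_le_card_mul_sum_sq
    _ = (n : ℝ) * ∑ j, t j ^ 2 * ‖x j‖ ^ 2 := by
        rw [Finset.card_univ, Fintype.card_fin]
        congr 1
        refine Finset.sum_congr rfl fun j _ => ?_
        rw [mul_pow, sq_abs]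

theorem sgn_smul {E : Type*} [AddCommGroup E] [Module ℝ E] (b : Bool) (c : ℝ) (x : E) :
    sgn b (c • x) = c • sgn b x := by
  unfold sgn
  split_ifs
  · rfl
  · rw [smul_neg]

theorem int_sgn {E : Type*} [NormedAddCommGroup E] [NormedSpace ℝ E] {n : ℕ}
    (x : Fin n → E) (ε : Fin n → Bool) :
    ∫ t, ‖rsum (fun j => t j • x j) ε‖ ^ 2 ∂(gam n) = ∫ t, ‖∑ j, t j • x j‖ ^ 2 ∂(gam n) := by
  have h := DiestelL2.law_eq (fun j => sgn (ε j) (x j)) x (by
    intro φ
    refine Finset.sum_congr rfl fun j _ => ?_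
    simp only [sgn]
    split_ifs
    · rfl
    · rw [map_neg, neg_sq])
  rw [← h]
  congr 1
  funext t
  simp only [rsum, sgn_smul]

theorem integrable_sgn {E : Type*} [NormedAddCommGroup E] [NormedSpace ℝ E] {n : ℕ}
    (x : Fin n → E) (ε : Fin n → Bool) :
    Integrable (fun t : Fin n → ℝ => ‖rsum (fun j => t j • x j) ε‖ ^ 2) (gam n) := by
  have h := integrable_norm_sq (fun j => sgn (ε j) (x j))
  refine h.congr (Filter.Eventually.of_forall fun t => ?_)
  simp only [rsum, sgn_smul]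

theorem integrable_rad {E : Type*} [NormedAddCommGroup E] [NormedSpace ℝ E] {n : ℕ}
    (x : Fin n → E) :
    Integrable (fun t : Fin n → ℝ => rad (fun j => t j • x j)) (gam n) := by
  unfold rad
  refine Integrable.div_const ?_ _
  exact integrable_finsetSum _ fun ε _ => integrable_sgn x ε

theorem int_rad {E : Type*} [NormedAddCommGroup E] [NormedSpace ℝ E] {n : ℕ}
    (x : Fin n → E) :
    ∫ t, rad (fun j => t j • x j) ∂(gam n) = ∫ t, ‖∑ j, t j • x j‖ ^ 2 ∂(gam n) := by
  unfold rad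
  rw [integral_div, integral_finsetSum _ (fun ε _ => integrable_sgn x ε)]
  simp only [int_sgn]
  rw [Finset.sum_const, Finset.card_univ, Fintype.card_fun, Fintype.card_bool, nsmul_eq_mul]
  push_cast
  field_simp

end RGK_

open RGK_ in
theorem rgk : Stmt_RGK.{u, v} := by
  intro 𝕜 _ X _ _ _ K hK h1 h2
  let _ : NormedSpace ℝ X := NormedSpace.restrictScalars ℝ 𝕜 X
  have hsm : ∀ (c : ℝ) (x : X), c • x = (c : 𝕜) • x := fun c x => rfl
  have hsum : ∀ (n : ℕ) (x : Fin n → X),
      Integrable (fun t : Fin n → ℝ => ∑ j, ‖t j • x j‖ ^ 2) (DiestelL2.gam n) ∧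
      ∫ t, ∑ j, ‖t j • x j‖ ^ 2 ∂(DiestelL2.gam n) = ∑ j, ‖x j‖ ^ 2 := by
    intro n x
    have e : ∀ (t : Fin n → ℝ) (j : Fin n), ‖t j • x j‖ ^ 2 = t j ^ 2 * ‖x j‖ ^ 2 := by
      intro t j
      rw [norm_smul, mul_pow, Real.norm_eq_abs, sq_abs]
    simp only [e]
    refine ⟨integrable_finsetSum _ fun j _ => (coord_sq n j).1.mul_const _, ?_⟩
    rw [integral_finsetSum _ (fun j _ => (coord_sq n j).1.mul_const _)]
    refine Finset.sum_congr rfl fun j _ => ?_
    rw [integral_mul_const, (coord_sq n j).2, one_mul]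
  have hup : ∀ (n : ℕ) (x : Fin n → X),
      ∫ t, ‖∑ j, t j • x j‖ ^ 2 ∂(DiestelL2.gam n) ≤ K * ∑ j, ‖x j‖ ^ 2 := by
    intro n x
    rw [← int_rad, ← (hsum n x).2, ← integral_const_mul]
    exact integral_mono (integrable_rad x) ((hsum n x).1.const_mul K)
      (fun t => h1 n fun j => t j • x j)
  have hlo : ∀ (n : ℕ) (x : Fin n → X),
      ∑ j, ‖x j‖ ^ 2 ≤ K * ∫ t, ‖∑ j, t j • x j‖ ^ 2 ∂(DiestelL2.gam n) := by
    intro n x
    rw [← int_rad, ← (hsum n x).2, ← integral_const_mul]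
    exact integral_mono (hsum n x).1 ((integrable_rad x).const_mul K)
      (fun t => h2 n fun j => t j • x j)
  obtain ⟨B, hB1, hB2⟩ := DiestelL2.kwap X K hK hup hlo
  exact DiestelL2.hil 𝕜 X (fun x y => B x y) (K ^ 2)
    (fun x y z => by simp) (fun c x y => by rw [← hsm]; simp) hB1 (fun x => (hB2 x).1)
    (fun x => (hB2 x).2)

end DLP
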