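import Pool.Agent.DLP.Defs

set_option autoImplicit false

open MeasureTheory ProbabilityTheory
open scoped ENNReal

namespace DLP

universe v w

namespace SQL_

lemma enorm_ofReal {E : Type*} [NormedAddCommGroup E] (z : E) (p : ℝ) (hp : 0 ≤ p) :
    ‖z‖ₑ ^ p = ENNReal.ofReal (‖z‖ ^ p) := by
  rw [← ofReal_norm, ENNReal.ofReal_rpow_of_nonneg (norm_nonneg z) hp]

/-- The norm on `L_p` as a lower integral. -/
lemma enorm_Lp {𝕜 : Type*} [RCLike 𝕜] {Ω : Type*} [MeasurableSpace Ω] {μ : Measure Ω}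
    {p : ℝ≥0∞} (hp0 : p ≠ 0) (hpt : p ≠ ∞) (f : Lp 𝕜 p μ) :
    ‖f‖ₑ ^ p.toReal = ∫⁻ t, ‖f t‖ₑ ^ p.toReal ∂μ := by
  have hpr : 0 < p.toReal := ENNReal.toReal_pos hp0 hpt
  rw [Lp.enorm_def, eLpNorm_eq_lintegral_rpow_enorm_toReal hp0 hpt, ← ENNReal.rpow_mul, one_div,
    inv_mul_cancel₀ hpr.ne', ENNReal.rpow_one]

lemma rsum_coe {𝕜 : Type*} [RCLike 𝕜] {Ω : Type*} [MeasurableSpace Ω] {μ : Measure Ω}
    {p : ℝ≥0∞} {A : Type*} [Fintype A] (x : A → Lp 𝕜 p μ) (ε : A → Bool) :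
    ∀ᵐ t ∂μ, (rsum x ε : Lp 𝕜 p μ) t = rsum (fun a => x a t) ε := by
  have h1 := Lp.coeFn_finsetSum (μ := μ) (p := p) Finset.univ (fun a => sgn (ε a) (x a))
  have h2 : ∀ᵐ t ∂μ, ∀ a, (sgn (ε a) (x a) : Lp 𝕜 p μ) t = sgn (ε a) (x a t) := by
    rw [ae_all_iff]
    intro a
    unfold sgn
    by_cases h : ε a = true
    · simp [h]
    · simp only [h]
      filter_upwards [Lp.coeFn_neg (x a)] with t ht
      simpa using ht
  filter_upwards [h1, h2] with t h3 h4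
  unfold rsum
  rw [h3, Finset.sum_apply]
  exact Finset.sum_congr rfl fun a _ => h4 a

lemma enorm_sq_eq {E : Type*} [NormedAddCommGroup E] (z : E) :
    ‖z‖ₑ ^ 2 = ENNReal.ofReal (‖z‖ ^ 2) := by
  rw [← ofReal_norm, ENNReal.ofReal_pow (norm_nonneg z)]

lemma ofReal_mean {B : Type*} [Fintype B] (f : B → ℝ) (hf : ∀ b, 0 ≤ f b) (n : ℕ) :
    ENNReal.ofReal ((∑ b, f b) / 2 ^ n) = ∑ b, (2 ^ n : ℝ≥0∞)⁻¹ * ENNReal.ofReal (f b) := by
  rw [ENNReal.ofReal_div_of_pos (by positivity), ENNReal.ofReal_sum_of_nonneg fun b _ => hf b,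
    ← Finset.mul_sum, ENNReal.div_eq_inv_mul, ENNReal.ofReal_pow (by norm_num)]
  simp

lemma card_mean (A : Type*) [Fintype A] [DecidableEq A] :
    ∑ _ε : A → Bool, (2 ^ (Fintype.card A) : ℝ≥0∞)⁻¹ = 1 := by
  rw [Finset.sum_const, Finset.card_univ, Fintype.card_fun, Fintype.card_bool, nsmul_eq_mul]
  push_cast
  exact ENNReal.mul_inv_cancel (by positivity) (by finiteness)

/-- Minkowski's inequality for finite sums. -/
lemma mink {Ω : Type*} [MeasurableSpace Ω] {μ : Measure Ω} {q : ℝ} (hq : 1 ≤ q) {B : Type*}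
    (s : Finset B) (f : B → Ω → ℝ≥0∞) (hf : ∀ b, AEMeasurable (f b) μ) :
    (∫⁻ t, (∑ b ∈ s, f b t) ^ q ∂μ) ^ (1 / q) ≤ ∑ b ∈ s, (∫⁻ t, f b t ^ q ∂μ) ^ (1 / q) := by
  classical
  have hq0 : 0 < q := by linarith
  induction s using Finset.induction_on with
  | empty =>
    simp only [Finset.sum_empty]
    rw [ENNReal.zero_rpow_of_pos hq0, lintegral_zero, ENNReal.zero_rpow_of_pos (by positivity)]
  | insert b s hb ih =>
    simp only [Finset.sum_insert hb]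
    have h1 := ENNReal.lintegral_Lp_add_le (μ := μ) (p := q) (f := f b)
      (g := fun t => ∑ b ∈ s, f b t) (hf b)
      (Finset.aemeasurable_fun_sum s fun b _ => hf b) hq
    exact h1.trans (add_le_add le_rfl ih)

/-- Scaling. -/
lemma rho_smul {Ω : Type*} [MeasurableSpace Ω] {μ : Measure Ω} {q : ℝ} (hq : 1 ≤ q)
    (c : ℝ≥0∞) (hc : c ≠ ∞) (f : Ω → ℝ≥0∞) (hf : AEMeasurable f μ) :
    (∫⁻ t, (c * f t) ^ q ∂μ) ^ (1 / q) = c * (∫⁻ t, f t ^ q ∂μ) ^ (1 / q) := by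
  have hq0 : 0 < q := by linarith
  have h1 : ∀ t, (c * f t) ^ q = c ^ q * f t ^ q := fun t =>
    ENNReal.mul_rpow_of_nonneg _ _ hq0.le
  simp only [h1]
  rw [lintegral_const_mul' _ _ (by finiteness), ENNReal.mul_rpow_of_nonneg _ _ (by positivity),
    ← ENNReal.rpow_mul, mul_one_div_cancel hq0.ne', ENNReal.rpow_one]

lemma sq_rpow (z : ℝ≥0∞) (r : ℝ) : (z ^ 2) ^ (r / 2) = z ^ r := by
  rw [← ENNReal.rpow_natCast, ← ENNReal.rpow_mul]
  congr 1
  push_cast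
  ring

end SQL_

open SQL_ in
theorem sql (h1 : Stmt_KHI.{v}) (h2 : Stmt_ORT.{v}) : Stmt_SQL.{v, w} := by
  intro P hP
  obtain ⟨K, hK1, hK⟩ := h1 P hP
  refine ⟨ENNReal.ofReal K, by rw [ENNReal.one_le_ofReal]; exact hK1, by finiteness, ?_⟩
  intro 𝕜 _ Ω _ μ p _ hp2 hpP A _ _ x
  have hpt : p ≠ ∞ := ne_top_of_le_ne_top ENNReal.ofReal_ne_top hpP
  have hp0 : p ≠ 0 := by
    rintro rfl
    simp at hp2
  set r : ℝ := p.toReal with hr
  have hr2 : 2 ≤ r := by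
    have := ENNReal.toReal_mono hpt hp2
    simpa using this
  have hrP : r ≤ P := by
    have := ENNReal.toReal_mono ENNReal.ofReal_ne_top hpP
    rwa [ENNReal.toReal_ofReal (by linarith)] at this
  set q : ℝ := r / 2 with hq
  have hq1 : 1 ≤ q := by rw [hq]; linarith
  have hq0 : 0 < q := by linarith
  have hqi : 0 < 1 / q := by positivity
  set c : ℝ≥0∞ := (2 ^ (Fintype.card A) : ℝ≥0∞)⁻¹ with hc
  have hct : c ≠ ∞ := by
    rw [hc]
    exact ENNReal.inv_ne_top.2 (by positivity)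
  -- the Rademacher average
  have hrad : ENNReal.ofReal (rad x) = ∑ ε : A → Bool, c * ‖(rsum x ε : Lp 𝕜 p μ)‖ₑ ^ 2 := by
    unfold rad
    rw [ofReal_mean _ fun ε => by positivity]
    simp only [enorm_sq_eq, hc]
  -- almost everywhere identity
  have hae : ∀ᵐ t ∂μ, ∀ ε : A → Bool, (rsum x ε : Lp 𝕜 p μ) t = rsum (fun a => x a t) ε :=
    ae_all_iff.2 fun ε => rsum_coe x ε
  have hm : ∀ ε : A → Bool, AEMeasurable (fun t => ‖(rsum x ε : Lp 𝕜 p μ) t‖ₑ) μ := fun ε =>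
    (Lp.aestronglyMeasurable _).enorm
  have hm2 : ∀ ε : A → Bool, AEMeasurable (fun t => ‖(rsum x ε : Lp 𝕜 p μ) t‖ₑ ^ 2) μ :=
    fun ε => (hm ε).pow_const 2
  -- pointwise orthogonality
  have hort : ∀ᵐ t ∂μ, sqf x t = ∑ ε : A → Bool, c * ‖(rsum x ε : Lp 𝕜 p μ) t‖ₑ ^ 2 := by
    filter_upwards [hae] with t ht
    simp only [ht]
    have h3 := h2 𝕜 A fun a => x a t
    have h4 := congrArg ENNReal.ofReal h3
    rw [ofReal_mean _ fun ε => by positivity, ENNReal.ofReal_sum_of_nonneg fun a _ => by positivity]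
      at h4
    unfold sqf
    simp only [enorm_sq_eq]
    rw [← h4]
  -- norms
  have hnorm : ∀ ε : A → Bool, ‖(rsum x ε : Lp 𝕜 p μ)‖ₑ ^ 2 =
      (∫⁻ t, (‖(rsum x ε : Lp 𝕜 p μ) t‖ₑ ^ 2) ^ q ∂μ) ^ (1 / q) := by
    intro ε
    have h5 := enorm_Lp hp0 hpt (rsum x ε : Lp 𝕜 p μ)
    rw [← hr] at h5
    simp only [hq, sq_rpow]
    rw [← h5, ← ENNReal.rpow_mul, ← ENNReal.rpow_natCast]
    congr 1
    push_cast
    field_simp
  refine ⟨?_, ?_⟩
  · -- Minkowski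
    unfold rho
    rw [lintegral_congr_ae (hort.mono fun t ht => by
      show sqf x t ^ q = _
      rw [ht])]
    refine (mink hq1 Finset.univ (fun (ε : A → Bool) t => c * ‖(rsum x ε : Lp 𝕜 p μ) t‖ₑ ^ 2)
      fun ε => (hm2 ε).const_mul c).trans ?_
    rw [hrad]
    refine Finset.sum_le_sum fun ε _ => ?_
    rw [rho_smul hq1 c hct _ (hm2 ε), hnorm]
  · -- Khintchine
    have hw : ∑ _ε : A → Bool, c = 1 := card_mean A
    have h6 := ENNReal.rpow_arith_mean_le_arith_mean_rpow Finset.univ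
      (fun _ : A → Bool => c) (fun ε => ‖(rsum x ε : Lp 𝕜 p μ)‖ₑ ^ 2) hw hq1
    rw [← hrad] at h6
    have h7 : ∑ ε : A → Bool, c * (‖(rsum x ε : Lp 𝕜 p μ)‖ₑ ^ 2) ^ q ≤
        ENNReal.ofReal K * ∫⁻ t, sqf x t ^ q ∂μ := by
      have h8 : ∀ ε : A → Bool, (‖(rsum x ε : Lp 𝕜 p μ)‖ₑ ^ 2) ^ q =
          ∫⁻ t, ‖(rsum x ε : Lp 𝕜 p μ) t‖ₑ ^ r ∂μ := by
        intro ε
        rw [hq, sq_rpow, hr, enorm_Lp hp0 hpt]
      simp only [h8]
      rw [← lintegral_const_mul' _ _ (by finiteness)]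
      have h9 : ∀ ε : A → Bool, c * ∫⁻ t, ‖(rsum x ε : Lp 𝕜 p μ) t‖ₑ ^ r ∂μ =
          ∫⁻ t, c * ‖(rsum x ε : Lp 𝕜 p μ) t‖ₑ ^ r ∂μ := fun ε =>
        (lintegral_const_mul' _ _ hct).symm
      simp only [h9]
      rw [← lintegral_finsetSum' _ fun ε _ => ((hm ε).pow_const r).const_mul c]
      refine lintegral_mono_ae ?_
      filter_upwards [hae] with t ht
      simp only [ht]
      have h10 := hK 𝕜 r hr2 hrP A fun a => x a t
      have h11 := ENNReal.ofReal_le_ofReal h10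
      rw [ofReal_mean _ fun ε => by positivity, ENNReal.ofReal_mul (by linarith),
        ← ENNReal.ofReal_rpow_of_nonneg (Finset.sum_nonneg fun a _ => by positivity)
          (by linarith), ENNReal.ofReal_sum_of_nonneg fun a _ => by positivity] at h11
      have h12 : ∀ z : 𝕜, ‖z‖ₑ ^ r = ENNReal.ofReal (‖z‖ ^ r) := fun z =>
        enorm_ofReal z r (by linarith)
      simp only [h12]
      unfold sqf
      simp only [enorm_sq_eq]
      exact h11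
    have h13 : ENNReal.ofReal (rad x) ≤ (ENNReal.ofReal K * ∫⁻ t, sqf x t ^ q ∂μ) ^ (1 / q) := by
      have h14 := ENNReal.rpow_le_rpow (h6.trans h7) hqi.le
      rwa [← ENNReal.rpow_mul, mul_one_div_cancel hq0.ne', ENNReal.rpow_one] at h14
    refine h13.trans ?_
    rw [ENNReal.mul_rpow_of_nonneg _ _ hqi.le]
    unfold rho
    refine mul_le_mul_left ?_ _
    have hK1' : 1 ≤ ENNReal.ofReal K := by rw [ENNReal.one_le_ofReal]; exact hK1
    calc ENNReal.ofReal K ^ (1 / q) ≤ ENNReal.ofReal K ^ (1 : ℝ) :=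
          ENNReal.rpow_le_rpow_of_exponent_le hK1' (by rw [div_le_one hq0]; exact hq1)
      _ = ENNReal.ofReal K := ENNReal.rpow_one _

end DLP
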