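import Pool.Agent.DLP.Defs

/-!
# Rademacher averages and the square function in an `ℓ²`-sum of `L_p`-spaces

`MP_19fa38_an`, second result, module SQZ.
-/

open MeasureTheory ProbabilityTheory
open scoped ENNReal unitInterval

namespace DLP

universe v w

namespace SQZ_

theorem summable_sq {ι : Type*} {E : ι → Type*} [∀ i, NormedAddCommGroup (E i)] (f : lp E 2) :
    Summable fun i => ‖f i‖ ^ 2 := by
  have h := (lp.memℓp f).summable (by norm_num)
  simpa using h

theorem norm_sq {ι : Type*} {E : ι → Type*} [∀ i, NormedAddCommGroup (E i)] (f : lp E 2) :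
    ‖f‖ ^ 2 = ∑' i, ‖f i‖ ^ 2 := by
  have := lp.norm_rpow_eq_tsum two_pos f
  norm_num at this
  exact this

theorem coord_sgn {ι : Type*} {E : ι → Type*} [∀ i, NormedAddCommGroup (E i)] (b : Bool)
    (f : lp E 2) (i : ι) : (sgn b f : lp E 2) i = sgn b (f i) := by
  cases b <;> simp [sgn]

theorem coord_rsum {ι A : Type*} [Fintype A] {E : ι → Type*} [∀ i, NormedAddCommGroup (E i)]
    (x : A → lp E 2) (ε : A → Bool) (i : ι) :
    (rsum x ε : lp E 2) i = rsum (fun a => x a i) ε := by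
  unfold rsum
  rw [lp.coeFn_sum, Finset.sum_apply]
  exact Finset.sum_congr rfl fun a _ => coord_sgn _ _ _

theorem rad_nonneg {A E : Type*} [Fintype A] [DecidableEq A] [NormedAddCommGroup E]
    (x : A → E) : 0 ≤ rad x := by
  unfold rad
  positivity

theorem ofReal_rad {ι A : Type*} [Fintype A] [DecidableEq A] {E : ι → Type*}
    [∀ i, NormedAddCommGroup (E i)] (x : A → lp E 2) :
    ENNReal.ofReal (rad x) = ∑' i, ENNReal.ofReal (rad fun a => x a i) := by
  have hs : ∀ ε : A → Bool, Summable fun i => ‖rsum (fun a => x a i) ε‖ ^ 2 := by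
    intro ε
    have := summable_sq (rsum x ε)
    refine this.congr fun i => ?_
    rw [coord_rsum]
  have h1 : rad x = ∑' i, rad fun a => x a i := by
    unfold rad
    rw [tsum_div_const, Summable.tsum_finsetSum fun ε _ => hs ε]
    congr 1
    refine Finset.sum_congr rfl fun ε _ => ?_
    rw [norm_sq]
    exact tsum_congr fun i => by rw [coord_rsum]
  rw [h1]
  refine ENNReal.ofReal_tsum_of_nonneg (fun i => rad_nonneg _) ?_
  unfold rad
  exact (summable_sum fun ε _ => hs ε).div_const _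

theorem rho_sum {Ω : Type*} [MeasurableSpace Ω] {μ : Measure Ω} {q : ℝ} (hq : 1 ≤ q)
    {A : Type*} (s : Finset A) (u : A → Ω → ℝ≥0∞) (hu : ∀ a, AEMeasurable (u a) μ) :
    rho q μ (fun t => ∑ a ∈ s, u a t) ≤ ∑ a ∈ s, rho q μ (u a) := by
  classical
  induction s using Finset.induction_on with
  | empty =>
    simp only [Finset.sum_empty, rho]
    rw [ENNReal.zero_rpow_of_pos (by linarith)]
    simp only [lintegral_const, zero_mul]
    rw [ENNReal.zero_rpow_of_pos (by positivity)]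
  | insert a s ha ih =>
    rw [Finset.sum_insert ha]
    have h2 : AEMeasurable (fun t => ∑ a ∈ s, u a t) μ :=
      Finset.aemeasurable_fun_sum s fun a _ => hu a
    have h := ENNReal.lintegral_Lp_add_le (μ := μ) (hu a) h2 hq
    calc rho q μ (fun t => ∑ a ∈ insert a s, u a t)
        = rho q μ (u a + fun t => ∑ a ∈ s, u a t) := by
          congr 1
          funext t
          rw [Finset.sum_insert ha]
          rfl
      _ ≤ rho q μ (u a) + rho q μ (fun t => ∑ a ∈ s, u a t) := h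
      _ ≤ rho q μ (u a) + ∑ a ∈ s, rho q μ (u a) := by gcongr

theorem rho_single {Ω : Type*} [MeasurableSpace Ω] {μ : Measure Ω} {𝕜 : Type*} [RCLike 𝕜]
    {p : ℝ≥0∞} (h2 : 2 ≤ p) (hp : p ≠ ∞) (f : Lp 𝕜 p μ) :
    rho (p.toReal / 2) μ (fun t => ‖f t‖ₑ ^ 2) = ‖f‖ₑ ^ 2 := by
  have hp0 : p ≠ 0 := by
    rintro rfl
    simp at h2
  have hpos : 0 < p.toReal := ENNReal.toReal_pos hp0 hp
  rw [Lp.enorm_def, eLpNorm_eq_lintegral_rpow_enorm_toReal hp0 hp]
  unfold rho
  have h1 : ∀ t, (‖f t‖ₑ ^ 2) ^ (p.toReal / 2) = ‖f t‖ₑ ^ p.toReal := by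
    intro t
    rw [← ENNReal.rpow_natCast, ← ENNReal.rpow_mul]
    congr 1
    push_cast
    ring
  simp_rw [h1]
  rw [← ENNReal.rpow_natCast, ← ENNReal.rpow_mul]
  congr 1
  push_cast
  field_simp

end SQZ_

open SQZ_ in
theorem sqz (h : Stmt_SQL.{v, w}) : Stmt_SQZ.{v, w} := by
  intro P hP
  obtain ⟨C, hC1, hC2, hC⟩ := h P hP
  refine ⟨C, hC1, hC2, ?_⟩
  intro 𝕜 _ ι Ω _ p μ _ h2 hp A _ _ x
  have key := fun i => hC 𝕜 (Ω i) (μ i) (p i) (h2 i) (hp i) A (fun a => x a i)
  refine ⟨?_, ?_, ?_⟩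
  · rw [ofReal_rad]
    exact ENNReal.tsum_le_tsum fun i => (key i).1
  · rw [ofReal_rad]
    unfold qf
    rw [← ENNReal.tsum_mul_left]
    exact ENNReal.tsum_le_tsum fun i => (key i).2
  · have hpi : ∀ i, p i ≠ ∞ := fun i => ne_top_of_le_ne_top ENNReal.ofReal_ne_top (hp i)
    have hs : ∀ a, ENNReal.ofReal (‖x a‖ ^ 2) = ∑' i, ‖x a i‖ₑ ^ 2 := by
      intro a
      rw [norm_sq, ENNReal.ofReal_tsum_of_nonneg (fun i => by positivity) (summable_sq _)]
      refine tsum_congr fun i => ?_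
      rw [ENNReal.ofReal_pow (norm_nonneg _), ofReal_norm]
    rw [ENNReal.ofReal_sum_of_nonneg fun a _ => by positivity]
    simp_rw [hs]
    rw [← Summable.tsum_finsetSum fun a _ => ENNReal.summable]
    unfold qf
    refine ENNReal.tsum_le_tsum fun i => ?_
    have hq : 1 ≤ (p i).toReal / 2 := by
      have : (2 : ℝ) ≤ (p i).toReal := by
        have := (ENNReal.toReal_le_toReal (by simp) (hpi i)).2 (h2 i)
        simpa using this
      linarith
    calc rho ((p i).toReal / 2) (μ i) (sqf fun a => x a i)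
        ≤ ∑ a, rho ((p i).toReal / 2) (μ i) (fun t => ‖x a i t‖ₑ ^ 2) :=
          rho_sum hq Finset.univ (fun a t => ‖x a i t‖ₑ ^ 2)
            fun a => (Lp.aestronglyMeasurable (x a i)).enorm.pow_const 2
      _ = ∑ a, ‖x a i‖ₑ ^ 2 := Finset.sum_congr rfl fun a _ => rho_single (h2 i) (hpi i) _

end DLP
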