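import Pool.Agent.DLP.Defs

/-!
# (TAU) independent uniform variables on the unit interval
-/

open MeasureTheory ProbabilityTheory
open scoped ENNReal unitInterval

namespace DLP

theorem tau : Stmt_TAU := by
  intro L hL
  haveI : Nonempty (Fin L) := ⟨⟨0, hL⟩⟩
  let U : Measure (Fin L) := (PMF.uniformOfFintype (Fin L)).toMeasure
  haveI : IsProbabilityMeasure U := by
    show IsProbabilityMeasure (PMF.uniformOfFintype (Fin L)).toMeasure
    infer_instance
  let P : Measure (ℕ → Fin L) := Measure.infinitePi (fun _ : ℕ => U)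
  obtain ⟨f, hf, hmap⟩ := Measure.exists_measurable_map_eq P
  have hτ : ∀ m, Measurable (fun ω => f ω m) := fun m => (measurable_pi_apply m).comp hf
  refine ⟨fun m ω => f ω m, hτ, ?_⟩
  intro J g
  have hgm : ∀ m, Measurable (g m) := fun m => measurable_of_finite _
  have hF : Measurable (fun x : ℕ → Fin L => ∏ m ∈ J, g m (x m)) :=
    Finset.measurable_fun_prod J fun m _ => (hgm m).comp (measurable_pi_apply m)
  have h1 : ∫⁻ ω, ∏ m ∈ J, g m (f ω m) = ∫⁻ x, ∏ m ∈ J, g m (x m) ∂P := by
    rw [← hmap, lintegral_map hF hf]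
  rw [h1]
  have hind : iIndepFun (fun (i : ℕ) (x : ℕ → Fin L) => g i (x i)) P :=
    iIndepFun_infinitePi (P := fun _ : ℕ => U) (X := fun i => g i) hgm
  rw [lintegral_prod_eq_prod_lintegral_of_indepFun J
    (fun (i : ℕ) (x : ℕ → Fin L) => g i (x i)) hind
    (fun i => (hgm i).comp (measurable_pi_apply i))]
  refine Finset.prod_congr rfl fun m _ => ?_
  have h2 : ∫⁻ x : ℕ → Fin L, g m (x m) ∂P = ∫⁻ l, g m l ∂U := by
    have h3 : P.map (fun x => x m) = U := Measure.infinitePi_map_eval (fun _ : ℕ => U) m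
    rw [← h3, lintegral_map (hgm m) (measurable_pi_apply m)]
  rw [h2, lintegral_fintype]
  have h4 : ∀ l : Fin L, U {l} = (L : ℝ≥0∞)⁻¹ := by
    intro l
    show (PMF.uniformOfFintype (Fin L)).toMeasure {l} = _
    rw [PMF.toMeasure_apply_singleton _ _ (measurableSet_singleton l),
      PMF.uniformOfFintype_apply, Fintype.card_fin]
  simp_rw [h4]
  rw [← Finset.sum_mul, ENNReal.div_eq_inv_mul, mul_comm]

end DLP
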