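import Pool.Agent.DiestelL2.Pub
import Pool.Agent.DLP.EMB
import Pool.Agent.DLP.KEY
import Pool.Agent.DLP.DHI
import Pool.Agent.DLP.DUA
import Pool.Agent.DLP.KHI
import Pool.Agent.DLP.LAT
import Pool.Agent.DLP.ORT
import Pool.Agent.DLP.RAD
import Pool.Agent.DLP.RGK
import Pool.Agent.DLP.SQL
import Pool.Agent.DLP.SQZ
import Pool.Agent.DLP.TAU

/-!
# Assembly
-/

open MeasureTheory Filter
open scoped ENNReal Topology unitInterval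

namespace DLP

universe u v w

/-- `E` is isomorphic to a (not necessarily complemented) subspace of `F`: there is a bounded
linear map `T : E → F` with `c ‖x‖ ≤ ‖T x‖` for all `x`, for some constant `c > 0`. -/
def Embeds (𝕜 : Type v) [RCLike 𝕜] (E : Type u) (F : Type w) [NormedAddCommGroup E]
    [NormedSpace 𝕜 E] [NormedAddCommGroup F] [NormedSpace 𝕜 F] : Prop :=
  ∃ (T : E →L[𝕜] F) (c : ℝ), 0 < c ∧ ∀ x, c * ‖x‖ ≤ ‖T x‖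

/-- If `L²([0,1],X)` embeds in `ℓ²` of an `ℓ²`-sum of `L_p`-spaces, `2 < p₀ ≤ p ≤ P`, then `X` is
isomorphic to a Hilbert space. -/
theorem hilb_core (𝕜 : Type v) [RCLike 𝕜] (X : Type u) [NormedAddCommGroup X]
    [NormedSpace 𝕜 X] [CompleteSpace X] (ι : Type) [Countable ι] (Ω : ι → Type w)
    [∀ i, MeasurableSpace (Ω i)] (μ : ∀ i, Measure (Ω i)) (p : ι → ℝ≥0∞)
    [∀ i, Fact (1 ≤ p i)] (p₀ P : ℝ) (hp₀ : 2 < p₀) (hp2 : ∀ i, ENNReal.ofReal p₀ ≤ p i)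
    (hpP : ∀ i, p i ≤ ENNReal.ofReal P)
    (h : Embeds 𝕜 (DiestelL2.L2V X) (DiestelL2.ell2V (lp (fun i => Lp 𝕜 (p i) (μ i)) 2))) :
    DiestelL2.IsHilbertian 𝕜 X := by
  obtain ⟨T, c, hc, hT⟩ := h
  obtain ⟨T', hT'⟩ := exists_dbl 𝕜 T c hT
  have hPP : p₀ ≤ max p₀ P := le_max_left _ _
  have hpP' : ∀ i, p i ≤ ENNReal.ofReal (max p₀ P) := fun i =>
    (hpP i).trans (ENNReal.ofReal_le_ofReal (le_max_right _ _))
  have h2p : ∀ i, 2 ≤ p i := by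
    intro i
    refine le_trans ?_ (hp2 i)
    rw [show (2 : ℝ≥0∞) = ENNReal.ofReal 2 by norm_num]
    exact ENNReal.ofReal_le_ofReal hp₀.le
  obtain ⟨C, hC1, hC, hsq⟩ := sqz.{v, w} (sql.{v, w} khi ort) (max p₀ P) (by linarith)
  have hs := hsq 𝕜 (ℕ × ι) (fun k => Ω k.2) (fun k => p k.2) (fun k => μ k.2)
    (fun k => h2p k.2) (fun k => hpP' k.2)
  have hSq : SqData 𝕜 (fun k : ℕ × ι => Ω k.2) (fun k => p k.2) (fun k => μ k.2) C :=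
    ⟨fun A _ _ x => (hs A x).1, fun A _ _ x => (hs A x).2.1, fun A _ _ x => (hs A x).2.2⟩
  obtain ⟨K, hK0, hK1, hK2⟩ := cot.{u, v, w} (X := X) (Ω := fun k : ℕ × ι => Ω k.2)
    (p := fun k => p k.2) (μ := fun k => μ k.2) key.{w} tau lat.{w} rad_proof.{u, v, max v w}
    rad_proof.{u, v, w} 𝕜 hp₀ hPP (fun k => hp2 k.2) (fun k => hpP' k.2) hSq hC1 hC T' c hc hT'
  exact rgk.{u, v} 𝕜 X K hK0 hK1 hK2

/-- Diestel's question for subspaces and quotients. -/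
theorem diestel_lp (𝕜 : Type v) [RCLike 𝕜] (X : Type u) [NormedAddCommGroup X]
    [NormedSpace 𝕜 X] [CompleteSpace X] [TopologicalSpace.SeparableSpace X]
    (ι : Type) [Countable ι] (Ω : ι → Type w)
    [∀ i, MeasurableSpace (Ω i)] (μ : ∀ i, Measure (Ω i)) (p : ι → ℝ≥0∞)
    [∀ i, Fact (1 ≤ p i)] (p₀ P : ℝ) (hp₀ : 2 < p₀) (hp2 : ∀ i, ENNReal.ofReal p₀ ≤ p i)
    (hpP : ∀ i, p i ≤ ENNReal.ofReal P) :
    (Embeds 𝕜 X (lp (fun i => Lp 𝕜 (p i) (μ i)) 2) ∨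
        Embeds 𝕜 (StrongDual 𝕜 X) (lp (fun i => Lp 𝕜 (p i) (μ i)) 2) →
      (DiestelL2.Isom 𝕜 (lp (fun _ : ℕ => X) 2) (Lp X 2 (volume : Measure I)) ↔
        DiestelL2.IsHilbertian 𝕜 X)) ∧
    (Embeds 𝕜 X (lp (fun i => Lp 𝕜 (p i) (μ i)) 2) →
      (Embeds 𝕜 (Lp X 2 (volume : Measure I)) (lp (fun _ : ℕ => X) 2) ↔
        DiestelL2.IsHilbertian 𝕜 X)) := by
  have emb : ∀ {E : Type u} {F : Type u} [NormedAddCommGroup E] [NormedSpace 𝕜 E]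
      [NormedAddCommGroup F] [NormedSpace 𝕜 F], (F ≃L[𝕜] E) → Embeds 𝕜 E F := by
    intro E F _ _ _ _ e
    refine ⟨(e.symm : E →L[𝕜] F), (‖(e : F →L[𝕜] E)‖ + 1)⁻¹, by positivity, fun x => ?_⟩
    rw [inv_mul_le_iff₀ (by positivity)]
    have h1 : ‖x‖ ≤ ‖(e : F →L[𝕜] E)‖ * ‖(e.symm : E →L[𝕜] F) x‖ := by
      have := (e : F →L[𝕜] E).le_opNorm ((e.symm : E →L[𝕜] F) x)
      simpa using this
    refine h1.trans ?_
    gcongr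
    linarith
  -- the second statement, forward
  have fwd : Embeds 𝕜 X (lp (fun i => Lp 𝕜 (p i) (μ i)) 2) →
      Embeds 𝕜 (Lp X 2 (volume : Measure I)) (lp (fun _ : ℕ => X) 2) →
        DiestelL2.IsHilbertian 𝕜 X := by
    rintro ⟨L, a, ha, hL⟩ ⟨S, b, hb, hS⟩
    refine hilb_core 𝕜 X ι Ω μ p p₀ P hp₀ hp2 hpP
      ⟨(em L) ∘L S, a * b, by positivity, fun f => ?_⟩
    calc a * b * ‖f‖ = a * (b * ‖f‖) := by ring
      _ ≤ a * ‖S f‖ := by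
        exact mul_le_mul_of_nonneg_left (hS f) ha.le
      _ ≤ ‖em L (S f)‖ := em_lower L a ha.le hL (S f)
  refine ⟨fun hX => ⟨fun hiso => ?_, fun hH => ?_⟩, fun hX => ⟨fwd hX, fun hH => ?_⟩⟩
  · obtain ⟨e⟩ := hiso
    rcases hX with hX | ⟨L, a, ha, hL⟩
    · exact fwd hX (emb e)
    · obtain ⟨T, c, hc, hT⟩ := dua 𝕜 X (lp (fun i => Lp 𝕜 (p i) (μ i)) 2) e L a ha hL
      exact dhi 𝕜 X (hilb_core 𝕜 (StrongDual 𝕜 X) ι Ω μ p p₀ P hp₀ hp2 hpP ⟨T, c, hc, hT⟩)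
  · exact DiestelL2.conv 𝕜 X hH
  · obtain ⟨e⟩ := DiestelL2.conv 𝕜 X hH
    exact emb e

end DLP
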