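import Pool.Agent.DLP.Main

/-!
# Public form
-/

open MeasureTheory Filter
open scoped ENNReal Topology unitInterval

namespace DLP

universe u v w

/-- `E` is isomorphic to a subspace of an `ℓ²`-sum of countably many spaces `L_{p_i}(μ_i)` over
`𝕜`, with `p₀ ≤ p_i ≤ P` for all `i` (arbitrary measures on spaces in `Type w`). -/
def InSumOfLp (𝕜 : Type v) [RCLike 𝕜] (p₀ P : ℝ) (E : Type u) [NormedAddCommGroup E]
    [NormedSpace 𝕜 E] : Prop :=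
  ∃ (ι : Type) (_ : Countable ι) (Ω : ι → Type w) (_ : ∀ i, MeasurableSpace (Ω i))
    (μ : ∀ i, Measure (Ω i)) (p : ι → ℝ≥0∞) (_ : ∀ i, Fact (1 ≤ p i)),
    (∀ i, ENNReal.ofReal p₀ ≤ p i ∧ p i ≤ ENNReal.ofReal P) ∧
      Embeds 𝕜 E (lp (fun i => Lp 𝕜 (p i) (μ i)) 2)

theorem diestel_pub (𝕜 : Type v) [RCLike 𝕜] (X : Type u) [NormedAddCommGroup X]
    [NormedSpace 𝕜 X] [CompleteSpace X] [TopologicalSpace.SeparableSpace X]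
    (p₀ P : ℝ) (hp₀ : 2 < p₀) :
    (InSumOfLp.{u, v, w} 𝕜 p₀ P X ∨ InSumOfLp.{max u v, v, w} 𝕜 p₀ P (StrongDual 𝕜 X) →
      (DiestelL2.Isom 𝕜 (lp (fun _ : ℕ => X) 2) (Lp X 2 (volume : Measure I)) ↔
        DiestelL2.IsHilbertian 𝕜 X)) ∧
    (InSumOfLp.{u, v, w} 𝕜 p₀ P X →
      (Embeds 𝕜 (Lp X 2 (volume : Measure I)) (lp (fun _ : ℕ => X) 2) ↔
        DiestelL2.IsHilbertian 𝕜 X)) := by
  constructor
  · rintro (⟨ι, _, Ω, _, μ, p, _, hp, hX⟩ | ⟨ι, _, Ω, _, μ, p, _, hp, hX⟩)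
    · exact (diestel_lp 𝕜 X ι Ω μ p p₀ P hp₀ (fun i => (hp i).1) (fun i => (hp i).2)).1
        (Or.inl hX)
    · exact (diestel_lp 𝕜 X ι Ω μ p p₀ P hp₀ (fun i => (hp i).1) (fun i => (hp i).2)).1
        (Or.inr hX)
  · rintro ⟨ι, _, Ω, _, μ, p, _, hp, hX⟩
    exact (diestel_lp 𝕜 X ι Ω μ p p₀ P hp₀ (fun i => (hp i).1) (fun i => (hp i).2)).2 hX

end DLP
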