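import Pool.Agent.DLP.Defs

/-!
# Weighted sums and counting moments
-/

open MeasureTheory Filter
open scoped ENNReal Topology unitInterval

namespace DLP

universe w

lemma rho_weighted {Ω : Type w} [MeasurableSpace Ω] (μ : Measure Ω) {q : ℝ} (hq : 1 ≤ q)
    {n : ℕ} (γ : Fin n → ℝ≥0∞) (s : Fin n → Ω → ℝ≥0∞) (hs : ∀ i, Measurable (s i)) :
    rho q μ (fun t => ∑ i, γ i * s i t) ≤
      (∑ i, γ i ^ q * ∫⁻ t, (∑ j, s j t) ^ (q - 1) * s i t ∂μ) ^ (1 / q) := by
  have hq0 : 0 < q := by linarith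
  have hS : Measurable fun t => ∑ j, s j t := Finset.measurable_sum _ fun i _ => hs i
  unfold rho
  apply ENNReal.rpow_le_rpow _ (by positivity)
  have pt : ∀ t, (∑ i, γ i * s i t) ^ q ≤ ∑ i, γ i ^ q * ((∑ j, s j t) ^ (q - 1) * s i t) := by
    intro t
    have h := ENNReal.inner_le_weight_mul_Lp_of_nonneg Finset.univ hq (fun i => s i t) γ
    have h1 : ∑ i, γ i * s i t = ∑ i, s i t * γ i :=
      Finset.sum_congr rfl fun i _ => mul_comm _ _
    rw [h1]
    calc (∑ i, s i t * γ i) ^ q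
        ≤ ((∑ i, s i t) ^ (1 - q⁻¹) * (∑ i, s i t * γ i ^ q) ^ q⁻¹) ^ q :=
          ENNReal.rpow_le_rpow h hq0.le
      _ = (∑ j, s j t) ^ (q - 1) * ∑ i, s i t * γ i ^ q := by
          rw [ENNReal.mul_rpow_of_nonneg _ _ hq0.le, ← ENNReal.rpow_mul, ← ENNReal.rpow_mul,
            inv_mul_cancel₀ hq0.ne', ENNReal.rpow_one]
          congr 2
          field_simp
      _ = _ := by
          rw [Finset.mul_sum]
          exact Finset.sum_congr rfl fun i _ => by ring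
  calc ∫⁻ t, (∑ i, γ i * s i t) ^ q ∂μ
      ≤ ∫⁻ t, ∑ i, γ i ^ q * ((∑ j, s j t) ^ (q - 1) * s i t) ∂μ := lintegral_mono pt
    _ = ∑ i, ∫⁻ t, γ i ^ q * ((∑ j, s j t) ^ (q - 1) * s i t) ∂μ := by
        apply lintegral_finset_sum
        intro i _
        exact ((hS.pow_const _).mul (hs i)).const_mul _
    _ = _ := by
        refine Finset.sum_congr rfl fun i _ => ?_
        rw [lintegral_const_mul]
        exact (hS.pow_const _).mul (hs i)

lemma sum_kappa {Ω : Type w} [MeasurableSpace Ω] (μ : Measure Ω) {q : ℝ} (hq : 1 ≤ q)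
    {n : ℕ} (s : Fin n → Ω → ℝ≥0∞) (hs : ∀ i, Measurable (s i)) :
    (∑ i, ∫⁻ t, (∑ j, s j t) ^ (q - 1) * s i t ∂μ) ^ (1 / q) =
      rho q μ (fun t => ∑ i, s i t) := by
  have hS : Measurable fun t => ∑ j, s j t := Finset.measurable_sum _ fun i _ => hs i
  unfold rho
  congr 1
  rw [← lintegral_finset_sum]
  · refine lintegral_congr fun t => ?_
    rw [← Finset.mul_sum]
    nth_rewrite 2 [← ENNReal.rpow_one (∑ j, s j t)]
    rw [← ENNReal.rpow_add_of_nonneg _ _ (by linarith) (by norm_num)]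
    congr 1
    ring
  · intro i _
    exact (hS.pow_const _).mul (hs i)

/-- polynomial versus exponential -/
lemma exists_poly_exp (N : ℕ) : ∃ K : ℝ, 1 ≤ K ∧ ∀ c : ℕ, (c : ℝ) ^ N ≤ K * 2 ^ c := by
  have h := (isLittleO_pow_const_const_pow_of_one_lt (R := ℝ) N (r := 2) (by norm_num)).isBigO
  rw [Asymptotics.isBigO_iff] at h
  obtain ⟨C, hC⟩ := h
  rw [eventually_atTop] at hC
  obtain ⟨M, hM⟩ := hC
  refine ⟨max (max C 1) ((M : ℝ) ^ N + 1), le_max_of_le_left (le_max_right _ _), ?_⟩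
  intro c
  have h2 : (1 : ℝ) ≤ 2 ^ c := one_le_pow₀ (by norm_num)
  rcases le_total M c with hc | hc
  · have := hM c hc
    rw [Real.norm_of_nonneg (by positivity), Real.norm_of_nonneg (by positivity)] at this
    refine this.trans ?_
    gcongr
    exact (le_max_left _ _).trans (le_max_left _ _)
  · calc (c : ℝ) ^ N ≤ (M : ℝ) ^ N := by gcongr
      _ ≤ ((M : ℝ) ^ N + 1) * 1 := by linarith
      _ ≤ max (max C 1) ((M : ℝ) ^ N + 1) * 2 ^ c := by
        gcongr
        exact le_max_right _ _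

lemma cnt_moment (R : ℝ) (hR : 1 ≤ R) : ∃ K : ℝ≥0∞, 1 ≤ K ∧ K ≠ ∞ ∧
    ∀ (L : ℕ), 1 ≤ L → ∀ τ : ℕ → I → Fin L,
      (∀ (J : Finset ℕ) (g : ℕ → Fin L → ℝ≥0∞),
        ∫⁻ ω, ∏ m ∈ J, g m (τ m ω) = ∏ m ∈ J, ((∑ l, g m l) / L)) →
      ∀ (J : Finset ℕ), J.card = L → ∀ (i : Fin L) (q : ℝ), 1 ≤ q → q ≤ R →
        ∫⁻ ω, (∑ m ∈ J, if τ m ω = i then (1 : ℝ≥0∞) else 0) ^ q ≤ K := by
  obtain ⟨K, hK1, hK⟩ := exists_poly_exp ⌈R⌉₊
  refine ⟨ENNReal.ofReal (K * Real.exp 1), ?_, ENNReal.ofReal_ne_top, ?_⟩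
  · rw [← ENNReal.ofReal_one]
    apply ENNReal.ofReal_le_ofReal
    have : (1 : ℝ) ≤ Real.exp 1 := Real.one_le_exp (by norm_num)
    nlinarith
  intro L hL τ hτ J hJ i q hq1 hqR
  have hLpos : (0 : ℝ) < L := by exact_mod_cast hL
  have pt : ∀ ω, (∑ m ∈ J, if τ m ω = i then (1 : ℝ≥0∞) else 0) ^ q ≤
      ENNReal.ofReal K * ∏ m ∈ J, (if τ m ω = i then (2 : ℝ≥0∞) else 1) := by
    intro ω
    set c : ℕ := (J.filter fun m => τ m ω = i).card with hc
    have h1 : (∑ m ∈ J, if τ m ω = i then (1 : ℝ≥0∞) else 0) = (c : ℝ≥0∞) := by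
      rw [← Finset.sum_filter, Finset.sum_const, nsmul_eq_mul, mul_one]
    have h2 : ∏ m ∈ J, (if τ m ω = i then (2 : ℝ≥0∞) else 1) = 2 ^ c := by
      rw [← Finset.prod_filter, Finset.prod_const]
    rw [h1, h2]
    have h3 : (c : ℝ) ^ q ≤ (c : ℝ) ^ ⌈R⌉₊ := by
      rcases Nat.eq_zero_or_pos c with h0 | h0
      · rw [h0]
        simp only [Nat.cast_zero]
        rw [Real.zero_rpow (by linarith)]
        positivity
      · rw [← Real.rpow_natCast]
        apply Real.rpow_le_rpow_of_exponent_le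
        · exact_mod_cast h0
        · exact hqR.trans (Nat.le_ceil R)
    have h4 : (c : ℝ≥0∞) = ENNReal.ofReal c := by
      rw [ENNReal.ofReal_natCast]
    rw [h4, ENNReal.ofReal_rpow_of_nonneg (by positivity) (by linarith)]
    calc ENNReal.ofReal ((c : ℝ) ^ q) ≤ ENNReal.ofReal (K * 2 ^ c) :=
          ENNReal.ofReal_le_ofReal (h3.trans (hK c))
      _ = ENNReal.ofReal K * 2 ^ c := by
          rw [ENNReal.ofReal_mul (by linarith), ENNReal.ofReal_pow (by norm_num)]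
          norm_num
  have h5 := hτ J (fun _ l => if l = i then (2 : ℝ≥0∞) else 1)
  have h6 : ∑ l : Fin L, (if l = i then (2 : ℝ≥0∞) else 1) = (L : ℝ≥0∞) + 1 := by
    have : ∀ l : Fin L, (if l = i then (2 : ℝ≥0∞) else 1) = 1 + if l = i then 1 else 0 := by
      intro l
      split_ifs <;> norm_num
    simp_rw [this]
    rw [Finset.sum_add_distrib]
    simp
  calc ∫⁻ ω, (∑ m ∈ J, if τ m ω = i then (1 : ℝ≥0∞) else 0) ^ q
      ≤ ∫⁻ ω, ENNReal.ofReal K * ∏ m ∈ J, (if τ m ω = i then (2 : ℝ≥0∞) else 1) :=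
        lintegral_mono pt
    _ = ENNReal.ofReal K * ∫⁻ ω, ∏ m ∈ J, (if τ m ω = i then (2 : ℝ≥0∞) else 1) := by
        rw [lintegral_const_mul' _ _ ENNReal.ofReal_ne_top]
    _ = ENNReal.ofReal K * (((L : ℝ≥0∞) + 1) / L) ^ L := by
        rw [h5, Finset.prod_const, hJ, h6]
    _ ≤ ENNReal.ofReal (K * Real.exp 1) := by
        rw [ENNReal.ofReal_mul (by linarith)]
        gcongr
        have h7 : ((L : ℝ≥0∞) + 1) / L = ENNReal.ofReal (1 + 1 / L) := by
          rw [show (1 + 1 / (L : ℝ)) = ((L : ℝ) + 1) / L by field_simp,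
            ENNReal.ofReal_div_of_pos hLpos, ENNReal.ofReal_add hLpos.le (by norm_num),
            ENNReal.ofReal_natCast, ENNReal.ofReal_one]
        rw [h7, ← ENNReal.ofReal_pow (by positivity)]
        apply ENNReal.ofReal_le_ofReal
        calc (1 + 1 / (L : ℝ)) ^ L ≤ (Real.exp (1 / L)) ^ L := by
              gcongr
              rw [add_comm]
              exact Real.add_one_le_exp _
          _ = Real.exp 1 := by
              rw [← Real.exp_nat_mul]
              congr 1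
              field_simp

end DLP
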