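import Pool.Agent.DLP.LOW
import Pool.Agent.DLP.WGT

/-!
# The upper estimate
-/

open MeasureTheory Filter
open scoped ENNReal Topology unitInterval

namespace DLP

universe u v w

section
variable (𝕜 : Type v) [RCLike 𝕜] {X : Type u} [NormedAddCommGroup X] [NormedSpace 𝕜 X]
  {ι : Type} {Ω : ι → Type w} [∀ i, MeasurableSpace (Ω i)] {p : ι → ℝ≥0∞}
  {μ : ∀ i, Measure (Ω i)} [∀ i, Fact (1 ≤ p i)]
  (T : X →L[𝕜] lp (fun i => Lp 𝕜 (p i) (μ i)) 2)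
  {L : ℕ} (τ : ℕ → I → Fin L) (hτm : ∀ m, Measurable (τ m)) {n : ℕ} (hn : n ≤ L) (x : Fin n → X)

/-- `|(T x_i)_k|²` -/
noncomputable def sq1 (i : Fin n) (k : ι) (t : Ω k) : ℝ≥0∞ := ‖T (x i) k t‖ₑ ^ 2

/-- number of hits -/
noncomputable def cnt (J : Finset ℕ) (ω : I) (i : Fin n) : ℝ≥0∞ :=
  ∑ m ∈ J, if τ m ω = Fin.castLE hn i then (1 : ℝ≥0∞) else 0

omit [∀ i, Fact (1 ≤ p i)] in
lemma measurable_coe (k : ι) (f : Lp 𝕜 (p k) (μ k)) : Measurable fun t => ‖f t‖ₑ ^ 2 :=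
  (Lp.stronglyMeasurable f).measurable.enorm.pow_const 2

lemma measurable_sq1 (i : Fin n) (k : ι) : Measurable (sq1 𝕜 T x i k) :=
  measurable_coe 𝕜 k _

include hτm in
lemma measurable_cnt (J : Finset ℕ) (i : Fin n) : Measurable fun ω => cnt τ hn J ω i := by
  unfold cnt
  apply Finset.measurable_sum
  intro m _
  exact (measurable_of_finite (fun l : Fin L => if l = Fin.castLE hn i then (1 : ℝ≥0∞) else 0)).comp
    (hτm m)

lemma enorm_c0 : ‖(((√(L : ℝ) : ℝ) : 𝕜))‖ₑ ^ 2 = (L : ℝ≥0∞) := by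
  rw [← ofReal_norm_eq_enorm, RCLike.norm_ofReal, ← ENNReal.ofReal_pow (abs_nonneg _), sq_abs,
    Real.sq_sqrt (by positivity), ENNReal.ofReal_natCast]

lemma sqf_yf (J : Finset ℕ) (ω : I) (k : ι) :
    sqf (fun a : Fin n × J => T (yf 𝕜 τ hn x ω a.1 a.2) k) =ᵐ[μ k]
      fun t => ∑ i, (L * cnt τ hn J ω i) * sq1 𝕜 T x i k t := by
  have h1 : ∀ᵐ t ∂(μ k), ∀ a : Fin n × J, ‖T (yf 𝕜 τ hn x ω a.1 a.2) k t‖ₑ ^ 2 =
      (if τ a.2 ω = Fin.castLE hn a.1 then (1 : ℝ≥0∞) else 0) * (L * sq1 𝕜 T x a.1 k t) := by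
    rw [ae_all_iff]
    intro a
    by_cases hω : τ a.2 ω = Fin.castLE hn a.1
    · have e1 : T (yf 𝕜 τ hn x ω a.1 a.2) k = (((√(L : ℝ) : ℝ) : 𝕜)) • (T (x a.1) k) := by
        unfold yf cv
        rw [if_pos hω, map_smul]
        rfl
      rw [e1]
      filter_upwards [Lp.coeFn_smul (((√(L : ℝ) : ℝ) : 𝕜)) (T (x a.1) k)] with t ht
      rw [ht, if_pos hω, Pi.smul_apply, enorm_smul, mul_pow, enorm_c0, one_mul]
      rfl
    · have e1 : T (yf 𝕜 τ hn x ω a.1 a.2) k = 0 := by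
        unfold yf
        rw [if_neg hω, map_zero]
        rfl
      rw [e1]
      filter_upwards [Lp.coeFn_zero 𝕜 (p k) (μ k)] with t ht
      rw [ht, if_neg hω]
      simp
  filter_upwards [h1] with t ht
  unfold sqf
  rw [Finset.sum_congr rfl (fun a _ => ht a), Fintype.sum_prod_type]
  refine Finset.sum_congr rfl fun i _ => ?_
  dsimp only
  rw [← Finset.sum_mul]
  unfold cnt
  rw [Finset.sum_coe_sort J (fun m => if τ m ω = Fin.castLE hn i then (1 : ℝ≥0∞) else 0)]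
  ring

lemma rho_yf (J : Finset ℕ) (ω : I) (k : ι) {q : ℝ} (hq : 1 ≤ q) :
    rho q (μ k) (sqf (fun a : Fin n × J => T (yf 𝕜 τ hn x ω a.1 a.2) k)) ≤
      (∑ i, (L * cnt τ hn J ω i) ^ q *
        ∫⁻ t, (∑ j, sq1 𝕜 T x j k t) ^ (q - 1) * sq1 𝕜 T x i k t ∂(μ k)) ^ (1 / q) := by
  have h1 : rho q (μ k) (sqf (fun a : Fin n × J => T (yf 𝕜 τ hn x ω a.1 a.2) k)) =
      rho q (μ k) (fun t => ∑ i, (L * cnt τ hn J ω i) * sq1 𝕜 T x i k t) := by
    unfold rho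
    congr 1
    apply lintegral_congr_ae
    filter_upwards [sqf_yf 𝕜 T τ hn x J ω k] with t ht
    rw [ht]
  rw [h1]
  exact rho_weighted (μ k) hq _ _ (fun i => measurable_sq1 𝕜 T x i k)

/-- Jensen for `t ↦ t^{1/q}` on the unit interval -/
lemma jensen {q : ℝ} (hq : 1 ≤ q) (F : I → ℝ≥0∞) (hF : Measurable F) :
    ∫⁻ ω, F ω ^ (1 / q) ≤ (∫⁻ ω, F ω) ^ (1 / q) := by
  have hq0 : 0 < q := by linarith
  have h := eLpNorm_le_eLpNorm_of_exponent_le (μ := (volume : Measure I)) (p := 1)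
    (q := ENNReal.ofReal q) (f := fun ω => F ω ^ (1 / q))
    (by rw [← ENNReal.ofReal_one]; exact ENNReal.ofReal_le_ofReal hq)
    (hF.pow_const _).aestronglyMeasurable
  rw [eLpNorm_one_eq_lintegral_enorm, eLpNorm_eq_lintegral_rpow_enorm_toReal
    (by simpa using hq0) ENNReal.ofReal_ne_top, ENNReal.toReal_ofReal hq0.le] at h
  simp only [enorm_eq_self] at h
  refine h.trans (le_of_eq ?_)
  congr 1
  refine lintegral_congr fun ω => ?_
  rw [← ENNReal.rpow_mul, one_div_mul_cancel hq0.ne', ENNReal.rpow_one]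

include hτm in
lemma int_k (J : Finset ℕ) (k : ι) {q : ℝ} (hq : 1 ≤ q)
    (K : ℝ≥0∞) (hK : 1 ≤ K)
    (hcnt : ∀ i, ∫⁻ ω, cnt τ hn J ω i ^ q ≤ K) :
    ∫⁻ ω, (∑ i, (L * cnt τ hn J ω i) ^ q *
        ∫⁻ t, (∑ j, sq1 𝕜 T x j k t) ^ (q - 1) * sq1 𝕜 T x i k t ∂(μ k)) ^ (1 / q) ≤
      L * K * rho q (μ k) (fun t => ∑ i, sq1 𝕜 T x i k t) := by
  have hq0 : 0 < q := by linarith
  set κ : Fin n → ℝ≥0∞ := fun i =>
    ∫⁻ t, (∑ j, sq1 𝕜 T x j k t) ^ (q - 1) * sq1 𝕜 T x i k t ∂(μ k) with hκ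
  have hm : ∀ i, Measurable fun ω => (L * cnt τ hn J ω i) ^ q * κ i := by
    intro i
    exact (((measurable_cnt τ hτm hn J i).const_mul _).pow_const _).mul_const _
  calc ∫⁻ ω, (∑ i, (L * cnt τ hn J ω i) ^ q * κ i) ^ (1 / q)
      ≤ (∫⁻ ω, ∑ i, (L * cnt τ hn J ω i) ^ q * κ i) ^ (1 / q) :=
        jensen hq _ (Finset.measurable_sum _ fun i _ => hm i)
    _ ≤ ((L : ℝ≥0∞) ^ q * (K * ∑ i, κ i)) ^ (1 / q) := by
        apply ENNReal.rpow_le_rpow _ (by positivity)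
        rw [lintegral_finsetSum _ (fun i _ => hm i), Finset.mul_sum, Finset.mul_sum]
        refine Finset.sum_le_sum fun i _ => ?_
        have h1 : ∀ ω, (L * cnt τ hn J ω i) ^ q * κ i =
            (L : ℝ≥0∞) ^ q * κ i * (cnt τ hn J ω i ^ q) := by
          intro ω
          rw [ENNReal.mul_rpow_of_nonneg _ _ hq0.le]
          ring
        simp_rw [h1]
        rw [lintegral_const_mul _ ((measurable_cnt τ hτm hn J i).pow_const _)]
        calc (L : ℝ≥0∞) ^ q * κ i * ∫⁻ ω, cnt τ hn J ω i ^ q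
            ≤ (L : ℝ≥0∞) ^ q * κ i * K := by gcongr; exact hcnt i
          _ = _ := by ring
    _ = L * (K ^ (1 / q) * (∑ i, κ i) ^ (1 / q)) := by
        rw [ENNReal.mul_rpow_of_nonneg _ _ (by positivity),
          ENNReal.mul_rpow_of_nonneg _ _ (by positivity), ← ENNReal.rpow_mul,
          mul_one_div_cancel hq0.ne', ENNReal.rpow_one]
    _ ≤ L * (K * rho q (μ k) (fun t => ∑ i, sq1 𝕜 T x i k t)) := by
        rw [sum_kappa (μ k) hq _ (fun i => measurable_sq1 𝕜 T x i k)]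
        gcongr
        calc K ^ (1 / q) ≤ K ^ (1 : ℝ) := by
              apply ENNReal.rpow_le_rpow_of_exponent_le hK
              rw [div_le_one hq0]; exact hq
          _ = K := ENNReal.rpow_one K
    _ = _ := by ring

end

end DLP
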