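import Pool.Agent.DLP.UPP

/-!
# The upper estimate, final form
-/

open MeasureTheory Filter
open scoped ENNReal Topology unitInterval

namespace DLP

universe u v w

/-- data: exponents between `2` and `P`, and the comparison constants -/
structure SqData (𝕜 : Type v) [RCLike 𝕜] {ι : Type} (Ω : ι → Type w)
    [∀ i, MeasurableSpace (Ω i)] (p : ι → ℝ≥0∞) (μ : ∀ i, Measure (Ω i))
    [∀ i, Fact (1 ≤ p i)] (C : ℝ≥0∞) : Prop where
  lower : ∀ (A : Type) [Fintype A] [DecidableEq A] (x : A → lp (fun i => Lp 𝕜 (p i) (μ i)) 2),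
    qf x ≤ ENNReal.ofReal (rad x)
  upper : ∀ (A : Type) [Fintype A] [DecidableEq A] (x : A → lp (fun i => Lp 𝕜 (p i) (μ i)) 2),
    ENNReal.ofReal (rad x) ≤ C * qf x
  tri : ∀ (A : Type) [Fintype A] [DecidableEq A] (x : A → lp (fun i => Lp 𝕜 (p i) (μ i)) 2),
    qf x ≤ ENNReal.ofReal (∑ a, ‖x a‖ ^ 2)

lemma rad_nonneg {A E : Type*} [Fintype A] [DecidableEq A] [NormedAddCommGroup E]
    (x : A → E) : 0 ≤ rad x := by
  unfold rad; positivity

theorem upp (hRAD : Stmt_RAD.{u, v, w}) (𝕜 : Type v) [RCLike 𝕜] {X : Type u}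
    [NormedAddCommGroup X] [NormedSpace 𝕜 X] {ι : Type} [Countable ι] {Ω : ι → Type w}
    [∀ i, MeasurableSpace (Ω i)] {p : ι → ℝ≥0∞} {μ : ∀ i, Measure (Ω i)}
    [∀ i, Fact (1 ≤ p i)] {C K : ℝ≥0∞} {P : ℝ}
    (hRAD1 : ∀ (T : X →L[𝕜] lp (fun i => Lp 𝕜 (p i) (μ i)) 2) (c : ℝ),
      0 < c → (∀ x, c * ‖x‖ ≤ ‖T x‖) →
      ∀ (A : Type) [Fintype A] [DecidableEq A] (x : A → X),
        c ^ 2 * rad x ≤ rad (fun a => T (x a)) ∧
        rad (fun a => T (x a)) ≤ ‖T‖ ^ 2 * rad x)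
    (hp2 : ∀ i, 2 ≤ p i) (hpP : ∀ i, p i ≤ ENNReal.ofReal P)
    (hSq : SqData 𝕜 Ω p μ C) (hC : C ≠ ∞) (hK1 : 1 ≤ K) (hK : K ≠ ∞)
    (T : X →L[𝕜] lp (fun i => Lp 𝕜 (p i) (μ i)) 2) (c : ℝ) (hc : 0 < c)
    (hT : ∀ x, c * ‖x‖ ≤ ‖T x‖)
    {L : ℕ} (hL : 1 ≤ L) (τ : ℕ → I → Fin L) (hτm : ∀ m, Measurable (τ m))
    (hcnt : ∀ (J : Finset ℕ), J.card = L → ∀ (i : Fin L) (q : ℝ), 1 ≤ q → q ≤ P / 2 →
      ∫⁻ ω, (∑ m ∈ J, if τ m ω = i then (1 : ℝ≥0∞) else 0) ^ q ≤ K)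
    {n : ℕ} (hn : n ≤ L) (x : Fin n → X) (J : Finset ℕ) (hJ : J.card = L) :
    c ^ 2 * rad (fun a : Fin n × J => tf 𝕜 τ hτm hn x a.1 a.2) ≤
      C.toReal * K.toReal * ‖T‖ ^ 2 * L * rad x := by
  have hq : ∀ i, 1 ≤ (p i).toReal / 2 ∧ (p i).toReal / 2 ≤ P / 2 := by
    intro i
    have hpt : p i ≠ ∞ := ne_top_of_le_ne_top ENNReal.ofReal_ne_top (hpP i)
    have hP0 : 0 ≤ P := by
      by_contra hneg
      push Not at hneg
      have := (hp2 i).trans (hpP i)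
      rw [ENNReal.ofReal_of_nonpos hneg.le] at this
      simp at this
    constructor
    · have : (2 : ℝ) ≤ (p i).toReal := by
        have h := (ENNReal.toReal_le_toReal (by simp) hpt).2 (hp2 i)
        simpa using h
      linarith
    · have : (p i).toReal ≤ P := ENNReal.toReal_le_of_le_ofReal hP0 (hpP i)
      linarith
  have pt : ∀ ω, ENNReal.ofReal (c ^ 2) *
      ENNReal.ofReal (rad (fun a : Fin n × J => yf 𝕜 τ hn x ω a.1 a.2)) ≤
      C * ∑' k, (∑ i, (L * cnt τ hn J ω i) ^ ((p k).toReal / 2) *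
        ∫⁻ t, (∑ j, sq1 𝕜 T x j k t) ^ ((p k).toReal / 2 - 1) * sq1 𝕜 T x i k t ∂(μ k)) ^
          (1 / ((p k).toReal / 2)) := by
    intro ω
    have h1 := (hRAD1 T c hc hT (Fin n × J) (fun a => yf 𝕜 τ hn x ω a.1 a.2)).1
    have h2 := hSq.upper (Fin n × J) (fun a => T (yf 𝕜 τ hn x ω a.1 a.2))
    rw [← ENNReal.ofReal_mul (by positivity)]
    refine (ENNReal.ofReal_le_ofReal h1).trans (h2.trans ?_)
    gcongr
    unfold qf
    exact ENNReal.tsum_le_tsum fun k => rho_yf 𝕜 T τ hn x J ω k (hq k).1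
  have main : ENNReal.ofReal (c ^ 2) *
      ENNReal.ofReal (rad (fun a : Fin n × J => tf 𝕜 τ hτm hn x a.1 a.2)) ≤
      C * (L * K * ENNReal.ofReal (‖T‖ ^ 2 * rad x)) := by
    rw [rad_tf 𝕜 τ hτm hn x hRAD J, ← lintegral_const_mul' _ _ ENNReal.ofReal_ne_top]
    refine (lintegral_mono pt).trans ?_
    rw [lintegral_const_mul' _ _ hC]
    gcongr
    have hm : ∀ k, Measurable fun ω => (∑ i, (L * cnt τ hn J ω i) ^ ((p k).toReal / 2) *
        ∫⁻ t, (∑ j, sq1 𝕜 T x j k t) ^ ((p k).toReal / 2 - 1) * sq1 𝕜 T x i k t ∂(μ k)) ^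
          (1 / ((p k).toReal / 2)) := by
      intro k
      apply Measurable.pow_const
      apply Finset.measurable_sum
      intro i _
      exact (((measurable_cnt τ hτm hn J i).const_mul _).pow_const _).mul_const _
    rw [lintegral_tsum (fun k => (hm k).aemeasurable)]
    calc _ ≤ ∑' k, L * K * rho ((p k).toReal / 2) (μ k) (fun t => ∑ i, sq1 𝕜 T x i k t) := by
          refine ENNReal.tsum_le_tsum fun k => ?_
          refine int_k 𝕜 T τ hτm hn x J k (hq k).1 K hK1 ?_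
          intro i
          exact hcnt J hJ _ _ (hq k).1 (hq k).2
      _ = L * K * qf (fun i => T (x i)) := by
          rw [ENNReal.tsum_mul_left]
          rfl
      _ ≤ L * K * ENNReal.ofReal (rad (fun i => T (x i))) := by
          gcongr
          exact hSq.lower (Fin n) _
      _ ≤ _ := by
          gcongr
          exact (hRAD1 T c hc hT (Fin n) x).2
  have h0 : 0 ≤ rad x := rad_nonneg x
  have h1 := ENNReal.toReal_mono (ENNReal.mul_ne_top hC (ENNReal.mul_ne_top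
    (ENNReal.mul_ne_top (by simp) hK) ENNReal.ofReal_ne_top)) main
  rw [ENNReal.toReal_mul, ENNReal.toReal_mul, ENNReal.toReal_mul, ENNReal.toReal_mul,
    ENNReal.toReal_ofReal (by positivity), ENNReal.toReal_ofReal (rad_nonneg _),
    ENNReal.toReal_ofReal (by positivity), ENNReal.toReal_natCast] at h1
  calc _ ≤ _ := h1
    _ = _ := by ring

end DLP
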